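import Pool.Agent.P.MP_064970_gt.S6.Bas

/-!
# Meeks–Wolf, section 6: lower bound on a cell
-/

open MeasureTheory Set Filter Topology Metric Complex InnerProductSpace
open scoped RealInnerProductSpace ENNReal ComplexConjugate Real

noncomputable section

namespace MW.S6

namespace CELL

/-- The pointwise estimate. -/
theorem pointwise {n : E} (hn : ‖n‖ = 1) (hn2 : 0 ≤ n 2) {y p v : ℂ} {δ h D : ℝ} (hδ : 0 < δ)
    (hδ1 : δ ≤ 1 / 10) (hy : 0 < ‖y‖) (hp : ‖p - y‖ ≤ δ * ‖y‖) (hv : ‖v - p‖ ≤ δ * ‖p‖)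
    (h0 : 0 ≤ h) (hh : h ≤ 2 * δ * ‖p‖) (hD : D * (1 + n 2) = -⟪pr n, p + v⟫ - (1 + n 2) * h) :
    ⟪pr n, (‖y‖⁻¹ : ℝ) • y⟫ ^ 2 ≤ 4 * (D ^ 2 / ‖p + v‖ ^ 2 * (1 + n 2) ^ 2) + 44 * δ ^ 2 := by
  set ρ := ‖y‖ with hρ
  set a := ⟪pr n, (ρ⁻¹ : ℝ) • y⟫ with ha
  have hya : ⟪pr n, y⟫ = ρ * a := by
    rw [ha, real_inner_smul_right, ← mul_assoc, mul_inv_cancel₀ hy.ne', one_mul]
  have hn1 : ‖pr n‖ ≤ 1 := (norm_pr_le n).trans hn.le
  have hn3 : n 2 ≤ 1 := (le_abs_self _).trans ((abs_two_le n).trans hn.le)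
  have hδρ : 0 < δ * ρ := mul_pos hδ hy
  have hδρ1 : δ * ρ ≤ ρ / 10 := by nlinarith
  have hp1 : ‖p‖ ≤ 11 / 10 * ρ := by
    have : ‖p‖ ≤ ‖p - y‖ + ‖y‖ := by simpa using norm_add_le (p - y) y
    linarith
  have hp2 : δ * ‖p‖ ≤ 11 / 10 * (δ * ρ) := by nlinarith
  set w := p + v - (2 : ℝ) • y with hw
  have hw1 : ‖w‖ ≤ 4 * (δ * ρ) := by
    have e : w = (2 : ℝ) • (p - y) + (v - p) := by
      rw [hw, smul_sub, two_smul, two_smul]; ring
    have h1 : ‖w‖ ≤ 2 * ‖p - y‖ + ‖v - p‖ := by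
      rw [e]
      refine (norm_add_le _ _).trans (le_of_eq ?_)
      rw [norm_smul, Real.norm_ofNat]
    linarith
  have ez : p + v = (2 : ℝ) • y + w := by rw [hw]; ring
  have h2y : ‖(2 : ℝ) • y‖ = 2 * ρ := by rw [norm_smul, Real.norm_ofNat]
  have hz1 : ‖p + v‖ ≤ 12 / 5 * ρ := by
    have : ‖p + v‖ ≤ ‖(2 : ℝ) • y‖ + ‖w‖ := by rw [ez]; exact norm_add_le _ _
    linarith
  have hz0 : 0 < ‖p + v‖ := by
    have h1 : ‖(2 : ℝ) • y‖ ≤ ‖p + v‖ + ‖w‖ := by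
      have : (2 : ℝ) • y = (p + v) - w := by rw [hw]; ring
      rw [this]; exact norm_sub_le _ _
    linarith
  have hin : ⟪pr n, p + v⟫ = 2 * (ρ * a) + ⟪pr n, w⟫ := by
    rw [ez, inner_add_right, real_inner_smul_right, hya]
  have hw2 : |⟪pr n, w⟫| ≤ 4 * (δ * ρ) := by
    refine (abs_real_inner_le_norm _ _).trans ?_
    nlinarith [norm_nonneg w, norm_nonneg (pr n)]
  set e := ⟪pr n, w⟫ + (1 + n 2) * h with he
  have hh1 : (1 + n 2) * h ≤ 5 * (δ * ρ) := by nlinarith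
  have hh2 : 0 ≤ (1 + n 2) * h := mul_nonneg (by linarith) h0
  have he1 : |e| ≤ 9 * (δ * ρ) := by
    rw [abs_le] at hw2 ⊢
    constructor <;> linarith [hw2.1, hw2.2]
  have he2 : e ^ 2 ≤ 81 * (δ * ρ) ^ 2 := by
    have := pow_le_pow_left₀ (abs_nonneg e) he1 2
    rw [sq_abs] at this
    nlinarith
  have hD1 : D * (1 + n 2) = -(2 * (ρ * a)) - e := by rw [hD, hin, he]; ring
  have hD2 : 2 * (ρ * a) ^ 2 - 81 * (δ * ρ) ^ 2 ≤ (D * (1 + n 2)) ^ 2 := by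
    rw [hD1]; nlinarith [sq_nonneg (ρ * a + e)]
  have hz2 : ‖p + v‖ ^ 2 ≤ 8 * ρ ^ 2 := by nlinarith
  have hz3 : 0 < ‖p + v‖ ^ 2 := by positivity
  have key : a ^ 2 / 4 - 11 * δ ^ 2 ≤ (D * (1 + n 2)) ^ 2 / ‖p + v‖ ^ 2 := by
    rw [le_div_iff₀ hz3]
    rcases le_total (a ^ 2 / 4 - 11 * δ ^ 2) 0 with h1 | h1
    · exact (mul_nonpos_of_nonpos_of_nonneg h1 hz3.le).trans (sq_nonneg _)
    · have h2 := mul_le_mul_of_nonneg_left hz2 h1
      have h3 : 0 ≤ (δ * ρ) ^ 2 := sq_nonneg _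
      nlinarith
  have e1 : D ^ 2 / ‖p + v‖ ^ 2 * (1 + n 2) ^ 2 = (D * (1 + n 2)) ^ 2 / ‖p + v‖ ^ 2 := by ring
  rw [e1]; linarith

variable {M : Surf} {u : ℂ → ℝ} {V η : ℂ → ℂ}

/-- The integrand on the surface. -/
def ph (M : Surf) (θ : ℂ) (x : E) : ℝ≥0∞ := ENNReal.ofReal (⟪pr (M.N x), θ⟫ ^ 2)

theorem measurable_inner (M : Surf) (θ : ℂ) : Measurable fun x => ⟪pr (M.N x), θ⟫ ^ 2 := by
  have h1 : Continuous fun n : E => ⟪pr n, θ⟫ ^ 2 := by fun_prop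
  exact h1.measurable.comp M.N_meas

theorem measurable_ph (M : Surf) (θ : ℂ) : Measurable (ph M θ) :=
  (measurable_inner M θ).ennreal_ofReal

theorem pr_mem {y : ℂ} {t b : ℝ} {x : E} (hx : x ∈ ball (pt y t) b) : pr x ∈ ball y b := by
  rw [mem_ball_iff_norm] at hx ⊢
  have h1 : pr x - y = pr (x - pt y t) := by rw [pr_sub, pr_pt]
  rw [h1]
  exact (norm_pr_le _).trans_lt hx

/-- The mass of a ball is carried by the upper halves of the ball and of its mirror image. -/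
theorem split (hS : S_SYMU) (hm : M.Mem) (hb : Bg M 2) (h0 : M.μ {x | x 2 = 0} = 0) (θ y : ℂ)
    (t b : ℝ) :
    ∫⁻ x in ball (pt y t) b, ph M θ x ∂M.μ
      ≤ ∫⁻ x in {x : E | 0 < x 2}, (ball (pt y t) b).indicator (ph M θ) x ∂M.μ
        + ∫⁻ x in {x : E | 0 < x 2}, (ball (pt y (-t)) b).indicator (ph M θ) x ∂M.μ := by
  have hg : Measurable ((ball (pt y t) b).indicator (ph M θ)) :=
    (measurable_ph M θ).indicator measurableSet_ball
  have h1 : ∀ᵐ x ∂M.μ, x ∈ {x : E | 0 < x 2} ∪ {x : E | x 2 < 0} := by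
    have h2 : ∀ᵐ x ∂M.μ, x ∉ {x : E | x 2 = 0} := measure_eq_zero_iff_ae_notMem.1 h0
    filter_upwards [h2] with x hx
    rcases lt_or_gt_of_ne (show x 2 ≠ 0 from hx) with h3 | h3
    · exact Or.inr h3
    · exact Or.inl h3
  have h3 : ∫⁻ x in {x : E | x 2 < 0}, (ball (pt y t) b).indicator (ph M θ) x ∂M.μ
      = ∫⁻ x in {x : E | 0 < x 2}, (ball (pt y (-t)) b).indicator (ph M θ) x ∂M.μ := by
    rw [hS M hm hb _ hg]
    refine lintegral_congr_ae ?_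
    filter_upwards [ae_restrict_of_ae M.ae_mem] with x hx
    have h4 : rf 2 x ∈ ball (pt y t) b ↔ x ∈ ball (pt y (-t)) b := by
      rw [← rf_mem_ball 2 x (pt y (-t)) b, rf_pt, neg_neg]
    by_cases h5 : x ∈ ball (pt y (-t)) b
    · rw [indicator_of_mem h5, indicator_of_mem (h4.2 h5), ph, ph, hb.symN x hx, pr_rf_two]
    · rw [indicator_of_notMem h5, indicator_of_notMem (fun h6 => h5 (h4.1 h6))]
  rw [← lintegral_indicator measurableSet_ball, ← h3]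
  calc ∫⁻ x, (ball (pt y t) b).indicator (ph M θ) x ∂M.μ
      = ∫⁻ x in {x : E | 0 < x 2} ∪ {x : E | x 2 < 0},
          (ball (pt y t) b).indicator (ph M θ) x ∂M.μ := by
        rw [Measure.restrict_eq_self_of_ae_mem h1]
    _ ≤ _ := lintegral_union_le _ _ _

/-- The integrand in the plane. -/
def GG (M : Surf) (u : ℂ → ℝ) (η : ℂ → ℂ) (z : ℂ) : ℝ≥0∞ :=
  ENNReal.ofReal (PL.Dil (UU u η) (hh M u η) z ^ 2 / ‖z‖ ^ 2)

theorem measurable_GG (hh' : S_HH) (h : NB M u V η) : Measurable (GG M u η) := by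
  have h1 : Measurable (hh M u η) := (hh' M u V η h).1
  have h2 : Measurable (UU u η) := h.continuous_UU.measurable
  have h3 : Measurable (PL.Dil (UU u η) (hh M u η)) :=
    (Complex.measurable_re.comp (h1.mul measurable_id)).sub h2
  exact ((h3.pow_const 2).div (measurable_norm.pow_const 2)).ennreal_ofReal

/-- The estimate on the upper half of one ball. -/
theorem half (hP : S_PUSH) (hh' : S_HH) (h : NB M u V η) {y : ℂ} {δ b R : ℝ} (hδ : 0 < δ)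
    (hδ1 : δ ≤ 1 / 10) (hy : 0 < ‖y‖) (hb : 0 < b) (hbδ : b ≤ δ * ‖y‖) (hR : 2 * R ≤ ‖y‖)
    (hV : ∀ p : ℂ, R ≤ ‖p‖ → ‖V p - p‖ ≤ δ * ‖p‖)
    (hd : ∀ x ∈ M.S, R ≤ ‖x‖ → |x 2| ≤ δ * ‖x‖) (t : ℝ) :
    ∫⁻ x in {x : E | 0 < x 2}, (ball (pt y t) b).indicator (ph M ((‖y‖⁻¹ : ℝ) • y)) x ∂M.μ
      ≤ 4 * (∫⁻ z in PL.Om (UU u η) ∩ η ⁻¹' ball y b, GG M u η z)
        + ENNReal.ofReal (44 * δ ^ 2 * (2 * π * b ^ 2)) := by
  have hA : MeasurableSet (η ⁻¹' ball y b) := (isOpen_ball.preimage h.continuous_η).measurableSet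
  have hF : Measurable ((η ⁻¹' ball y b).indicator (GG M u η)) := (measurable_GG hh' h).indicator hA
  have h1 : ∫⁻ z in PL.Om (UU u η) ∩ η ⁻¹' ball y b, GG M u η z
      = ∫⁻ x in {x : E | 0 < x 2}, (η ⁻¹' ball y b).indicator (GG M u η) (TT V x)
        * ENNReal.ofReal ((1 + M.N x 2) ^ 2) ∂M.μ := by
    rw [← hP M u V η h _ hF, lintegral_indicator hA, Measure.restrict_restrict hA, inter_comm]
  have hpos : MeasurableSet {x : E | 0 < x 2} :=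
    (isOpen_lt continuous_const (continuous_coord 2)).measurableSet
  have h2 : ∀ᵐ x ∂M.μ.restrict {x : E | 0 < x 2},
      (ball (pt y t) b).indicator (ph M ((‖y‖⁻¹ : ℝ) • y)) x
        ≤ 4 * ((η ⁻¹' ball y b).indicator (GG M u η) (TT V x)
          * ENNReal.ofReal ((1 + M.N x 2) ^ 2))
          + (ball (pt y t) b).indicator (fun _ => ENNReal.ofReal (44 * δ ^ 2)) x := by
    filter_upwards [ae_restrict_mem hpos, ae_restrict_of_ae M.ae_mem] with x hx0 hx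
    have hx0' : 0 < x 2 := hx0
    by_cases hxb : x ∈ ball (pt y t) b
    · have hp := pr_mem hxb
      have hp' : TT V x ∈ η ⁻¹' ball y b := by
        rw [mem_preimage, h.η_TT]; exact hp
      rw [indicator_of_mem hxb, indicator_of_mem hxb, indicator_of_mem hp']
      have hp1 : ‖pr x - y‖ ≤ δ * ‖y‖ := (mem_ball_iff_norm.1 hp).le.trans hbδ
      have hp2 : R ≤ ‖pr x‖ := by
        have h3 : ‖y‖ ≤ ‖pr x‖ + ‖pr x - y‖ := by
          simpa using norm_sub_le (pr x) (pr x - y)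
        nlinarith
      have hx2 : x 2 ≤ 2 * δ * ‖pr x‖ := by
        have h3 := hd x hx (hp2.trans (norm_pr_le x))
        have h4 := norm_le_pr_add x
        rw [abs_of_pos hx0'] at h3 h4
        nlinarith
      have hn2 : 0 ≤ M.N x 2 := h.bg.nonneg hx hx0'.le
      have hD : PL.Dil (UU u η) (hh M u η) (TT V x) * (1 + M.N x 2)
          = -⟪pr (M.N x), pr x + V (pr x)⟫ - (1 + M.N x 2) * x 2 := by
        rw [PL.Dil, h.hh_TT hx hx0'.le, h.UU_TT hx hx0'.le, sub_mul, re_gm_mul hn2, TT]; ring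
      have key := pointwise (M.N_unit x hx) hn2 hδ hδ1 hy hp1 (hV _ hp2) hx0'.le hx2 hD
      rw [ph, GG, ← ENNReal.ofReal_mul (by positivity), ← ENNReal.ofReal_ofNat 4,
        ← ENNReal.ofReal_mul (by norm_num), ← ENNReal.ofReal_add (by positivity) (by positivity)]
      exact ENNReal.ofReal_le_ofReal key
    · rw [indicator_of_notMem hxb]; exact zero_le
  refine (lintegral_mono_ae h2).trans ?_
  rw [lintegral_add_right _ (measurable_const.indicator measurableSet_ball),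
    lintegral_const_mul' _ _ (by norm_num), ← h1]
  refine add_le_add le_rfl ?_
  rw [lintegral_indicator_const measurableSet_ball,
    ENNReal.ofReal_mul (p := 44 * δ ^ 2) (q := 2 * π * b ^ 2) (by positivity)]
  exact mul_le_mul_right ((Measure.restrict_le_self _).trans (h.mem.bd _ _ hb)) _

theorem exists_delta {c ε : ℝ} (hc : 0 < c) (hε : 0 < ε) :
    ∃ δ : ℝ, 0 < δ ∧ δ ≤ 1 / 10 ∧ δ ≤ ε ∧ 44 * δ ^ 2 * (2 * π) ≤ c / 4 := by
  have hπ := Real.pi_pos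
  have hπ4 := Real.pi_le_four
  refine ⟨min (min (1 / 10) ε) (c / 200), by positivity, (min_le_left _ _).trans (min_le_left _ _),
    (min_le_left _ _).trans (min_le_right _ _), ?_⟩
  set δ := min (min (1 / 10) ε) (c / 200)
  have h0 : 0 < δ := by positivity
  have h1 : δ ≤ 1 / 10 := (min_le_left _ _).trans (min_le_left _ _)
  have h2 : δ ≤ c / 200 := min_le_right _ _
  have h3 : δ ^ 2 ≤ c / 2000 := by nlinarith
  have h4 : δ ^ 2 * π ≤ c / 2000 * 4 := by gcongr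
  linarith

end CELL

/-- Constant `c / 8` with `c` from `d3`. Let `θ = y / ‖y‖`, `φ x = ⟪pr (N x), θ⟫²` (even under `rf 2` on
`S`), `B = ball (pt y t) b`. By `S_NULL` and `S_SYMU` one of the balls `B`, `ball (pt y (-t)) b`,
call it `B'`, has `∫ φ over B' ∩ {0 < x 2} ≥ c b² / 2`; `μ B' ≤ 2π b²` (`Bd`),
`pr '' B' ⊆ ball y b`. For `x ∈ S ∩ B'`, `0 < x 2`, `z = TT V x`:
`Dil z * (1 + n 2) = -⟪pr n, z⟫ - (1 + n 2) x 2` (`NB.hh_TT`, `NB.UU_TT`, `re_gm_mul`),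
`‖z / ‖z‖ - θ‖ ≤ C δ` (`S_GO`, `b ≤ δ ‖y‖`), `x 2 ≤ C δ ‖z‖` (`d1`), so
`Dil² / ‖z‖² (1 + n 2)² ≥ φ x / 2 - C δ²`. `S_PUSH` with the indicator of `η ⁻¹' ball y b`;
choose `δ ≤ ε` with `2π C δ² ≤ c / 8`. -/
theorem cell_of (hG : S_GO) (hP : S_PUSH) (hS : S_SYMU) (hN : S_NULL) (hh' : S_HH) : S_CELL := by
  intro M u V η hI h
  obtain ⟨c, hc, h3⟩ := hI.d3
  refine ⟨c / 16, by positivity, fun ε hε => ?_⟩
  obtain ⟨δ, hδ, hδ1, hδε, hδc⟩ := CELL.exists_delta hc hε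
  obtain ⟨R₃, hR₃⟩ := h3 δ hδ
  obtain ⟨R₁, hR₁⟩ := hI.d1 δ hδ
  obtain ⟨R₂, hR₂⟩ := hG M u V η hI h δ hδ
  refine ⟨max (max R₃ 1) (2 * max R₁ R₂), fun y hy hyS => ?_⟩
  have hy3 : R₃ ≤ ‖y‖ := ((le_max_left _ _).trans (le_max_left _ _)).trans hy
  have hy0 : 0 < ‖y‖ := one_pos.trans_le (((le_max_right _ _).trans (le_max_left _ _)).trans hy)
  have hy2 : 2 * max R₁ R₂ ≤ ‖y‖ := (le_max_right _ _).trans hy
  obtain ⟨t, b, hb, hbδ, hθ⟩ := hR₃ y hy3 fun h4 => hyS ((h.gr.mem_pr_iff h.bg y).1 h4)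
  refine ⟨b, hb, hbδ.trans (mul_le_mul_of_nonneg_right hδε hy0.le), ?_⟩
  set θ : ℂ := (‖y‖⁻¹ : ℝ) • y with hθdef
  have hθ1 : ‖θ‖ = 1 := by
    rw [hθdef, norm_smul, norm_inv, norm_norm, inv_mul_cancel₀ hy0.ne']
  have hint : IntegrableOn (fun x => ⟪pr (M.N x), θ⟫ ^ 2) (ball (pt y t) b) M.μ := by
    refine h.mem.bd.integrableOn isBounded_ball (CELL.measurable_inner M θ) (C := 1)
      (fun x hx => ?_) measurableSet_ball
    have h4 : |⟪pr (M.N x), θ⟫| ≤ 1 := by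
      refine (abs_real_inner_le_norm _ _).trans ?_
      rw [hθ1, mul_one]
      exact (norm_pr_le _).trans (M.N_unit x hx.2).le
    rw [abs_pow]
    exact pow_le_one₀ (abs_nonneg _) h4
  have h5 : ENNReal.ofReal (c * b ^ 2) ≤ ∫⁻ x in ball (pt y t) b, CELL.ph M θ x ∂M.μ := by
    refine (ENNReal.ofReal_le_ofReal (hθ θ hθ1)).trans (le_of_eq ?_)
    exact ofReal_integral_eq_lintegral_ofReal hint (Eventually.of_forall fun x => sq_nonneg _)
  have hhalf := CELL.half hP hh' h hδ hδ1 hy0 hb hbδ hy2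
    (fun p hp => hR₂ p ((le_max_right _ _).trans hp))
    (fun x hx hp => hR₁ x hx ((le_max_left _ _).trans hp))
  have h6 := h5.trans ((CELL.split hS h.mem h.bg (hN M u V η h).2 θ y t b).trans
    (add_le_add (hhalf t) (hhalf (-t))))
  change _ ≤ ∫⁻ z in PL.Om (UU u η) ∩ η ⁻¹' ball y b, CELL.GG M u η z
  generalize ∫⁻ z in PL.Om (UU u η) ∩ η ⁻¹' ball y b, CELL.GG M u η z = J at h6 ⊢
  rcases eq_or_ne J ∞ with rfl | hJ
  · exact le_top
  lift J to NNReal using hJ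
  have hπ := Real.pi_pos
  rw [← ENNReal.ofReal_coe_nnreal] at h6 ⊢
  rw [← ENNReal.ofReal_ofNat 4, ← ENNReal.ofReal_mul (by norm_num),
    ← ENNReal.ofReal_add (by positivity) (by positivity),
    ← ENNReal.ofReal_add (by positivity) (by positivity),
    ENNReal.ofReal_le_ofReal_iff (by positivity)] at h6
  refine ENNReal.ofReal_le_ofReal ?_
  have h7 : 44 * δ ^ 2 * (2 * π) * b ^ 2 ≤ c / 4 * b ^ 2 :=
    mul_le_mul_of_nonneg_right hδc (sq_nonneg b)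
  nlinarith

end MW.S6
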