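import Pool.Agent.P.MP_064970_gt.S6.Bas

/-!
# Meeks–Wolf, section 6: conjugate functions
-/

open MeasureTheory Set Filter Topology Metric Complex InnerProductSpace
open scoped RealInnerProductSpace ENNReal ComplexConjugate Real

noncomputable section

namespace MW.S6

namespace CJ

variable {M : Surf} {c : Chart} {w : ℂ}

theorem key (hf : c.Fits M.S M.N M.μ) (ho : Ori c M.N) (hw : w ∈ ball (0 : ℂ) c.r) (i : Fin 3)
    (v : ℂ) : ⟪cross (M.N (c.X w)) (ee i), c.DX w v⟫ = (deriv (c.Φ i) w * v).im := by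
  obtain ⟨h0, h1, h2, h3, h4, -⟩ := ho.coords hf hw
  have e0 : (deriv (c.Φ 0) w).im = _ := neg_eq_iff_eq_neg.1 h0
  have e1 : (deriv (c.Φ 1) w).im = _ := neg_eq_iff_eq_neg.1 h1
  have e2 : (deriv (c.Φ 2) w).im = _ := neg_eq_iff_eq_neg.1 h2
  have hi : i = 0 ∨ i = 1 ∨ i = 2 := by fin_cases i <;> simp
  rcases hi with rfl | rfl | rfl
  · simp only [inner_cross_ee0, Chart.DX_apply_coord, mul_re, mul_im, e0, e1, e2]
    linear_combination (v.im * (deriv (c.Φ 0) w).re) * h4 - (v.im * M.N (c.X w) 0) * h3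
  · simp only [inner_cross_ee1, Chart.DX_apply_coord, mul_re, mul_im, e0, e1, e2]
    linear_combination (v.im * (deriv (c.Φ 1) w).re) * h4 - (v.im * M.N (c.X w) 1) * h3
  · simp only [inner_cross_ee2, Chart.DX_apply_coord, mul_re, mul_im, e0, e1, e2]
    linear_combination (v.im * (deriv (c.Φ 2) w).re) * h4 - (v.im * M.N (c.X w) 2) * h3

theorem im_deriv (hf : c.Fits M.S M.N M.μ) (ho : Ori c M.N) (hw : w ∈ ball (0 : ℂ) c.r)
    (i : Fin 3) : HasFDerivAt (fun z => (c.Φ i z).im)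
      ((innerSL ℝ (cross (M.N (c.X w)) (ee i))).comp (c.DX w)) w := by
  have h1 := (chart_analyticAt c i hw).differentiableAt.hasDerivAt.hasFDerivAt.restrictScalars ℝ
  refine (imCLM.hasFDerivAt.comp w h1).congr_fderiv (ContinuousLinearMap.ext fun v => ?_)
  have h2 := key hf ho hw i v
  simp only [ContinuousLinearMap.comp_apply, innerSL_apply_apply, h2]
  simp [mul_comm]

theorem desc {S : Set E} (he : c.Emb S) (hw : w ∈ ball (0 : ℂ) c.r) {f : E → ℝ} {L : E →L[ℝ] ℝ}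
    (h : HasFDerivAt (fun z => f (c.X z)) (L.comp (c.DX w)) w) :
    HasFDerivWithinAt f L S (c.X w) := by
  have hX := c.hasFDerivAt_X hw
  have hi : IsInducing (c.DX w) := (LinearMap.isClosedEmbedding_of_injective
    (f := (c.DX w : ℂ →ₗ[ℝ] E)) (LinearMap.ker_eq_bot.2 (c.injective_DX hw))).isInducing
  have h1 := (h.sub (L.hasFDerivAt.comp w hX)).isLittleO.trans_isBigO
    (hX.isTheta_sub hi).symm.isBigO
  rw [hasFDerivWithinAt_iff_isLittleO, ← he.map_nhds hw, Asymptotics.isLittleO_map]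
  refine h1.congr_left fun z => ?_
  simp only [Pi.sub_apply, Function.comp_apply, map_sub, sub_self, zero_apply]
  ring

theorem one (hO : S_OR) {x : E} (hx : x ∈ M.S) (i : Fin 3) : ∃ f, Cj M i f x := by
  obtain ⟨c, rfl, hf, ho⟩ := hO M x hx
  have h0 : (0 : ℂ) ∈ ball (0 : ℂ) c.r := mem_ball_self c.r_pos
  refine ⟨fun y => (c.Φ i (Function.invFunOn c.X (ball 0 c.r) y)).im, ?_⟩
  rw [Cj, ← hf.emb.map_nhds h0, eventually_map]
  filter_upwards [isOpen_ball.mem_nhds h0] with w hw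
  refine desc hf.emb hw ((im_deriv hf ho hw i).congr_of_eventuallyEq ?_)
  filter_upwards [isOpen_ball.mem_nhds hw] with z hz
  rw [hf.inj.leftInvOn_invFunOn hz]

theorem two (hf : c.Fits M.S M.N M.μ) (ho : Ori c M.N) {i : Fin 3} {f : E → ℝ}
    (h : Cj M i f (c.X 0)) :
    ∀ᶠ w in 𝓝 (0 : ℂ), f (c.X w) = (c.Φ i w).im + (f (c.X 0) - (c.Φ i 0).im) := by
  have h0 : (0 : ℂ) ∈ ball (0 : ℂ) c.r := mem_ball_self c.r_pos
  rw [Cj, ← hf.emb.map_nhds h0, eventually_map] at h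
  have h1 : ∀ᶠ w in 𝓝 (0 : ℂ),
      HasFDerivAt (fun z => f (c.X z) - (c.Φ i z).im) (0 : ℂ →L[ℝ] ℝ) w := by
    filter_upwards [h, isOpen_ball.mem_nhds h0] with w h2 hw
    have h3 := (h2.comp w (c.hasFDerivAt_X hw).hasFDerivWithinAt
      (fun z hz => hf.emb.mem hz)).hasFDerivAt (isOpen_ball.mem_nhds hw)
    exact (h3.sub (im_deriv hf ho hw i)).congr_fderiv (sub_self _)
  obtain ⟨ε, hε, h2⟩ := Metric.eventually_nhds_iff_ball.1 h1
  filter_upwards [ball_mem_nhds (0 : ℂ) hε] with w hw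
  have h3 := isOpen_ball.is_const_of_fderiv_eq_zero (𝕜 := ℝ) (convex_ball (0 : ℂ) ε).isPreconnected
    (fun z hz => (h2 z hz).differentiableAt.differentiableWithinAt)
    (fun z hz => (h2 z hz).fderiv) hw (mem_ball_self hε)
  linarith

theorem three (hO : S_OR) {x : E} (hx : x ∈ M.S) {i : Fin 3} {f f' : E → ℝ} (h : Cj M i f x)
    (h' : Cj M i f' x) : ∀ᶠ y in 𝓝[M.S] x, f y - f' y = f x - f' x := by
  obtain ⟨c, rfl, hf, ho⟩ := hO M x hx
  rw [← hf.emb.map_nhds (mem_ball_self c.r_pos), eventually_map]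
  filter_upwards [two hf ho h, two hf ho h'] with w h1 h2
  linarith

theorem cross_rf {i j : Fin 3} (hij : i ≠ j) (n v : E) :
    -⟪cross (rf j n) (ee i), rf j v⟫ = ⟪cross n (ee i), v⟫ := by
  have hi : i = 0 ∨ i = 1 ∨ i = 2 := by fin_cases i <;> simp
  have hj : j = 0 ∨ j = 1 ∨ j = 2 := by fin_cases j <;> simp
  rcases hi with rfl | rfl | rfl <;> rcases hj with rfl | rfl | rfl <;>
    first
    | exact absurd rfl hij
    | simp [inner_cross_ee0, inner_cross_ee1, inner_cross_ee2, rf_apply, sub_eq_add_neg, add_comm]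

theorem four (hO : S_OR) {j : Fin 3} (hS : ∀ x ∈ M.S, rf j x ∈ M.S)
    (hN : ∀ x ∈ M.S, M.N (rf j x) = rf j (M.N x)) {x : E} (hx : x ∈ M.S) (h0 : x j = 0)
    {i : Fin 3} {f : E → ℝ} (hij : i ≠ j) (h : Cj M i f x) :
    ∀ᶠ y in 𝓝[M.S] x, f (rf j y) + f y = 2 * f x := by
  have h1 : Tendsto (rf j) (𝓝[M.S] x) (𝓝[M.S] x) := by
    have h2 := (continuous_rf j).continuousWithinAt.tendsto_nhdsWithin (x := x) hS
    rwa [rf_of_zero h0] at h2
  have h2 : Cj M i (fun y => -f (rf j y)) x := by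
    filter_upwards [h1.eventually h, self_mem_nhdsWithin] with y h3 hy
    refine (h3.comp y (rfL j).hasFDerivWithinAt hS).neg.congr_fderiv
      (ContinuousLinearMap.ext fun v => ?_)
    rw [hN y hy]
    simpa using cross_rf hij (M.N y) v
  filter_upwards [three hO hx h h2] with y hy
  rw [rf_of_zero h0] at hy
  linarith

end CJ

/-- Key identity in an oriented chart (`Ori.coords`, `inner_cross_ee0..2`, `Chart.DX_apply_coord`):
`⟪cross (N (X w)) (ee i), DX w v⟫ = (deriv (Φ i) w * v).im`.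
(2) `f ∘ X - Im Φ i` has zero derivative near `0` (`Emb.map_nhds`, `HasFDerivWithinAt.comp`), so it
is constant on a small ball. (3) follows from (2) and `map_nhds`.
(1) `f = Im (Φ i (Function.invFunOn X (ball 0 r) ·))`; at `y = X w` rewrite `𝓝[S] y = map X (𝓝 w)`
in the little-o definition, and use `‖w' - w‖ = O(‖X w' - X w‖)` (`norm_DX_sq`, `jac_pos`,
`HasFDerivAt.isBigO_sub_rev` or by hand).
(4) `rf j` maps `𝓝[S] x` to itself, `⟪cross (rf j n) (ee i), rf j v⟫ = -⟪cross n (ee i), v⟫` for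
`i ≠ j`, so `y ↦ -f (rf j y)` satisfies `Cj` at `x`; apply (3). -/
theorem cj_of (hO : S_OR) : S_CJ := fun _ =>
  ⟨fun _ hx i => CJ.one hO hx i, fun _ hf ho _ _ h => CJ.two hf ho h,
    fun _ hx _ _ _ h h' => CJ.three hO hx h h',
    fun _ hS hN _ hx h0 _ _ hij h => CJ.four hO hS hN hx h0 hij h⟩

end MW.S6
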