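import Pool.Agent.P.MP_064970_gt.S6.Bas

/-!
# Meeks–Wolf, section 6: the half-plane data
-/

open MeasureTheory Set Filter Topology Metric Complex InnerProductSpace
open scoped RealInnerProductSpace ENNReal ComplexConjugate Real

noncomputable section

namespace MW.S6

namespace DATA

variable {M : Surf} {G : ℂ → E}

/-- The local holomorphic representation of the horizontal coordinates. -/
theorem loc (hO : S_OR) (hC : S_CJ) (hS : Sym M) (hG : Par M G) {z : ℂ} (hz : 0 ≤ z.im)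
    (hp : 0 < G z 0 + G z 1) : ∃ (c : Chart) (ψ : ℂ → ℂ), AnalyticAt ℂ ψ z ∧ ψ z = 0 ∧
      deriv (c.Φ 2) 0 ≠ 0 ∧ HasDerivAt ψ (deriv (c.Φ 2) 0)⁻¹ z ∧
      ∀ i j : Fin 3, i ≠ j → 2 ≠ j → (∀ x ∈ M.S, rf j x ∈ M.S) →
        (∀ x ∈ M.S, M.N (rf j x) = rf j (M.N x)) →
        (∀ y, y ∈ Q M ↔ y ∈ M.S ∧ 0 ≤ y i ∧ 0 ≤ y j) → (G z j = 0 → z.im = 0) → 0 < G z i →
        (fun w => G w i) =ᶠ[𝓝 z] fun w => (c.Φ i (ψ w)).re := by
  have hxQ := hG.mem z
  obtain ⟨c, hc0, hf, ho⟩ := hO M (G z) hxQ.1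
  obtain ⟨f, f1, f2, f3⟩ := hG.rep z hz
  obtain ⟨-, c2, -, c4⟩ := hC M
  have h0 : (0 : ℂ) ∈ ball (0 : ℂ) c.r := mem_ball_self c.r_pos
  have a1 := c2 c hf ho 2 f (hc0 ▸ f1)
  set k : ℝ := f (c.X 0) - (c.Φ 2 0).im with hk
  have hF : AnalyticAt ℂ (fun w => c.Φ 2 w + k * I) 0 :=
    (chart_analyticAt c 2 h0).add analyticAt_const
  have hd : deriv (fun w => c.Φ 2 w + k * I) 0 = deriv (c.Φ 2) 0 := deriv_add_const _
  have hne : deriv (c.Φ 2) 0 ≠ 0 := by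
    refine ho.two_ne_zero hf h0 fun h => ?_
    have h1 := hS.sub_pos hxQ hp
    rw [hc0] at h
    have h2 := congrArg Complex.re h
    have h3 := congrArg Complex.im h
    simp only [pr_re, pr_im, zero_re, zero_im] at h2 h3
    rw [h2, h3] at h1
    simp at h1
  have hz0 : c.Φ 2 0 + k * I = z := by
    apply Complex.ext
    · have h1 : (c.Φ 2 0).re = z.re := by rw [← chart_X_apply, hc0, hG.two]
      simpa using h1
    · rw [hk, hc0, f2]
      simp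
  obtain ⟨ψ, p1, p2, p3, -, p5⟩ := exists_localInv hF (hd ▸ hne)
  simp only [hz0] at p1 p2 p3 p5
  rw [hd] at p5
  refine ⟨c, ψ, p1, p2, hne, p5, fun i j hij h2j hs hn hQ hbd hi => ?_⟩
  have t1 : Tendsto ψ (𝓝 z) (𝓝 0) := p2 ▸ p1.continuousAt.tendsto
  have t2 : Tendsto (fun w => c.X (ψ w)) (𝓝 z) (𝓝[M.S] (G z)) := by
    have h1 : Tendsto c.X (𝓝 0) (𝓝[M.S] (G z)) := by
      rw [← hc0]
      exact (hf.emb.map_nhds h0).le
    exact h1.comp t1
  have t3 : Tendsto (fun w => c.X (ψ w)) (𝓝 z) (𝓝 (G z)) := t2.mono_right nhdsWithin_le_nhds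
  have e1 : ∀ᶠ w in 𝓝 z, c.X (ψ w) 2 = w.re ∧ f (c.X (ψ w)) = w.im := by
    filter_upwards [p3, t1.eventually a1] with w h1 h2
    have h3 := congrArg Complex.re h1
    have h4 := congrArg Complex.im h1
    simp only [add_re, mul_re, ofReal_re, I_re, mul_zero, ofReal_im, I_im, mul_one, sub_self,
      add_zero, add_im, mul_im] at h3 h4
    exact ⟨h3, h2.trans h4⟩
  have e2 : ∀ᶠ w in 𝓝 z, c.X (ψ w) ∈ M.S := t2.eventually self_mem_nhdsWithin
  have e3 : ∀ᶠ w in 𝓝 z, 0 < c.X (ψ w) i :=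
    t3.eventually ((continuous_coord i).continuousAt.eventually (lt_mem_nhds hi))
  rw [eventually_nhdsWithin_iff] at f3
  have e4 : ∀ᶠ w in 𝓝 z, 0 ≤ c.X (ψ w) j → G w = c.X (ψ w) := by
    filter_upwards [e1, e2, e3, t3.eventually f3] with w h1 h2 h3 h4 h5
    have h6 := (h4 ((hQ _).2 ⟨h2, h3.le, h5⟩)).2
    rwa [h1.1, h1.2, re_add_im] at h6
  rcases ((hQ _).1 hxQ).2.2.eq_or_lt with hj | hj
  · have t4 : Tendsto (fun w => rf j (c.X (ψ w))) (𝓝 z) (𝓝 (G z)) := by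
      have h1 := ((continuous_rf j).tendsto (G z)).comp t3
      rwa [rf_of_zero hj.symm] at h1
    have a4 := c4 j hs hn (G z) hxQ.1 hj.symm 2 f h2j f1
    rw [f2, hbd hj.symm, mul_zero] at a4
    filter_upwards [e1, e2, e3, e4, t4.eventually f3, t2.eventually a4] with w h1 h2 h3 h4 h5 h6
    rcases le_total 0 (c.X (ψ w) j) with h7 | h7
    · rw [h4 h7, chart_X_apply]
    · have h8 := (h5 ((hQ _).2 ⟨hs _ h2, by rw [rf_ne hij]; exact h3.le,
        by rw [rf_self]; linarith⟩)).2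
      have h9 : ((rf j (c.X (ψ w)) 2 : ℝ) : ℂ) + (f (rf j (c.X (ψ w))) : ℝ) * I = conj w := by
        rw [rf_ne h2j, h1.1, eq_neg_of_add_eq_zero_left h6, h1.2]
        apply Complex.ext <;> simp
      rw [h9, hG.even] at h8
      rw [h8, rf_ne hij, chart_X_apply]
  · filter_upwards [e4, t3.eventually
      ((continuous_coord j).continuousAt.eventually (lt_mem_nhds hj))] with w h1 h2
    rw [h1 h2.le, chart_X_apply]

theorem loc' (hO : S_OR) (hC : S_CJ) (hS : Sym M) (hG : Par M G) {z : ℂ} (hz : 0 ≤ z.im)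
    (hp : 0 < G z 0 + G z 1) : ∃ (c : Chart) (ψ : ℂ → ℂ), AnalyticAt ℂ ψ z ∧ ψ z = 0 ∧
      deriv (c.Φ 2) 0 ≠ 0 ∧ HasDerivAt ψ (deriv (c.Φ 2) 0)⁻¹ z ∧
      (0 < G z 0 → (fun w => G w 0) =ᶠ[𝓝 z] fun w => (c.Φ 0 (ψ w)).re) ∧
      (0 < G z 1 → (fun w => G w 1) =ᶠ[𝓝 z] fun w => (c.Φ 1 (ψ w)).re) := by
  obtain ⟨c, ψ, p1, p2, p3, p4, p5⟩ := loc hO hC hS hG hz hp
  refine ⟨c, ψ, p1, p2, p3, p4, ?_, ?_⟩
  · exact p5 0 1 (by decide) (by decide) hS.b1.symS hS.b1.symN (fun _ => Iff.rfl)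
      fun h => (hG.bd z).1 (by rw [h, mul_zero])
  · exact p5 1 0 (by decide) (by decide) hS.symS0 hS.symN0
      (fun _ => and_congr_right fun _ => and_comm) fun h => (hG.bd z).1 (by rw [h, zero_mul])

theorem harm_of (c : Chart) (i : Fin 3) {ψ : ℂ → ℂ} {z : ℂ} (h1 : AnalyticAt ℂ ψ z) (h2 : ψ z = 0)
    {u : ℂ → ℝ} (h : u =ᶠ[𝓝 z] fun w => (c.Φ i (ψ w)).re) : HarmonicAt u z := by
  have h3 : AnalyticAt ℂ (c.Φ i) (ψ z) := h2 ▸ chart_analyticAt c i (mem_ball_self c.r_pos)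
  exact (harmonicAt_congr_nhds h).2 (h3.comp h1).harmonicAt_re

theorem D_of (c : Chart) (i : Fin 3) {ψ : ℂ → ℂ} {z d : ℂ} (h1 : HasDerivAt ψ d z) (h2 : ψ z = 0)
    {u : ℂ → ℝ} (h : u =ᶠ[𝓝 z] fun w => (c.Φ i (ψ w)).re) :
    AN.D u z = deriv (c.Φ i) 0 * d := by
  have h3 : HasDerivAt (c.Φ i) (deriv (c.Φ i) 0) (ψ z) :=
    h2 ▸ (chart_analyticAt c i (mem_ball_self c.r_pos)).differentiableAt.hasDerivAt
  exact AN.D_of_re (h3.comp z h1) h

theorem harm_even {u : ℂ → ℝ} (he : ∀ z, u (conj z) = u z)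
    (h : ∀ z : ℂ, 0 ≤ z.im → 0 < u z → HarmonicAt u z) (z : ℂ) (hz : 0 < u z) :
    HarmonicAt u z := by
  rcases le_total 0 z.im with h0 | h0
  · exact h z h0 hz
  · have h1 := AN.harm_conj (h (conj z) (by simpa using h0) (by rwa [he]))
    simpa only [he] using h1

theorem pos (hG : Par M G) {z : ℂ} (hz : 0 < z.im) : 0 < G z 0 ∧ 0 < G z 1 := by
  have h := mt (hG.bd z).1 hz.ne'
  exact ⟨(hG.mem z).2.1.lt_of_ne' (left_ne_zero_of_mul h),
    (hG.mem z).2.2.lt_of_ne' (right_ne_zero_of_mul h)⟩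

/-- A point of the surface with vertical normal is isolated on its vertical line. -/
theorem isolated {x : E} (hx : x ∈ M.S) (h : M.N x 2 ≠ 0) :
    ∀ᶠ s in 𝓝[>] (0 : ℝ), x + s • ee 2 ∉ M.S ∧ x - s • ee 2 ∉ M.S := by
  rcases h.lt_or_gt with h1 | h1
  · filter_upwards [M.side x hx (-ee 2) (by rw [inner_neg_left, ee_inner]; linarith)] with s hs
    rw [smul_neg, ← sub_eq_add_neg, sub_neg_eq_add] at hs
    exact ⟨disjoint_left.1 M.disjS hs.2, disjoint_left.1 M.disjS' hs.1⟩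
  · filter_upwards [M.side x hx (ee 2) (by rw [ee_inner]; exact h1)] with s hs
    exact ⟨disjoint_left.1 M.disjS' hs.1, disjoint_left.1 M.disjS hs.2⟩

theorem fin (hS : Sym M) (hG : Par M G) (a b : ℝ) :
    {x : ℝ | x ∈ Icc a b ∧ G x 0 = 0 ∧ G x 1 = 0}.Finite := by
  have hc : ∀ i, Continuous fun t : ℝ => G t i := fun i =>
    (continuous_coord i).comp (hG.cont.comp continuous_ofReal)
  refine (isCompact_Icc.inter_right ((isClosed_eq (hc 0) continuous_const).inter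
    (isClosed_eq (hc 1) continuous_const))).finite (isDiscrete_iff_nhdsNE.2 fun t ht => ?_)
  have hx := (hG.mem t).1
  have h2 : M.N (G t) 2 ≠ 0 := fun h => by
    have h1 := unit_sq (M.N_unit _ hx)
    rw [hS.zero0 hx ht.2.1, hS.b1.zero _ hx ht.2.2, h] at h1
    norm_num at h1
  obtain ⟨δ, hδ, h3⟩ := mem_nhdsGT_iff_exists_Ioo_subset.1 (isolated hx h2)
  rw [inf_principal_eq_bot]
  have hδ' : (0 : ℝ) < δ := hδ
  filter_upwards [mem_nhdsWithin_of_mem_nhds (ball_mem_nhds t hδ'), self_mem_nhdsWithin]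
    with s h4 h5 h6
  have h7 : G s = G t + (s - t) • ee 2 := by
    have g0 : G s 0 = G t 0 := h6.2.1.trans ht.2.1.symm
    have g1 : G s 1 = G t 1 := h6.2.2.trans ht.2.2.symm
    ext i
    fin_cases i
    · simpa [ee_apply] using g0
    · simpa [ee_apply] using g1
    · simp [hG.two]
  have h8 := (hG.mem s).1
  rw [mem_ball, Real.dist_eq, abs_lt] at h4
  rcases lt_or_gt_of_ne (show s ≠ t from h5) with h9 | h9
  · refine (h3 (show t - s ∈ Ioo 0 δ from ⟨by linarith, by linarith⟩)).2 ?_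
    rwa [← neg_sub s t, neg_smul, sub_neg_eq_add, ← h7]
  · exact (h3 (show s - t ∈ Ioo 0 δ from ⟨by linarith, by linarith⟩)).1 (h7 ▸ h8)

end DATA

/-- Main lemma: let `0 ≤ z.im`, `x = G z`, `0 < x 0 + x 1`; take an oriented chart `c` at `x`, `f` from
`Par.rep`, `F w = Φ 2 w + k I` with `f (X w) = (F w).im` near `0` (part 2 of `S_CJ`), `F 0 = z`,
`deriv F 0 ≠ 0` (`Ori.two_ne_zero`, `Sym.sub_pos`), `ψ` from `exists_localInv`. For `w` near `z`
put `x' = X (ψ w) ∈ S`, so `x' 2 + f x' * I = w`. If `x' ∈ Q` then `G w = x'`. If `0 < x 0` and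
`x' 1 < 0`, then `x 1 = 0`, `z.im = 0`, `f (rf 1 x') = -f x'` (part 4), `G (conj w) = rf 1 x'`, so
again `G w 0 = x' 0`. Hence `G · 0 = Re (Φ 0 ∘ ψ)` near `z` (`AnalyticAt.harmonicAt_re`,
`AN.D_of_re`); the lower half-plane by `AN.harm_conj`. `eq`: `chart_null`.
`fin`: at a point `(0, 0, t) ∈ S` the normal is `± e3`, so by `M.side` the point is isolated in
the closed set `{t | pt 0 t ∈ S}`; compact and discrete (`IsCompact.finite`). -/
theorem data_of (hO : S_OR) (hC : S_CJ) : S_DATA := by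
  intro M G hS hG
  refine ⟨⟨(continuous_coord 0).comp hG.cont, fun z => by rw [hG.even], fun z => (hG.mem z).2.1,
    DATA.harm_even (fun z => by rw [hG.even]) fun z hz h => ?_, fun z hz => (DATA.pos hG hz).1⟩,
    ⟨(continuous_coord 1).comp hG.cont, fun z => by rw [hG.even], fun z => (hG.mem z).2.2,
    DATA.harm_even (fun z => by rw [hG.even]) fun z hz h => ?_, fun z hz => (DATA.pos hG hz).2⟩,
    fun x => (hG.bd x).2 (ofReal_im x), fun z hz => ?_, DATA.fin hS hG⟩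
  · obtain ⟨c, ψ, p1, p2, -, -, p5, -⟩ :=
      DATA.loc' hO hC hS hG hz (add_pos_of_pos_of_nonneg h (hG.mem z).2.2)
    exact DATA.harm_of c 0 p1 p2 (p5 h)
  · obtain ⟨c, ψ, p1, p2, -, -, -, p6⟩ :=
      DATA.loc' hO hC hS hG hz (add_pos_of_nonneg_of_pos (hG.mem z).2.1 h)
    exact DATA.harm_of c 1 p1 p2 (p6 h)
  · obtain ⟨h0, h1⟩ := DATA.pos hG hz
    obtain ⟨c, ψ, -, p2, p3, p4, p5, p6⟩ := DATA.loc' hO hC hS hG hz.le (add_pos h0 h1)
    rw [DATA.D_of c 0 p4 p2 (p5 h0), DATA.D_of c 1 p4 p2 (p6 h1)]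
    have h2 := chart_null c (mem_ball_self c.r_pos)
    field_simp
    linear_combination h2

end MW.S6
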