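import Pool.Agent.P.MP_064970_gt.S6.Bas

/-!
# Meeks–Wolf, section 6: identification of the Scherk surface
-/

open MeasureTheory Set Filter Topology Metric Complex InnerProductSpace
open scoped RealInnerProductSpace ENNReal ComplexConjugate Real

noncomputable section

namespace MW.S6

namespace FIN

theorem norm_le (x : E) : ‖x‖ ≤ |x 0| + |x 1| + |x 2| := by
  refine (abs_le_of_sq_le_sq' ?_ (by positivity)).2
  rw [norm_sq_eq, norm_pr_sq, ← sq_abs (x 0), ← sq_abs (x 1), ← sq_abs (x 2)]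
  have h0 := abs_nonneg (x 0)
  have h1 := abs_nonneg (x 1)
  have h2 := abs_nonneg (x 2)
  nlinarith [mul_nonneg h0 h1, mul_nonneg h0 h2, mul_nonneg h1 h2]

theorem cone {M : Surf} {i : Fin 3} (h : Bg M i) :
    ∃ L R : ℝ, 0 < L ∧ ∀ x ∈ M.S, |x i| ≤ R + L * ‖x - x i • ee i‖ := by
  obtain ⟨L, R, hL, h1⟩ := h.cone
  refine ⟨L, |R|, hL, fun x hx => ?_⟩
  have h2 : 0 ≤ L * ‖x - x i • ee i‖ := by positivity
  by_cases h3 : R ≤ ‖x‖
  · have h4 : |x i| ≤ L * ‖x - x i • ee i‖ :=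
      not_lt.1 fun h5 => Set.disjoint_left.1 M.disjS' (h1 x h3 h5) hx
    linarith [abs_nonneg R]
  · have h4 : |x i| ≤ ‖x‖ := by simpa using PiLp.norm_apply_le x i
    linarith [le_abs_self R, not_le.1 h3]

theorem cone0 {M : Surf} (h : Sym M) :
    ∃ L R : ℝ, 0 < L ∧ ∀ x ∈ Q M, x 0 ≤ R + L * (x 1 + |x 2|) := by
  obtain ⟨L, R, hL, h1⟩ := cone h.b0
  refine ⟨L, R, hL, fun x hx => ?_⟩
  have h2 := norm_le (x - x 0 • ee 0)
  have e0 : (x - x 0 • ee 0) 0 = 0 := by simp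
  have e1 : (x - x 0 • ee 0) 1 = x 1 := by simp [ee_apply]
  have e2 : (x - x 0 • ee 0) 2 = x 2 := by simp [ee_apply]
  rw [e0, e1, e2, abs_zero, zero_add, abs_of_nonneg hx.2.2] at h2
  have h3 := h1 x hx.1
  have h4 := mul_le_mul_of_nonneg_left h2 hL.le
  linarith [le_abs_self (x 0)]

theorem cone1 {M : Surf} (h : Sym M) :
    ∃ L R : ℝ, 0 < L ∧ ∀ x ∈ Q M, x 1 ≤ R + L * (x 0 + |x 2|) := by
  obtain ⟨L, R, hL, h1⟩ := cone h.b1
  refine ⟨L, R, hL, fun x hx => ?_⟩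
  have h2 := norm_le (x - x 1 • ee 1)
  have e0 : (x - x 1 • ee 1) 0 = x 0 := by simp [ee_apply]
  have e1 : (x - x 1 • ee 1) 1 = 0 := by simp
  have e2 : (x - x 1 • ee 1) 2 = x 2 := by simp [ee_apply]
  rw [e0, e1, e2, abs_zero, add_zero, abs_of_nonneg hx.2.1] at h2
  have h3 := h1 x hx.1
  have h4 := mul_le_mul_of_nonneg_left h2 hL.le
  linarith [le_abs_self (x 1)]

theorem unbdd {M : Surf} {σ₀ : ℝ → ℝ} (h : Sl0 M σ₀) (t B : ℝ)
    (hB : ∀ x ∈ Q M, x 2 = t → x 0 + x 1 ≤ B) : False := by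
  obtain ⟨x, hx, h1, h2⟩ := h.ex t (max (σ₀ t) (B + 1)) (le_max_left _ _)
  have h3 := hB x hx h1
  have h4 := le_max_right (σ₀ t) (B + 1)
  linarith

theorem cat_bound {c L : ℝ} (R : ℝ) (hc : 0 < c) (hL : 0 < L) : ∃ B : ℝ, ∀ a b : ℝ, 0 ≤ a → 0 ≤ b →
    a ^ 2 = c ^ 2 * Real.cosh (b / c) ^ 2 → a ≤ R + L * b → a + b ≤ B := by
  refine ⟨R + (L + 1) * (4 * c * L + 4 * c * |R| + 1), fun a b ha hb h1 h2 => ?_⟩
  have h3 : a = c * Real.cosh (b / c) :=
    (sq_eq_sq₀ ha (mul_pos hc (Real.cosh_pos _)).le).1 (by rw [h1]; ring)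
  have h4 := Real.quadratic_le_exp_of_nonneg (div_nonneg hb hc.le)
  have h5 : (b / c) ^ 2 / 4 ≤ Real.cosh (b / c) := by
    rw [Real.cosh_eq]
    linarith [Real.exp_pos (-(b / c)), div_nonneg hb hc.le]
  have h6 : b ^ 2 ≤ 4 * c * a := by
    have h7 := mul_le_mul_of_nonneg_left h5 (show 0 ≤ 4 * c * c by positivity)
    have e : 4 * c * c * ((b / c) ^ 2 / 4) = b ^ 2 := by field_simp
    rw [h3]
    linarith
  have h7 : b ≤ 4 * c * L + 4 * c * |R| + 1 := by
    by_contra h8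
    have h9 := not_le.1 h8
    have p1 : 0 ≤ 4 * c * L := by positivity
    have p2 : 0 ≤ 4 * c * |R| := by positivity
    have p3 : 1 ≤ b := by linarith
    have p4 := mul_le_mul_of_nonneg_left (h2.trans (add_le_add_left (le_abs_self R) _))
      (show 0 ≤ 4 * c by positivity)
    have p5 := mul_lt_mul_of_pos_left h9 (show 0 < b by linarith)
    have p6 := mul_le_mul_of_nonneg_right p3 p2
    nlinarith
  have h8 := mul_le_mul_of_nonneg_left h7 (show 0 ≤ L + 1 by linarith)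
  linarith

theorem cosh_le {k a a' : ℝ} (hk : 0 < k) (ha : 0 ≤ a) (h : a ≤ a') :
    Real.cosh (a / k) ≤ Real.cosh (a' / k) := by
  rw [Real.cosh_le_cosh, abs_of_nonneg (div_nonneg ha hk.le),
    abs_of_nonneg (div_nonneg (ha.trans h) hk.le)]
  exact div_le_div_of_nonneg_right h hk.le

theorem cosh_lt {k a a' : ℝ} (hk : 0 < k) (ha : 0 ≤ a) (h : a < a') :
    Real.cosh (a / k) < Real.cosh (a' / k) := by
  rw [Real.cosh_lt_cosh, abs_of_nonneg (div_nonneg ha hk.le),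
    abs_of_nonneg (div_nonneg (ha.trans h.le) hk.le)]
  exact div_lt_div_of_pos_right h hk

/-- The left side of the equation of the Scherk surface. -/
def ph (p q k m a b : ℝ) : ℝ := p * Real.cosh (a / k) - q * Real.cosh (b / m)

theorem ph_lt {p q k m a b a' b' : ℝ} (hp : 0 < p) (hq : 0 < q) (hk : 0 < k) (hm : 0 < m)
    (ha : 0 ≤ a) (hb : 0 ≤ b') (h1 : a ≤ a') (h2 : b' ≤ b) (h : a < a' ∨ b' < b) :
    ph p q k m a b < ph p q k m a' b' := by
  have h3 := mul_le_mul_of_nonneg_left (cosh_le hk ha h1) hp.le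
  have h4 := mul_le_mul_of_nonneg_left (cosh_le hm hb h2) hq.le
  unfold ph
  rcases h with h | h
  · linarith [mul_lt_mul_of_pos_left (cosh_lt hk ha h) hp]
  · linarith [mul_lt_mul_of_pos_left (cosh_lt hm hb h) hq]

theorem reduce {P : E → Prop} (h0 : ∀ x, P (rf 0 x) → P x) (h1 : ∀ x, P (rf 1 x) → P x)
    (h : ∀ x, 0 ≤ x 0 → 0 ≤ x 1 → P x) (x : E) : P x := by
  have h2 : ∀ y : E, 0 ≤ y 0 → P y := fun y hy => by
    rcases le_total 0 (y 1) with h3 | h3
    · exact h y hy h3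
    · refine h1 y (h _ ?_ ?_)
      · rwa [rf_ne (by decide)]
      · rw [rf_self]
        linarith
  rcases le_total 0 (x 0) with h3 | h3
  · exact h2 x h3
  · refine h0 x (h2 _ ?_)
    rw [rf_self]
    linarith

theorem mem_iff {M : Surf} {σ₀ : ℝ → ℝ} (hs : Sym M) (h : Sl0 M σ₀) {p q k m : ℝ} {g : ℝ → ℝ}
    (hp : 0 < p) (hq : 0 < q) (hk : 0 < k) (hm : 0 < m)
    (he : ∀ x ∈ Q M, ph p q k m (x 0) (x 1) = g (x 2)) (x : E) :
    x ∈ M.S ↔ ph p q k m (x 0) (x 1) = g (x 2) := by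
  refine reduce (P := fun x => x ∈ M.S ↔ ph p q k m (x 0) (x 1) = g (x 2)) ?_ ?_ ?_ x
  · intro y hy
    have h1 : rf 0 y ∈ M.S ↔ y ∈ M.S := hs.b0.rf_mem y
    rwa [h1, rf_self, rf_ne (by decide), rf_ne (by decide), ph, neg_div, Real.cosh_neg] at hy
  · intro y hy
    rwa [hs.b1.rf_mem y, rf_self, rf_ne (by decide), rf_ne (by decide), ph, neg_div,
      Real.cosh_neg] at hy
  · intro y h0 h1
    refine ⟨fun hy => he y ⟨hy, h0, h1⟩, fun hy => ?_⟩
    rcases le_or_gt (σ₀ (y 2)) (y 0 + y 1) with h2 | h2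
    · obtain ⟨z, hz, h3, h4⟩ := h.ex (y 2) _ h2
      have h5 := he z hz
      rw [h3, ← hy] at h5
      have h6 : z 0 = y 0 := by
        rcases lt_trichotomy (z 0) (y 0) with h7 | h7 | h7
        · exact absurd h5 (ph_lt hp hq hk hm hz.2.1 h1 h7.le (by linarith) (Or.inl h7)).ne
        · exact h7
        · exact absurd h5 (ph_lt hp hq hk hm h0 hz.2.2 h7.le (by linarith) (Or.inl h7)).ne'
      have h7 : z = y := by
        ext i
        fin_cases i
        · exact h6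
        · change z 1 = y 1
          linarith
        · exact h3
      exact h7 ▸ hz.1
    · obtain ⟨z, hz, h3, h4⟩ := h.ex (y 2) _ le_rfl
      have h5 := he z hz
      rw [h3, ← hy] at h5
      rcases mul_eq_zero.1 ((h.bd z hz).2 (by rw [h4, h3])) with h6 | h6
      · exact absurd h5 (ph_lt hp hq hk hm hz.2.1 h1 (by linarith) (by linarith)
          (Or.inr (by linarith))).ne
      · exact absurd h5 (ph_lt hp hq hk hm h0 hz.2.2 (by linarith) (by linarith)
          (Or.inl (by linarith))).ne'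

end FIN

/-- Every `x ∈ Q` is `G z` with `z.re = x 2`, so it satisfies the equation. Constant and catenoid cases:
take points of `Q` from `Sl0.ex` with a fixed height and a large sum; they lie in the cone of
`b0` or `b1` (`s² / 2 ≤ cosh s`), hence in `W` or `W'`, not in `S`. Scherk case: `A = refl`,
`c = l`, `b = pt 0 x₀`. `S ⊆` model by the two reflections (`cosh` is even). Conversely reduce to
`a, b ≥ 0`; `φ (a, b) = cos²θ cosh (a/..) - sin²θ cosh (b/..)` is strictly increasing in `a ≥ 0`,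
strictly decreasing in `b ≥ 0`. If `σ₀ t ≤ a + b` compare with the point of `Q` on the same line
`a + b = σ`; otherwise compare with the boundary point of sum `σ₀ t` (one of its coordinates
vanishes) and get a contradiction. -/
theorem fin : S_FIN := by
  intro M σ₀ G hs hl hG h
  obtain ⟨L0, R0, hL0, c0⟩ := FIN.cone0 hs
  obtain ⟨L1, R1, hL1, c1⟩ := FIN.cone1 hs
  rcases h with ⟨c, h⟩ | ⟨c, h⟩ | ⟨x₀, c, hc, h⟩ | ⟨x₀, c, hc, h⟩ | ⟨x₀, l, θ, hl0, h0, h1, h⟩
  · refine (FIN.unbdd hl 0 (c + (R1 + L1 * c)) fun x hx h2 => ?_).elim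
    have h3 := c1 x hx
    obtain ⟨z, rfl⟩ := hG.surj x hx
    rw [h2, abs_zero, add_zero, h z] at h3
    linarith [h z]
  · refine (FIN.unbdd hl 0 (c + (R0 + L0 * c)) fun x hx h2 => ?_).elim
    have h3 := c0 x hx
    obtain ⟨z, rfl⟩ := hG.surj x hx
    rw [h2, abs_zero, add_zero, h z] at h3
    linarith [h z]
  · obtain ⟨B, hB⟩ := FIN.cat_bound (R0 + L0 * |x₀|) hc hL0
    refine (FIN.unbdd hl x₀ B fun x hx h2 => ?_).elim
    have h3 := c0 x hx
    obtain ⟨z, rfl⟩ := hG.surj x hx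
    have h4 := h z
    rw [← hG.two z, h2, sub_self] at h4
    rw [h2] at h3
    exact hB _ _ hx.2.1 hx.2.2 (by linarith) (by linarith)
  · obtain ⟨B, hB⟩ := FIN.cat_bound (R1 + L1 * |x₀|) hc hL1
    refine (FIN.unbdd hl x₀ B fun x hx h2 => ?_).elim
    have h3 := c1 x hx
    obtain ⟨z, rfl⟩ := hG.surj x hx
    have h4 := h z
    rw [← hG.two z, h2, sub_self] at h4
    rw [h2] at h3
    rw [add_comm]
    exact hB _ _ hx.2.2 hx.2.1 (by linarith) (by linarith)
  · have hcos : 0 < Real.cos θ := Real.cos_pos_of_mem_Ioo ⟨by linarith, h1⟩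
    have hsin : 0 < Real.sin θ := Real.sin_pos_of_pos_of_lt_pi h0 (by linarith)
    have key := FIN.mem_iff hs hl (g := fun t => Real.cos ((t - x₀) / l)) (pow_pos hcos 2)
      (pow_pos hsin 2) (mul_pos hl0 hcos) (mul_pos hl0 hsin) fun x hx => by
        obtain ⟨z, rfl⟩ := hG.surj x hx
        rw [hG.two z]
        exact h z
    have e0 : ∀ y : E, simMap (LinearIsometryEquiv.refl ℝ E) l (pt 0 x₀) y 0 = l * y 0 :=
      fun y => by simp [simMap]
    have e1 : ∀ y : E, simMap (LinearIsometryEquiv.refl ℝ E) l (pt 0 x₀) y 1 = l * y 1 :=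
      fun y => by simp [simMap]
    have e2 : ∀ y : E, simMap (LinearIsometryEquiv.refl ℝ E) l (pt 0 x₀) y 2 = l * y 2 + x₀ :=
      fun y => by simp [simMap]
    have e3 : ∀ y : E, simMap (LinearIsometryEquiv.refl ℝ E) l (pt 0 x₀) y ∈ M.S ↔
        Real.cos θ ^ 2 * Real.cosh (y 0 / Real.cos θ) -
          Real.sin θ ^ 2 * Real.cosh (y 1 / Real.sin θ) = Real.cos (y 2) := fun y => by
      rw [key, e0, e1, e2, FIN.ph, mul_div_mul_left _ _ hl0.ne', mul_div_mul_left _ _ hl0.ne',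
        add_sub_cancel_right, mul_div_cancel_left₀ _ hl0.ne']
    refine ⟨θ, h0, h1, LinearIsometryEquiv.refl ℝ E, l, pt 0 x₀, hl0, Set.ext fun x => ?_⟩
    constructor
    · intro hx
      have e4 : simMap (LinearIsometryEquiv.refl ℝ E) l (pt 0 x₀) (l⁻¹ • (x - pt 0 x₀)) = x := by
        rw [simMap, LinearIsometryEquiv.coe_refl, id, smul_inv_smul₀ hl0.ne', sub_add_cancel]
      exact ⟨_, (e3 _).1 (by rwa [e4]), e4⟩
    · rintro ⟨y, hy, rfl⟩
      exact (e3 y).2 hy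

end MW.S6
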