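import Pool.Agent.P.MP_064970_gt.S6.Bas

/-!
# Meeks–Wolf, section 6: the covering estimate
-/

open MeasureTheory Set Filter Topology Metric Complex InnerProductSpace
open scoped RealInnerProductSpace ENNReal ComplexConjugate Real

noncomputable section

namespace MW.S6.G1

theorem bounds {y v : ℂ} (h : ‖v - y‖ ≤ 1 / 10 * ‖y‖) :
    19 / 10 * ‖y‖ ≤ ‖y + v‖ ∧ ‖y + v‖ ≤ 21 / 10 * ‖y‖ := by
  have e : y + v = (2 : ℝ) • y + (v - y) := by
    rw [two_smul]
    ring
  have h2 : ‖(2 : ℝ) • y‖ = 2 * ‖y‖ := by rw [norm_smul, Real.norm_ofNat]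
  have h3 := norm_add_le ((2 : ℝ) • y) (v - y)
  have h4 := norm_sub_le ((2 : ℝ) • y + (v - y)) (v - y)
  rw [add_sub_cancel_right] at h4
  rw [e]
  constructor <;> linarith

theorem measurable_dens {U : ℂ → ℝ} {h : ℂ → ℂ} (hU : Continuous U) (hm : Measurable h) :
    Measurable fun z => PL.Dil U h z ^ 2 / ‖z‖ ^ 2 :=
  (((Complex.measurable_re.comp (hm.mul measurable_id)).sub hU.measurable).pow_const 2).div
    (measurable_norm.pow_const 2)

theorem integrableOn_dens {U : ℂ → ℝ} {h : ℂ → ℂ} (hU : Continuous U) (hm : Measurable h)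
    (hle : ∀ z, ‖h z‖ ≤ 1) {s : Set ℂ} (hs : MeasurableSet s) {a b : ℝ} (ha : 0 < a)
    (hab : ∀ z ∈ s, a ≤ ‖z‖ ∧ ‖z‖ ≤ b) :
    IntegrableOn (fun z => PL.Dil U h z ^ 2 / ‖z‖ ^ 2) s := by
  have hsub : s ⊆ closedBall 0 b := fun z hz => mem_closedBall_zero_iff.2 (hab z hz).2
  obtain ⟨B, hB⟩ := (isCompact_closedBall (0 : ℂ) b).exists_bound_of_continuousOn hU.continuousOn
  refine Measure.integrableOn_of_bounded (M := (b + B) ^ 2 / a ^ 2)
    ((measure_mono hsub).trans_lt measure_closedBall_lt_top).ne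
    (measurable_dens hU hm).aestronglyMeasurable ?_
  filter_upwards [ae_restrict_mem hs] with z hz
  have h1 : |(h z * z).re| ≤ b := by
    refine (Complex.abs_re_le_norm _).trans ?_
    rw [norm_mul]
    exact (mul_le_of_le_one_left (norm_nonneg _) (hle z)).trans (hab z hz).2
  have h2 : |U z| ≤ B := hB z (hsub hz)
  have h3 : |PL.Dil U h z| ≤ b + B := (abs_sub _ _).trans (add_le_add h1 h2)
  rw [Real.norm_eq_abs, abs_of_nonneg (by positivity), ← sq_abs (PL.Dil U h z)]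
  have h4 := (hab z hz).1
  gcongr

end MW.S6.G1

namespace MW.S6

/-- `ξ y = y + V y`. `S_TRANS` with `A₀ = {y | r ≤ ‖ξ y‖ ≤ 2 r}` (`η ⁻¹' A₀` is the annulus). `S_VIT` for
`A = {lift u y ∉ S} ∩ A₀`, `T = {y | r / 2 ≤ ‖ξ y‖ ≤ 4 r}`,
`ν = map η ((volume.restrict Om).withDensity (ofReal (Dil² / ‖z‖²)))`, radii from `S_CELL` with
`ε = 1/10`, and `S_GO` with `ε = 1/10` (`1.9 ‖y‖ ≤ ‖ξ y‖ ≤ 2.1 ‖y‖` for large `y`; `‖ξ y‖` large
forces `‖y‖` large because `ξ` is bounded on compact sets). The integrand is measurable and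
bounded on the annulus, so `ofReal_integral_eq_lintegral_ofReal` applies. -/
theorem g1_of (hV : S_VIT) (hC : S_CELL) (hT : S_TRANS) (hG : S_GO) (hh' : S_HH) : S_G1 := by
  intro M u V η h0 h
  obtain ⟨c, hc, hc'⟩ := hC M u V η h0 h
  obtain ⟨R₁, hR₁⟩ := hc' (1 / 10) (by norm_num)
  obtain ⟨R₂, hR₂⟩ := hG M u V η h0 h (1 / 10) (by norm_num)
  obtain ⟨hm, hle, -⟩ := hh' M u V η h
  obtain ⟨B, hB⟩ := (isCompact_closedBall (0 : ℂ)
    (max R₁ (2 * |R₂|))).exists_bound_of_continuousOn h.continuous_ξ.continuousOn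
  refine ⟨16 * π / c, |B| + 1, by positivity, fun r hr => ?_⟩
  have hrB : B < r := by linarith [le_abs_self B]
  have hr0 : 0 < r := by linarith [abs_nonneg B]
  have hann : ∀ a b : ℝ, MeasurableSet {y : ℂ | a ≤ ‖y + V y‖ ∧ ‖y + V y‖ ≤ b} := fun a b =>
    ((isClosed_le continuous_const h.continuous_ξ.norm).inter
      (isClosed_le h.continuous_ξ.norm continuous_const)).measurableSet
  have hpre : ∀ a b : ℝ, η ⁻¹' {y : ℂ | a ≤ ‖y + V y‖ ∧ ‖y + V y‖ ≤ b} =
      {z | a ≤ ‖z‖ ∧ ‖z‖ ≤ b} := fun a b => by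
    ext z
    simp only [mem_preimage, mem_ofPred_eq, h.right]
  have hη := h.continuous_η.measurable
  set ν : Measure ℂ := Measure.map η ((volume.restrict (PL.Om (UU u η))).withDensity
    fun z => ENNReal.ofReal (PL.Dil (UU u η) (hh M u η) z ^ 2 / ‖z‖ ^ 2)) with hν
  have hνa : ∀ s : Set ℂ, MeasurableSet s → ν s = ∫⁻ z in PL.Om (UU u η) ∩ η ⁻¹' s,
      ENNReal.ofReal (PL.Dil (UU u η) (hh M u η) z ^ 2 / ‖z‖ ^ 2) := fun s hs => by
    rw [hν, Measure.map_apply hη hs, withDensity_apply _ (hη hs),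
      Measure.restrict_restrict (hη hs), inter_comm]
  have h1 := hT M u V η h _ (hann r (2 * r))
  have h2 := hV ({y | lift u y ∉ M.S} ∩ {y : ℂ | r ≤ ‖y + V y‖ ∧ ‖y + V y‖ ≤ 2 * r})
    {y : ℂ | r / 2 ≤ ‖y + V y‖ ∧ ‖y + V y‖ ≤ 4 * r} ν c r hc (by
      rintro y ⟨hy, hy1, hy2⟩
      have h3 : max R₁ (2 * |R₂|) < ‖y‖ := by
        by_contra h4
        have h5 := hB y (mem_closedBall_zero_iff.2 (not_lt.1 h4))
        linarith
      have h4 := (le_max_left _ _).trans h3.le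
      have h5 := (le_max_right _ _).trans h3.le
      have h6 := le_abs_self R₂
      have h7 := abs_nonneg R₂
      obtain ⟨b, hb, hb', hb''⟩ := hR₁ y h4 hy
      obtain ⟨h8, h9⟩ := G1.bounds (hR₂ y (by linarith))
      refine ⟨b, hb, by linarith, fun w hw => ?_, by rwa [hνa _ measurableSet_ball]⟩
      rw [mem_ball_iff_norm] at hw
      have h10 := norm_sub_norm_le w y
      have h11 := norm_sub_norm_le y w
      rw [norm_sub_rev y w] at h11
      obtain ⟨h12, h13⟩ := G1.bounds (hR₂ w (by linarith))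
      constructor <;> linarith)
  rw [hpre] at h1
  have hi := G1.integrableOn_dens h.continuous_UU hm hle
    (s := PL.Om (UU u η) ∩ {z | r / 2 ≤ ‖z‖ ∧ ‖z‖ ≤ 4 * r}) (b := 4 * r)
    (h.isOpen_Om.measurableSet.inter (hpre (r / 2) (4 * r) ▸ hη (hann _ _))) (half_pos hr0)
    fun z hz => hz.2
  rw [hνa _ (hann _ _), hpre, ← ofReal_integral_eq_lintegral_ofReal hi
    (Eventually.of_forall fun z => by positivity),
    ← ENNReal.ofReal_mul (by positivity)] at h2
  exact ENNReal.toReal_le_of_le_ofReal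
    (mul_nonneg (by positivity) (integral_nonneg fun z => by positivity)) (h1.trans h2)

end MW.S6
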