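import Pool.Agent.P.MP_064970_gt.S6.Bas

/-!
# Meeks–Wolf, section 6: the Nitsche map is asymptotic to a dilation
-/

open MeasureTheory Set Filter Topology Metric Complex InnerProductSpace
open scoped RealInnerProductSpace ENNReal ComplexConjugate Real

noncomputable section

namespace MW.S6

namespace GO

variable {M : Surf} {u : ℂ → ℝ} {V η : ℂ → ℂ}

open Classical in
/-- The slope bound. -/
def kk (M : Surf) (u : ℂ → ℝ) (η : ℂ → ℂ) (z : ℂ) : ℝ :=
  if z ∈ Cl M u η then ‖hh M u η z‖ ^ 2 else 1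

theorem kk_nonneg (z : ℂ) : 0 ≤ kk M u η z := by
  unfold kk; split_ifs <;> positivity

theorem kk_mem {z : ℂ} (hz : z ∈ Cl M u η) : kk M u η z = ‖hh M u η z‖ ^ 2 := if_pos hz

theorem kk_zero (hh' : S_HH) (h : NB M u V η) {z : ℂ} (hz : UU u η z = 0) : kk M u η z = 1 := by
  by_cases hc : z ∈ Cl M u η
  · rw [kk_mem hc, (hh' M u V η h).2.2.2.1 z hc hz, one_pow]
  · exact if_neg hc

theorem kk_cont (hh' : S_HH) (h : NB M u V η) : Continuous (kk M u η) := by
  have h1 : ContinuousOn (kk M u η) (Cl M u η) :=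
    ((hh' M u V η h).2.2.1.norm.pow 2).congr fun z hz => kk_mem hz
  have h2 : ContinuousOn (kk M u η) (PL.Fz (UU u η)) :=
    continuousOn_const.congr fun z hz => kk_zero hh' h hz
  have h3 := h1.union_of_isClosed h2 h.isClosed_Cl h.isClosed_Fz
  have h4 : Cl M u η ∪ PL.Fz (UU u η) = univ := eq_univ_of_forall fun z => by
    rcases (h.UU_nonneg z).eq_or_lt with h0 | h0
    · exact Or.inr h0.symm
    · exact Or.inl (h.mem_Cl h0)
  rwa [h4, continuousOn_univ] at h3

theorem slope (hH : S_HOL) (hh' : S_HH) (h : NB M u V η) (z : ℂ) (ε : ℝ) (hε : 0 < ε) :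
    ∀ᶠ w in 𝓝 z, ‖gg η w - gg η z‖ ≤ (kk M u η z + ε) * ‖w - z‖ := by
  rcases (h.UU_nonneg z).eq_or_lt with h0 | h0
  · refine Eventually.of_forall fun w => ?_
    have h1 := h.lipschitz_gg.dist_le_mul w z
    rw [dist_eq_norm, dist_eq_norm, NNReal.coe_one, one_mul] at h1
    rw [kk_zero hh' h h0.symm]
    nlinarith [norm_nonneg (w - z)]
  · have h1 := (hasDerivAt_iff_isLittleO.1 (hH M u V η h z h0).2.2).bound hε
    filter_upwards [h1] with w hw
    have h2 := norm_le_insert' (gg η w - gg η z) ((w - z) • -hh M u η z ^ 2)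
    rw [norm_smul, norm_neg, norm_pow] at h2
    rw [kk_mem (h.mem_Cl h0)]
    linarith

theorem norm_η (h : NB M u V η) (z : ℂ) : ‖η z‖ ≤ ‖z‖ + ‖η 0‖ := by
  have h1 := h.norm_sub_le z 0
  rw [sub_zero] at h1
  linarith [norm_le_insert' (η z) (η 0)]

/-- The part of the integral over the positivity set. -/
theorem om_le (hh' : S_HH) (hP : S_PUSH) (h : NB M u V η) {r R : ℝ} (hr : ‖η 0‖ ≤ r)
    (hR : R ≤ r) (hd : ∀ x ∈ M.S, R ≤ ‖x‖ → |x 2| ≤ 1 / 2 * ‖x‖) :
    ∫⁻ z in PL.Om (UU u η),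
        (ball (0 : ℂ) r).indicator (fun z => ENNReal.ofReal (‖hh M u η z‖ ^ 2)) z
      ≤ ENNReal.ofReal (∫ x in ball (0 : E) (4 * r), ‖pr (M.N x)‖ ^ 2 ∂M.μ) := by
  have hm : Measurable fun x => ‖pr (M.N x)‖ ^ 2 :=
    (measurable_pr.comp M.N_meas).norm.pow_const 2
  have hi : IntegrableOn (fun x => ‖pr (M.N x)‖ ^ 2) (ball (0 : E) (4 * r)) M.μ :=
    h.mem.bd.integrableOn isBounded_ball hm (C := 1) (fun x hx => by
      have h1 := norm_pr_le (M.N x)
      rw [M.N_unit x hx.2] at h1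
      rw [abs_of_nonneg (by positivity)]
      exact pow_le_one₀ (norm_nonneg _) h1) measurableSet_ball
  rw [hP M u V η h _ (((hh' M u V η h).1.norm.pow_const 2).ennreal_ofReal.indicator
      measurableSet_ball),
    ofReal_integral_eq_lintegral_ofReal hi (Eventually.of_forall fun x => by positivity),
    ← lintegral_indicator measurableSet_ball,
    ← lintegral_indicator (isOpen_lt continuous_const (continuous_coord 2)).measurableSet]
  refine lintegral_mono_ae ?_
  filter_upwards [M.ae_mem] with x hx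
  by_cases h0 : 0 < x 2
  · rw [indicator_of_mem (show x ∈ {x : E | 0 < x 2} from h0)]
    by_cases h1 : TT V x ∈ ball (0 : ℂ) r
    · have h2 : ‖pr x‖ < 2 * r := by
        have := norm_η h (TT V x)
        rw [h.η_TT] at this
        linarith [mem_ball_zero_iff.1 h1]
      have h3 : x ∈ ball (0 : E) (4 * r) := by
        rw [mem_ball_zero_iff]
        by_cases h4 : R ≤ ‖x‖
        · linarith [hd x hx h4, norm_le_pr_add x]
        · linarith [not_le.1 h4, norm_nonneg (η 0)]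
      rw [indicator_of_mem h1, indicator_of_mem h3, h.hh_TT hx h0.le,
        ← ENNReal.ofReal_mul (by positivity), norm_gm_sq (h.bg.nonneg hx h0.le)]
    · rw [indicator_of_notMem h1, zero_mul]
      exact bot_le
  · rw [indicator_of_notMem (show x ∉ {x : E | 0 < x 2} from h0)]
    exact bot_le

theorem split_le (hh' : S_HH) (h : NB M u V η) (r : ℝ) :
    ∫⁻ z in ball (0 : ℂ) r, ENNReal.ofReal (kk M u η z)
      ≤ (∫⁻ z in PL.Om (UU u η),
          (ball (0 : ℂ) r).indicator (fun z => ENNReal.ofReal (‖hh M u η z‖ ^ 2)) z)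
        + volume (PL.Fz (UU u η) ∩ ball 0 r) := by
  have hm : MeasurableSet (PL.Fz (UU u η) ∩ ball (0 : ℂ) r) :=
    h.isClosed_Fz.measurableSet.inter measurableSet_ball
  rw [← lintegral_indicator measurableSet_ball, ← lintegral_indicator h.isOpen_Om.measurableSet,
    ← lintegral_indicator_one hm, ← lintegral_add_right _ (measurable_one.indicator hm)]
  refine lintegral_mono fun z => ?_
  by_cases hz : z ∈ ball (0 : ℂ) r
  · rw [indicator_of_mem hz]
    rcases (h.UU_nonneg z).eq_or_lt with h0 | h0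
    · rw [kk_zero hh' h h0.symm,
        indicator_of_mem (show z ∈ PL.Fz (UU u η) ∩ ball (0 : ℂ) r from ⟨h0.symm, hz⟩)]
      simp
    · rw [indicator_of_mem (show z ∈ PL.Om (UU u η) from h0), indicator_of_mem hz,
        kk_mem (h.mem_Cl h0)]
      exact le_self_add
  · rw [indicator_of_notMem hz]
    exact bot_le

theorem mean (hh' : S_HH) (hP : S_PUSH) (hT : S_TRANS) (hD : S_DEN) (h0 : II0 M)
    (h : NB M u V η) (ε : ℝ) (hε : 0 < ε) :
    ∃ R : ℝ, ∀ r, R ≤ r → ∫ z in ball (0 : ℂ) r, kk M u η z ≤ ε * r ^ 2 := by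
  obtain ⟨R₁, h₁⟩ := h0.d1 (1 / 2) (by norm_num)
  obtain ⟨R₂, h₂⟩ := h0.d2 (ε / 20) (by positivity)
  obtain ⟨R₃, h₃⟩ := hD M u h0 h.gr (ε / 20) (by positivity)
  refine ⟨max (max ‖η 0‖ R₁) (max R₂ R₃), fun r hr => ?_⟩
  simp only [max_le_iff] at hr
  obtain ⟨⟨r0, r1⟩, r2, r3⟩ := hr
  have hr0 : 0 ≤ r := (norm_nonneg _).trans r0
  have a1 := (om_le hh' hP h r0 r1 h₁).trans
    (ENNReal.ofReal_le_ofReal (h₂ (4 * r) (by linarith)))
  have a2 : volume (PL.Fz (UU u η) ∩ ball 0 r) ≤ ENNReal.ofReal (ε / 20 * (2 * r) ^ 2) := by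
    refine le_trans (measure_mono (inter_subset_inter_right _ fun z hz => ?_))
      ((hT M u V η h (ball 0 (2 * r)) measurableSet_ball).trans (h₃ (2 * r) (by linarith)))
    rw [mem_preimage, mem_ball_zero_iff]
    linarith [norm_η h z, mem_ball_zero_iff.1 hz]
  have a3 := (split_le hh' h r).trans (add_le_add a1 a2)
  rw [← ENNReal.ofReal_add (by positivity) (by positivity)] at a3
  rw [integral_eq_lintegral_of_nonneg_ae (Eventually.of_forall fun z => kk_nonneg z)
    (kk_cont hh' h).aestronglyMeasurable]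
  refine ENNReal.toReal_le_of_le_ofReal (by positivity) (a3.trans (le_of_eq ?_))
  congr 1
  ring

end GO

/-- `S_OSC` for `gg η` (`NB.lipschitz_gg`) with `k z = if z ∈ Cl then ‖hh z‖² else 1`; `k` is continuous
(closed cover by `Cl` and `Fz`, `k = 1` on `Fz`); slope bound from `S_HOL` on `Om` and from the
Lipschitz bound on `Fz`. `∫ k over ball 0 r ≤ ∫ ‖hh‖² over Om ∩ ball + |Fz ∩ ball|`;
`ball 0 r ⊆ η ⁻¹' ball 0 (r + ‖η 0‖)`; `S_PUSH` with `NB.hh_TT`, `norm_gm_sq`, then `d1`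
(`ε = 1/2`) and `d2`; `S_TRANS`, `S_DEN`. Finally `z = y + V y`, `‖gg z‖ = ‖V y - y‖`,
`‖y‖ ≤ ‖z‖ + ‖η 0‖`, `‖z‖ ≤ 2‖y‖ + ‖gg z‖`. -/
theorem go_of (hO : S_OSC) (hH : S_HOL) (hh' : S_HH) (hP : S_PUSH) (hT : S_TRANS) (hD : S_DEN) :
    S_GO := by
  intro M u V η h0 h ε hε
  have hδ : 0 < min (ε / 4) (1 / 2) := lt_min (by positivity) (by norm_num)
  obtain ⟨R, hR⟩ := hO (gg η) (GO.kk M u η) h.lipschitz_gg (GO.kk_cont hh' h) GO.kk_nonneg
    (GO.slope hH hh' h) (GO.mean hh' hP hT hD h0 h) _ hδ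
  refine ⟨R + ‖η 0‖, fun y hy => ?_⟩
  have a1 := GO.norm_η h (y + V y)
  rw [h.left] at a1
  have a2 := hR (y + V y) (by linarith)
  have a3 : ‖gg η (y + V y)‖ = ‖V y - y‖ := by
    rw [gg, h.left, Complex.norm_conj, norm_sub_rev]
    congr 1
    ring
  have a4 : ‖y + V y‖ ≤ 2 * ‖y‖ + ‖V y - y‖ := by
    have e : y + V y = (y + y) + (V y - y) := by ring
    rw [e]
    linarith [norm_add_le (y + y) (V y - y), norm_add_le y y]
  rw [a3] at a2
  have a5 := a2.trans (mul_le_mul_of_nonneg_left a4 hδ.le)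
  have a6 := mul_le_mul_of_nonneg_right (min_le_left (ε / 4) (1 / 2)) (norm_nonneg y)
  have a7 := mul_le_mul_of_nonneg_right (min_le_right (ε / 4) (1 / 2)) (norm_nonneg (V y - y))
  linarith

end MW.S6
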