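import Pool.Agent.P.MP_064970_gt.S6.Bas

/-!
# Meeks–Wolf, section 6: the upper half is a graph
-/

open MeasureTheory Set Filter Topology Metric Complex InnerProductSpace
open scoped RealInnerProductSpace ENNReal ComplexConjugate Real

noncomputable section

namespace MW.S6

namespace GR

variable {M : Surf}

theorem uniq (hb : Bg M 2) {y : ℂ} {s t : ℝ} (hs : pt y s ∈ M.S) (ht : pt y t ∈ M.S) (hs0 : 0 ≤ s)
    (ht0 : 0 ≤ t) : s = t := by
  have key : ∀ s t : ℝ, pt y s ∈ M.S → pt y t ∈ M.S → 0 ≤ s → ¬ s < t := fun s t hs ht hs0 h => by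
    refine hb.inj _ hs (by simpa using hs0) (t - s) (sub_pos.2 h) ?_
    rw [ee_two, pt_add_smul_e3, add_sub_cancel]; exact ht
  exact le_antisymm (not_lt.1 (key t s ht hs ht0)) (not_lt.1 (key s t hs ht hs0))

open Classical in
/-- The height of the upper half. -/
def uu (M : Surf) (y : ℂ) : ℝ := if h : ∃ t, 0 ≤ t ∧ pt y t ∈ M.S then h.choose else 0

theorem uu_nonneg (y : ℂ) : 0 ≤ uu M y := by
  unfold uu; split_ifs with h
  · exact h.choose_spec.1
  · exact le_rfl

theorem uu_mem {y : ℂ} (h0 : 0 < uu M y) : pt y (uu M y) ∈ M.S := by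
  unfold uu at h0 ⊢; split_ifs at h0 ⊢ with h
  · exact h.choose_spec.2
  · exact absurd h0 (lt_irrefl _)

theorem uu_eq (hb : Bg M 2) {y : ℂ} {t : ℝ} (ht : pt y t ∈ M.S) (h0 : 0 ≤ t) : uu M y = t := by
  have h : ∃ t, 0 ≤ t ∧ pt y t ∈ M.S := ⟨t, h0, ht⟩
  unfold uu; rw [dif_pos h]
  exact uniq hb h.choose_spec.2 ht h.choose_spec.1 h0

theorem norm_sub_ee (x : E) : ‖x - x 2 • ee 2‖ = ‖pr x‖ := by
  have : x - x 2 • ee 2 = pt (pr x) 0 := by
    ext j; fin_cases j <;> simp [ee_apply]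
  rw [this, norm_pt_zero]

theorem bound (hb : Bg M 2) (B : ℝ) : ∃ H, ∀ x ∈ M.S, ‖pr x‖ ≤ B → ‖x‖ ≤ H := by
  obtain ⟨L, R₀, hL, h⟩ := hb.cone
  refine ⟨max R₀ (B + L * B), fun x hx hB => ?_⟩
  by_contra hc
  rw [not_le, max_lt_iff] at hc
  refine disjoint_left.1 M.disjS' (h x hc.1.le ?_) hx
  rw [norm_sub_ee]
  have := norm_le_pr_add x
  have := mul_le_mul_of_nonneg_left hB hL.le
  linarith [hc.2]

theorem cont (hM : M.Mem) (hb : Bg M 2) : Continuous (uu M) := by
  refine continuous_iff_continuousAt.2 fun y₀ => ?_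
  rcases (uu_nonneg (M := M) y₀).eq_or_lt with h0 | h0
  · refine tendsto_order.2 ⟨fun a ha => Eventually.of_forall fun y => ?_, fun a ha => ?_⟩
    · rw [← h0] at ha; exact ha.trans_le (uu_nonneg y)
    · rw [← h0] at ha
      obtain ⟨H, hH⟩ := bound hb (‖y₀‖ + 1)
      have hK : IsCompact (M.S ∩ ({x : E | a ≤ x 2} ∩ closedBall 0 H)) :=
        ((isCompact_closedBall 0 H).inter_left
          (isClosed_le continuous_const (continuous_coord 2))).inter_left hM.isClosed
      have hc := (hK.image continuous_pr).isClosed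
      have hy : y₀ ∉ pr '' (M.S ∩ ({x : E | a ≤ x 2} ∩ closedBall 0 H)) := by
        rintro ⟨x, ⟨hx, hx1, -⟩, rfl⟩
        have hx1 : a ≤ x 2 := hx1
        have := uu_eq hb (y := pr x) (t := x 2) (by rwa [pt_pr]) (ha.le.trans hx1)
        linarith
      filter_upwards [hc.isOpen_compl.mem_nhds hy, ball_mem_nhds y₀ one_pos] with y h1 h2
      by_contra h3
      rw [not_lt] at h3
      have h4 := uu_mem (ha.trans_le h3)
      refine h1 ⟨_, ⟨h4, by simpa using h3, ?_⟩, pr_pt _ _⟩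
      rw [mem_closedBall_zero_iff]
      refine hH _ h4 ?_
      rw [pr_pt]
      have := norm_le_norm_add_norm_sub' y y₀
      rw [mem_ball_iff_norm] at h2
      linarith
  · rw [Metric.continuousAt_iff']
    intro ε hε
    have hy := uu_mem h0
    have h1 := M.side _ hy e3 (by rw [e3_inner]; exact hb.pos _ hy (by simpa using h0))
    obtain ⟨δ, ⟨hδ1, hδ2⟩, hδ0, hδt⟩ := (h1.and (Ioo_mem_nhdsGT (lt_min h0 hε))).exists
    rw [pt_add_smul_e3] at hδ1
    rw [pt_sub_smul_e3] at hδ2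
    have c1 : ∀ t : ℝ, Continuous fun y : ℂ => pt y t := fun t =>
      Continuous.pt' continuous_id continuous_const
    filter_upwards [((c1 _).tendsto y₀).eventually (M.isOpen_W'.mem_nhds hδ1),
      ((c1 _).tendsto y₀).eventually (M.isOpen_W.mem_nhds hδ2)] with y h2 h3
    obtain ⟨z, ⟨a, b, ha, hb', hab, rfl⟩, hzS⟩ := M.exists_cross (hM.sub _) h3 h2
    have h4 : a • pt y (uu M y₀ - δ) + b • pt y (uu M y₀ + δ) = pt y (uu M y₀ + (b - a) * δ) := by
      rw [show a = 1 - b by linarith]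
      ext j; fin_cases j <;> simp <;> ring
    rw [h4] at hzS
    have h5 := lt_min_iff.1 hδt
    have h6 : |(b - a) * δ| ≤ δ := by
      rw [abs_le]; constructor <;> nlinarith
    rw [uu_eq hb hzS (by linarith [(abs_le.1 h6).1]), Real.dist_eq, add_sub_cancel_left]
    exact h6.trans_lt h5.2

end GR

theorem gr : S_GR := fun M hM hb => by
  have hc := GR.cont hM hb
  have he : ∀ x ∈ M.S, 0 ≤ x 2 → GR.uu M (pr x) = x 2 := fun x hx h0 =>
    GR.uu_eq hb (by rwa [pt_pr]) h0
  refine ⟨GR.uu M, hc, GR.uu_nonneg, he, fun y hy => GR.uu_mem hy, fun y => ⟨fun hy => ?_,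
    fun hy => ?_⟩⟩
  · have h1 : IsClosed {y | lift (GR.uu M) y ∈ M.S} :=
      hM.isClosed.preimage (Continuous.pt' continuous_id hc)
    exact closure_minimal (fun y hy => GR.uu_mem hy) h1 hy
  · rcases (GR.uu_nonneg (M := M) y).eq_or_lt with h0 | h0
    · have h1 := hb.clo _ hy (by simpa using h0.symm)
      have h2 := map_mem_closure continuous_pr h1 (t := {y | 0 < GR.uu M y}) fun x hx => by
        change 0 < GR.uu M (pr x)
        rw [he x hx.1 hx.2.le]; exact hx.2
      rwa [pr_lift] at h2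
    · exact subset_closure h0

end MW.S6
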