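import Pool.Agent.P.MP_064970_gt.S6.Bas

/-!
# Meeks–Wolf, section 6: holomorphic data in the conformal coordinate
-/

open MeasureTheory Set Filter Topology Metric Complex InnerProductSpace
open scoped RealInnerProductSpace ENNReal ComplexConjugate Real

noncomputable section

namespace MW.S6

/-- `x = lift u (η z)`, chart and `k` from `S_LOC`, `Ψ w = Φ 0 w + I Φ 1 w + k`, `Ψ 0 = z`
(`NB.TT_lift`), `deriv Ψ 0 ≠ 0` (`Ori.add_ne_zero`), `ψ` from `exists_localInv`. Near `z`: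
`TT V (X (ψ z')) = z'`, so `UU z' = Re Φ 2 (ψ z')` (`NB.UU_TT`) and
`gg z' = Φ 0 (ψ z') - I Φ 1 (ψ z') - conj k` (`NB.η_TT`). `Ori.gauss`, `gm_mul`, `chart_null`,
`AN.D_of_re`. -/
theorem hol_of (hL : S_LOC) : S_HOL := by
  intro M u V η h z hz
  have hzC : z ∈ Cl M u η := h.mem_Cl hz
  have hxS : lift u (η z) ∈ M.S := hzC
  have hx2 : 0 < lift u (η z) 2 := by rw [lift_two]; exact hz
  obtain ⟨c, k, hc0, hf, ho, hT, hpos⟩ := hL M u V η h _ hxS hx2.le
  have h0 : (0 : ℂ) ∈ ball (0 : ℂ) c.r := mem_ball_self c.r_pos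
  have a0 := chart_analyticAt c 0 h0
  have a1 := chart_analyticAt c 1 h0
  have a2 := chart_analyticAt c 2 h0
  have d0 := a0.differentiableAt.hasDerivAt
  have d1 := a1.differentiableAt.hasDerivAt
  have d2 := a2.differentiableAt.hasDerivAt
  have hΨa : AnalyticAt ℂ (fun w => c.Φ 0 w + I * c.Φ 1 w + k) 0 :=
    (a0.add (analyticAt_const.mul a1)).add analyticAt_const
  have hΨd : HasDerivAt (fun w => c.Φ 0 w + I * c.Φ 1 w + k)
      (deriv (c.Φ 0) 0 + I * deriv (c.Φ 1) 0) 0 := (d0.add (d1.const_mul I)).add_const k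
  have hN : 0 ≤ M.N (c.X 0) 2 := h.bg.nonneg (hc0 ▸ hxS) (hc0 ▸ hx2.le)
  have hA : deriv (c.Φ 0) 0 + I * deriv (c.Φ 1) 0 ≠ 0 := ho.add_ne_zero hf h0 hN
  have hΨ0 : c.Φ 0 0 + I * c.Φ 1 0 + k = z := by
    rw [← hT 0 h0 (hc0 ▸ hx2.le), hc0, h.TT_lift]
  obtain ⟨ψ, hψa, hψ0, hψr, -, hψd⟩ := exists_localInv hΨa (by rw [hΨd.deriv]; exact hA)
  simp only [hΨ0] at hψa hψ0 hψr hψd
  rw [hΨd.deriv] at hψd
  have hball : ∀ᶠ z' in 𝓝 z, ψ z' ∈ ball (0 : ℂ) c.r :=
    hψa.continuousAt.eventually (isOpen_ball.mem_nhds (by rw [hψ0]; exact h0))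
  have hTT : ∀ᶠ z' in 𝓝 z, TT V (c.X (ψ z')) = z' := by
    filter_upwards [hball, hψr] with z' h1 h2
    rw [hT _ h1 (hpos hx2 _ h1).le, h2]
  have hU : UU u η =ᶠ[𝓝 z] fun z' => (c.Φ 2 (ψ z')).re := by
    filter_upwards [hball, hTT] with z' h1 h2
    have := h.UU_TT (hf.emb.mem h1) (hpos hx2 _ h1).le
    rw [h2] at this
    exact this
  have hg : gg η =ᶠ[𝓝 z] fun z' => c.Φ 0 (ψ z') - I * c.Φ 1 (ψ z') - conj k := by
    filter_upwards [hψr, hTT] with z' h1 h2
    have h3 := h.η_TT (c.X (ψ z'))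
    rw [h2] at h3
    have h4 : gg η z' = conj (2 * pr (c.X (ψ z')) - (c.Φ 0 (ψ z') + I * c.Φ 1 (ψ z') + k)) := by
      rw [gg, h3, h1]
    rw [h4]
    apply Complex.ext <;> simp [pr, chart_X_apply] <;> ring
  have hh0 : hh M u η z * (deriv (c.Φ 0) 0 + I * deriv (c.Φ 1) 0) = deriv (c.Φ 2) 0 := by
    rw [hh_of_mem hzC, ← hc0]
    have h1 := ho.gauss hf h0
    have h2 : ((1 + M.N (c.X 0) 2 : ℝ) : ℂ) ≠ 0 := Complex.ofReal_ne_zero.2 (by linarith)
    apply mul_left_cancel₀ h2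
    rw [h1, ← gm_mul hN]; ring
  have e0 : HasDerivAt (c.Φ 0) (deriv (c.Φ 0) 0) (ψ z) := by rw [hψ0]; exact d0
  have e1 : HasDerivAt (c.Φ 1) (deriv (c.Φ 1) 0) (ψ z) := by rw [hψ0]; exact d1
  have e2 : HasDerivAt (c.Φ 2) (deriv (c.Φ 2) 0) (ψ z) := by rw [hψ0]; exact d2
  refine ⟨?_, ?_, ?_⟩
  · have a2' : AnalyticAt ℂ (c.Φ 2) (ψ z) := by rw [hψ0]; exact a2
    exact (harmonicAt_congr_nhds hU).2 (a2'.comp hψa).harmonicAt_re
  · rw [AN.D_of_re (e2.comp z hψd) hU, ← hh0]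
    field_simp
  · have h1 := ((e0.comp z hψd).sub ((e1.comp z hψd).const_mul I)).sub_const (conj k)
    refine (h1.congr_of_eventuallyEq hg).congr_deriv ?_
    have h2 := chart_null c h0
    rw [← hh0] at h2
    have h3 := mul_inv_cancel₀ hA
    have h4 : deriv (c.Φ 0) 0 - I * deriv (c.Φ 1) 0
        = -hh M u η z ^ 2 * (deriv (c.Φ 0) 0 + I * deriv (c.Φ 1) 0) := by
      apply mul_right_cancel₀ hA
      linear_combination h2 - deriv (c.Φ 1) 0 ^ 2 * I_sq
    linear_combination (deriv (c.Φ 0) 0 + I * deriv (c.Φ 1) 0)⁻¹ * h4 - hh M u η z ^ 2 * h3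

/-- `norm_gm_sq`, `norm_sq_eq`, `Bg.nonneg`, `Bg.zero`; `ContinuousOn.measurable_piecewise` on the closed
set `Cl`; `NB.homeo` with `Homeomorph.preimage_closure` and `Gr.clo`. -/
theorem hhf : S_HH := by
  intro M u V η h
  have hl : Continuous fun z => lift u (η z) := h.gr.continuous_lift.comp h.continuous_η
  have hN : ∀ z ∈ Cl M u η, 0 ≤ M.N (lift u (η z)) 2 := fun z hz =>
    h.bg.nonneg hz (by rw [lift_two]; exact h.gr.nonneg _)
  have hNc : ContinuousOn (fun z => M.N (lift u (η z))) (Cl M u η) :=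
    M.N_cont.comp hl.continuousOn fun z hz => hz
  have hc : ContinuousOn (fun z => gm (M.N (lift u (η z)))) (Cl M u η) := by
    unfold gm
    refine ContinuousOn.div ?_ ?_ fun z hz => ?_
    · exact (Complex.continuous_conj.comp_continuousOn (continuous_pr.comp_continuousOn hNc)).neg
    · exact Complex.continuous_ofReal.comp_continuousOn
        (continuousOn_const.add ((continuous_coord 2).comp_continuousOn hNc))
    · exact Complex.ofReal_ne_zero.2 (by linarith [hN z hz])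
  have hsq : ∀ z ∈ Cl M u η, ‖hh M u η z‖ ^ 2 * (1 + M.N (lift u (η z)) 2)
      = 1 - M.N (lift u (η z)) 2 := fun z hz => by
    have h1 := norm_gm_sq (hN z hz)
    have h2 := unit_sq (M.N_unit _ hz)
    rw [norm_pr_sq] at h1
    rw [hh_of_mem hz]
    apply mul_right_cancel₀ (show 1 + M.N (lift u (η z)) 2 ≠ 0 by linarith [hN z hz])
    linear_combination h1 + h2
  have hclo : closure (PL.Om (UU u η)) = Cl M u η := by
    have h1 := h.homeo.preimage_closure {y | 0 < u y}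
    have h2 : PL.Om (UU u η) = h.homeo ⁻¹' {y | 0 < u y} := rfl
    rw [h2, ← h1]
    ext z
    exact h.gr.clo (η z)
  refine ⟨?_, fun z => ?_, hc.congr fun z hz => hh_of_mem hz, fun z hz h0 => ?_, hclo, ?_⟩
  · classical
    have h1 := ContinuousOn.measurable_piecewise (g := fun _ => (0 : ℂ)) hc continuousOn_const
      h.isClosed_Cl.measurableSet
    convert h1 using 1
    ext z
    by_cases hz : z ∈ Cl M u η
    · rw [hh_of_mem hz, piecewise_eq_of_mem _ _ _ hz]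
    · rw [hh_of_notMem hz, piecewise_eq_of_notMem _ _ _ hz]
  · by_cases hz : z ∈ Cl M u η
    · have h1 := hsq z hz
      have h2 := hN z hz
      have h3 := norm_nonneg (hh M u η z)
      by_contra h4
      push Not at h4
      nlinarith [mul_nonneg (sq_nonneg ‖hh M u η z‖) h2]
    · rw [hh_of_notMem hz, norm_zero]; exact zero_le_one
  · have h1 := hsq z hz
    rw [h.bg.zero _ hz (by rw [lift_two]; exact h0)] at h1
    have h3 := norm_nonneg (hh M u η z)
    nlinarith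
  · rw [h.isOpen_Om.frontier_eq, hclo]
    ext z
    refine and_congr_right fun _ => ⟨fun h1 => ?_, fun h1 h2 => ?_⟩
    · exact le_antisymm (not_lt.1 h1) (h.UU_nonneg z)
    · exact absurd h1 (ne_of_gt h2)

end MW.S6
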