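import Pool.Agent.P.MP_064970_gt.S6.Bas

/-!
# Meeks–Wolf, section 6: the Nitsche map is monotone
-/

open MeasureTheory Set Filter Topology Metric Complex InnerProductSpace
open scoped RealInnerProductSpace ENNReal ComplexConjugate Real

noncomputable section

namespace MW.S6

namespace MON

/-- The derivative of the graph map. -/
def AA (n : E) : ℂ →L[ℝ] E :=
  ptL.comp ((ContinuousLinearMap.id ℝ ℂ).prod ((-(n 2)⁻¹) • innerSL ℝ (pr n)))

theorem AA_apply (n : E) (w : ℂ) : AA n w = pt w (-(n 2)⁻¹ * ⟪pr n, w⟫) := by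
  simp [AA]

theorem AA_pr {n v : E} (hn : n 2 ≠ 0) (h : ⟪v, n⟫ = 0) : AA n (prL v) = v := by
  rw [AA_apply, prL_apply]
  rw [real_inner_comm, inner_eq_pr] at h
  have : -(n 2)⁻¹ * ⟪pr n, pr v⟫ = v 2 := by
    field_simp; linarith
  rw [this, pt_pr]

end MON

theorem mon_of (hT : S_TANG) (hM : S_MONO1) : S_MON := fun M u V _ hb hg hV y y' => by
  set w := y - y' with hw
  have hc : Continuous fun τ : ℝ => y' + τ • w := by fun_prop
  have key : Monotone fun τ : ℝ => ⟪V (y' + τ • w), w⟫ := by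
    refine hM _ {τ | 0 < u (y' + τ • w)} ((hV.cont.comp hc).inner continuous_const)
      (isOpen_lt continuous_const (hg.cont.comp hc)) (fun τ hτ => ?_) fun τ hτ => ?_
    · set q := y' + τ • w with hq
      have hq0 : 0 < u q := hτ
      have hx := hg.mem q hq0
      set n := M.N (lift u q) with hn
      have hn2 : 0 < n 2 := hb.pos _ hx (by simpa using hq0)
      have hP : IsOpen {q | 0 < u q} := isOpen_lt continuous_const hg.cont
      have h1 : HasFDerivAt (lift u) (MON.AA n) q :=
        (hT M prL (MON.AA n) (lift u) {q | 0 < u q} q hq0 (fun v hv => MON.AA_pr hn2.ne' hv)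
          hg.continuous_lift.continuousWithinAt
          fun q' hq' => ⟨hg.mem q' hq', pr_lift u q'⟩).hasFDerivAt (hP.mem_nhds hq0)
      have h2 : HasDerivAt (fun τ : ℝ => y' + τ • w) w τ := by
        simpa using ((hasDerivAt_id τ).smul_const w).const_add y'
      have h3 : HasDerivAt (fun τ : ℝ => lift u (y' + τ • w)) (MON.AA n w) τ :=
        HasFDerivAt.comp_hasDerivAt (l := lift u) (f := fun τ : ℝ => y' + τ • w) τ h1 h2
      have hev : ∀ᶠ σ in 𝓝 τ, lift u (y' + σ • w) ∈ M.S :=
        ((hc.tendsto τ).eventually (hP.mem_nhds hq0)).mono fun σ hσ => hg.mem _ hσ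
      obtain ⟨f₀, f₁, h₀, h₁, hr⟩ := hV.rep q hx
      have d : ∀ (i : Fin 3) (f : E → ℝ), Cj M i f (lift u q) →
          HasDerivAt (fun σ : ℝ => f (lift u (y' + σ • w))) ⟪cross n (ee i), MON.AA n w⟫ τ :=
        fun i f hf => by
          have := (hf.hasFDerivWithinAt hx).comp_hasDerivWithinAt τ
            (h3.hasDerivWithinAt (s := {σ | lift u (y' + σ • w) ∈ M.S})) fun σ hσ => hσ
          exact this.hasDerivAt hev
      have d2 := ((d 1 f₁ h₁).neg.mul_const w.re).add ((d 0 f₀ h₀).mul_const w.im)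
      refine ⟨_, ?_, d2.congr_of_eventuallyEq ?_⟩
      · rw [inner_cross_ee0, inner_cross_ee1, MON.AA_apply, inner_complex]
        simp only [pt_zero, pt_one, pt_two, pr_re, pr_im]
        have : -(n 0 * (-(n 2)⁻¹ * (n 0 * w.re + n 1 * w.im)) - n 2 * w.re) * w.re
            + (n 2 * w.im - n 1 * (-(n 2)⁻¹ * (n 0 * w.re + n 1 * w.im))) * w.im
            = n 2 * (w.re ^ 2 + w.im ^ 2) + (n 2)⁻¹ * (n 0 * w.re + n 1 * w.im) ^ 2 := by ring
        rw [this]; positivity
      · filter_upwards [(hc.tendsto τ).eventually hr, hev] with σ h4 h5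
        rw [h4 h5, inner_complex]; rfl
    · have h0 : u (y' + τ • w) = 0 := (hg.nonneg _).eq_of_not_lt' hτ
      filter_upwards [nhdsWithin_le_nhds ((hc.tendsto τ).eventually (hV.loc _ h0))] with σ h1 h2
      rw [h1 ((hg.nonneg _).eq_of_not_lt' h2)]
  have h := key zero_le_one
  simp only [zero_smul, add_zero, one_smul, hw, add_sub_cancel] at h
  rw [inner_sub_left]; linarith

end MW.S6
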