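import Pool.Agent.P.MP_064970_gt.S6.Bas

/-!
# Meeks–Wolf, section 6: null sets and translations
-/

open MeasureTheory Set Filter Topology Metric Complex InnerProductSpace
open scoped RealInnerProductSpace ENNReal ComplexConjugate Real

noncomputable section

namespace MW.S6

namespace NULL

theorem axis : volume {w : ℂ | w.re = 0} = 0 := by
  refine Measure.addHaar_submodule volume (LinearMap.ker Complex.reLm) fun h => ?_
  have h1 : (1 : ℂ) ∈ LinearMap.ker Complex.reLm := by
    rw [h]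
    exact Submodule.mem_top
  simp at h1

theorem loc {Φ : ℂ → ℂ} (hΦ : AnalyticAt ℂ Φ 0) (h : deriv Φ 0 ≠ 0) :
    ∃ A : Set ℂ, volume A = 0 ∧ ∀ᶠ w in 𝓝 (0 : ℂ), (Φ w).re = 0 → w ∈ A := by
  obtain ⟨ψ, h1, -, -, h2, -⟩ := exists_localInv hΦ h
  refine ⟨ψ '' ({z | AnalyticAt ℂ ψ z} ∩ {w : ℂ | w.re = 0}), ?_, ?_⟩
  · refine addHaar_image_eq_zero_of_differentiableOn_of_addHaar_eq_zero volume (fun z hz => ?_)
      (measure_mono_null inter_subset_right axis)
    exact (AnalyticAt.differentiableAt hz.1).restrictScalars ℝ |>.differentiableWithinAt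
  · filter_upwards [h2, hΦ.continuousAt.eventually h1.eventually_analyticAt] with w k1 k2 k3
    exact ⟨Φ w, ⟨k2, k3⟩, k1⟩

theorem chart {M : Surf} {c : Chart} (hf : c.Fits M.S M.N M.μ) (ho : Ori c M.N)
    (hN : M.N (c.X 0) 2 = 0) : ∃ A : Set ℂ, A ⊆ ball 0 c.r ∧ MeasurableSet A ∧ volume A = 0 ∧
      ∀ᶠ y in 𝓝[M.S] (c.X 0), y 2 = 0 → y ∈ c.X '' A := by
  have h0 : (0 : ℂ) ∈ ball (0 : ℂ) c.r := mem_ball_self c.r_pos
  have hp : pr (M.N (c.X 0)) ≠ 0 := fun h => by
    have h1 := norm_sq_eq (M.N (c.X 0))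
    rw [M.N_unit _ (hf.emb.mem h0), h, hN] at h1
    simp at h1
  obtain ⟨A, hA, h1⟩ := loc (chart_analyticAt c 2 h0) (ho.two_ne_zero hf h0 hp)
  refine ⟨ball 0 c.r ∩ toMeasurable volume A, inter_subset_left,
    measurableSet_ball.inter (measurableSet_toMeasurable _ _),
    measure_mono_null inter_subset_right (by rwa [measure_toMeasurable]), ?_⟩
  rw [← hf.emb.map_nhds h0, eventually_map]
  filter_upwards [h1, isOpen_ball.mem_nhds h0] with w k1 k2 k3
  exact ⟨w, ⟨k2, subset_toMeasurable _ _ (k1 k3)⟩, rfl⟩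

end NULL

/-- Local lemma: if `Φ` is analytic at `0` with `deriv Φ 0 ≠ 0`, then `{w | (Φ w).re = 0}` is null in a
neighbourhood of `0` (it lies in the image of a piece of the imaginary axis under the local
inverse, `addHaar_image_eq_zero_of_differentiableOn_of_addHaar_eq_zero`). At `x ∈ S` with `x 2 = 0`
the normal is horizontal, so `Ori.two_ne_zero` applies. `measure_null_of_locally_null`; for the
first part the set is locally in the image of that null set under `Φ 0 + I Φ 1 + k`
(`Emb.map_nhds`, continuity of `lift u ∘ η`); for the second use `Fits.area`,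
`Surf.measure_inter_S`. -/
theorem null_of (hL : S_LOC) : S_NULL := by
  intro M u V η h
  constructor
  · refine measure_null_of_locally_null _ fun z hz => ?_
    have hx : lift u (η z) ∈ M.S := hz.1
    have hx2 : lift u (η z) 2 = 0 := hz.2
    obtain ⟨c, k, hc, hf, ho, h1, -⟩ := hL M u V η h _ hx hx2.ge
    obtain ⟨A, hA, -, hA0, h2⟩ := NULL.chart hf ho (by rw [hc]; exact h.bg.zero _ hx hx2)
    refine ⟨(fun w => c.Φ 0 w + I * c.Φ 1 w + k) '' A, ?_, ?_⟩
    · have ht : Tendsto (fun z' => lift u (η z')) (𝓝[Cl M u η ∩ PL.Fz (UU u η)] z)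
          (𝓝[M.S] (c.X 0)) := by
        rw [hc]
        exact ((h.gr.continuous_lift.comp h.continuous_η).continuousWithinAt).tendsto_nhdsWithin
          fun z' hz' => hz'.1
      filter_upwards [ht.eventually h2, self_mem_nhdsWithin] with z' k1 k2
      have k3 : lift u (η z') 2 = 0 := k2.2
      obtain ⟨w, hw, k4⟩ := k1 k3
      refine ⟨w, hw, ?_⟩
      beta_reduce
      rw [← h1 w (hA hw) (by rw [k4, k3]), k4, h.TT_lift]
    · refine addHaar_image_eq_zero_of_differentiableOn_of_addHaar_eq_zero volume ?_ hA0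
      exact ((((c.hol 0).add ((c.hol 1).const_mul I)).add_const k).mono hA).restrictScalars ℝ
  · rw [← M.measure_inter_S]
    refine measure_null_of_locally_null _ fun x hx => ?_
    have hx2 : x 2 = 0 := hx.1
    obtain ⟨c, k, hc, hf, ho, -⟩ := hL M u V η h x hx.2 hx2.ge
    obtain ⟨A, hA, hAm, hA0, h2⟩ := NULL.chart hf ho (by rw [hc]; exact h.bg.zero _ hx.2 hx2)
    refine ⟨c.X '' A, ?_, ?_⟩
    · rw [hc] at h2
      filter_upwards [nhdsWithin_mono x inter_subset_right h2, self_mem_nhdsWithin] with y k1 k2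
      exact k1 k2.1
    · rw [hf.area A hAm hA, setLIntegral_measure_zero _ _ hA0]

/-- Outside the null set of `S_NULL` the left set lies in the image of `{lift u y ∉ S} ∩ A` under
`y ↦ y + V y`, and `V` is locally constant on the open set `{lift u y ∉ S}` (`Ni.loc`,
`Gr.eq_zero`); `addHaar_image_le_lintegral_abs_det_fderiv` with derivative `id`. -/
theorem trans_of (hN : S_NULL) : S_TRANS := by
  intro M u V η h A hA
  have hG : IsOpen {y | lift u y ∉ M.S} :=
    (h.mem.isClosed.preimage h.gr.continuous_lift).isOpen_compl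
  have hsub : PL.Fz (UU u η) ∩ η ⁻¹' A ⊆ (fun y => y + V y) '' ({y | lift u y ∉ M.S} ∩ A) ∪
      Cl M u η ∩ PL.Fz (UU u η) := fun z hz => by
    by_cases hc : z ∈ Cl M u η
    · exact Or.inr ⟨hc, hz.1⟩
    · exact Or.inl ⟨η z, ⟨hc, hz.2⟩, h.right z⟩
  have hd : ∀ y ∈ {y | lift u y ∉ M.S} ∩ A, HasFDerivWithinAt (fun y => y + V y)
      (ContinuousLinearMap.id ℝ ℂ) ({y | lift u y ∉ M.S} ∩ A) y := fun y hy => by
    refine (((hasFDerivAt_id y).add_const (V y)).congr_of_eventuallyEq ?_).hasFDerivWithinAt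
    filter_upwards [h.ni.loc y (h.gr.eq_zero hy.1), hG.mem_nhds hy.1] with y' k1 k2
    rw [k1 (h.gr.eq_zero k2), id]
  have h1 := addHaar_image_le_lintegral_abs_det_fderiv volume (hG.measurableSet.inter hA) hd
  have h2 : (ContinuousLinearMap.id ℝ ℂ).det = 1 := LinearMap.det_id
  simp only [h2, abs_one, ENNReal.ofReal_one, setLIntegral_one] at h1
  refine ((measure_mono hsub).trans (measure_union_le _ _)).trans ?_
  rwa [(hN M u V η h).1, add_zero]

end MW.S6
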