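import Pool.Agent.P.MP_064970_gt.S6.Bas

/-!
# Meeks–Wolf, section 6: oriented charts
-/

open MeasureTheory Set Filter Topology Metric Complex InnerProductSpace
open scoped RealInnerProductSpace ENNReal ComplexConjugate Real

noncomputable section

namespace MW.S6

namespace OR

theorem inner_cross (n u v : E) : ⟪cross n u, v⟫ = ChartAPI_det u v n := by
  rw [inner_eq, ChartAPI_det]
  simp only [cross_zero, cross_one, cross_two]
  ring

theorem cross_eq {M : Surf} {c : Chart} (hf : c.Fits M.S M.N M.μ) {z : ℂ}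
    (hz : z ∈ ball (0 : ℂ) c.r) : cross (M.N (c.X z)) (c.Xu z) =
      (ChartAPI_det (c.Xu z) (c.Xv z) (M.N (c.X z)) / c.jac z) • c.Xv z := by
  have h := c.frame hz (M.N_unit _ (hf.emb.mem hz)) (hf.inner_Xu hz) (hf.inner_Xv hz)
    (cross (M.N (c.X z)) (c.Xu z))
  have h1 : ⟪cross (M.N (c.X z)) (c.Xu z), c.Xu z⟫ = 0 := by
    rw [inner_cross, ChartAPI_det]
    ring
  have h2 : ⟪cross (M.N (c.X z)) (c.Xu z), M.N (c.X z)⟫ = 0 := by
    rw [inner_cross, ChartAPI_det]
    ring
  rw [h1, h2, inner_cross, zero_div, zero_smul, zero_smul, zero_add, add_zero] at h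
  exact h

theorem sign {M : Surf} {c : Chart} (hf : c.Fits M.S M.N M.μ) :
    Ori c M.N ∨ ∀ z ∈ ball (0 : ℂ) c.r, cross (M.N (c.X z)) (c.Xu z) = -c.Xv z := by
  have hN : ContinuousOn (fun z => M.N (c.X z)) (ball 0 c.r) :=
    M.N_cont.comp c.continuousOn_X fun w hw => hf.emb.mem hw
  have hp : ∀ {f : ℂ → E}, ContinuousOn f (ball 0 c.r) → ∀ i,
      ContinuousOn (fun z => f z i) (ball 0 c.r) := fun hf i =>
    (EuclideanSpace.proj i : E →L[ℝ] ℝ).continuous.comp_continuousOn hf
  have hu := hp c.analyticOnNhd_Xu.continuousOn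
  have hv := hp c.analyticOnNhd_Xv.continuousOn
  have hn := hp hN
  have hD : ContinuousOn (fun z => ChartAPI_det (c.Xu z) (c.Xv z) (M.N (c.X z))) (ball 0 c.r) :=
    (((((hu 1).mul (hv 2)).sub ((hu 2).mul (hv 1))).mul (hn 0)).add
      ((((hu 2).mul (hv 0)).sub ((hu 0).mul (hv 2))).mul (hn 1))).add
      ((((hu 0).mul (hv 1)).sub ((hu 1).mul (hv 0))).mul (hn 2))
  have h := (convex_ball (0 : ℂ) c.r).isPreconnected.eq_or_eq_neg_of_sq_eq hD c.continuousOn_jac
    (fun z hz => ChartAPI_det_sq (c.norm_Xu_sq hz) (c.norm_Xv_sq hz) (c.inner_Xu_Xv hz)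
      (M.N_unit _ (hf.emb.mem hz)) (hf.inner_Xu hz) (hf.inner_Xv hz))
    fun hz => (c.jac_pos hz).ne'
  rcases h with h | h
  · refine Or.inl fun z hz => ?_
    have h1 : ChartAPI_det (c.Xu z) (c.Xv z) (M.N (c.X z)) = c.jac z := h hz
    rw [cross_eq hf hz, h1, div_self (c.jac_pos hz).ne', one_smul]
  · refine Or.inr fun z hz => ?_
    have h1 : ChartAPI_det (c.Xu z) (c.Xv z) (M.N (c.X z)) = -c.jac z := h hz
    rw [cross_eq hf hz, h1, neg_div, div_self (c.jac_pos hz).ne', neg_one_smul]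

theorem conj_mem {r : ℝ} {z : ℂ} (hz : z ∈ ball (0 : ℂ) r) : conj z ∈ ball (0 : ℂ) r := by
  rwa [mem_ball_zero_iff, Complex.norm_conj, ← mem_ball_zero_iff]

theorem deriv_cc (f : ℂ → ℂ) (z : ℂ) :
    deriv (fun w => conj (f (conj w))) z = conj (deriv f (conj z)) :=
  congrFun (deriv_conj_conj (f := f)) z

/-- The chart with the opposite orientation. -/
def flip (c : Chart) : Chart where
  r := c.r
  Φ := fun i w => conj (c.Φ i (conj w))
  r_pos := c.r_pos
  hol := fun i z hz => by
    have h := ((c.hol i).differentiableAt (isOpen_ball.mem_nhds (conj_mem hz))).conj_conj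
    rw [Complex.conj_conj] at h
    exact h.differentiableWithinAt
  null := fun z hz => by
    have h := congrArg conj (c.null _ (conj_mem hz))
    rw [map_sum, map_zero] at h
    simpa only [deriv_cc, map_pow] using h
  ne := fun z hz => by
    obtain ⟨i, hi⟩ := c.ne _ (conj_mem hz)
    exact ⟨i, by rw [deriv_cc]; exact (map_ne_zero _).2 hi⟩

theorem flip_X (c : Chart) (z : ℂ) : (flip c).X z = c.X (conj z) := rfl

theorem flip_Xu (c : Chart) (z : ℂ) : (flip c).Xu z = c.Xu (conj z) := by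
  ext i
  simp only [Chart.Xu, flip, deriv_cc, Complex.conj_re]

theorem flip_Xv (c : Chart) (z : ℂ) : (flip c).Xv z = -c.Xv (conj z) := by
  ext i
  simp only [Chart.Xv, flip, deriv_cc, Complex.conj_im, PiLp.neg_apply]

theorem flip_jac (c : Chart) (z : ℂ) : (flip c).jac z = c.jac (conj z) := by
  simp only [Chart.jac, flip, deriv_cc, Complex.norm_conj]

theorem flip_fits {c : Chart} {S : Set E} {N : E → E} {μ : Measure E} (h : c.Fits S N μ) :
    (flip c).Fits S N μ := by
  have him : ∀ A : Set ℂ, (flip c).X '' A = c.X '' (Complex.conjLIE '' A) := fun A => by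
    rw [image_image]
    rfl
  have hsub : ∀ A : Set ℂ, A ⊆ ball 0 c.r → Complex.conjLIE '' A ⊆ ball 0 c.r := by
    rintro A hA _ ⟨w, hw, rfl⟩
    exact conj_mem (hA hw)
  have hme : MeasurableEmbedding Complex.conjLIE :=
    Complex.conjLIE.toHomeomorph.measurableEmbedding
  refine ⟨fun w hw w' hw' e => ?_, fun V hV hs => ?_, fun w hw => ?_, fun A hA hs => ?_⟩
  · exact (starRingEnd ℂ).injective (h.inj (conj_mem hw) (conj_mem hw') e)
  · rw [him]
    exact h.opn _ (Complex.conjLIE.toHomeomorph.isOpenMap V hV) (hsub V hs)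
  · rw [Chart.nrm_iff, flip_X, flip_Xu, flip_Xv, inner_neg_right, neg_eq_zero]
    exact ⟨h.inner_Xu (conj_mem hw), h.inner_Xv (conj_mem hw)⟩
  · rw [him, h.area _ (hme.measurableSet_image.2 hA) (hsub A hs),
      ← Complex.conjLIE.measurePreserving.setLIntegral_comp_emb hme]
    simp only [flip_jac]
    rfl

end OR

/-- Take a chart from `M.chart`. At each `z`, `cross n X_u = ± X_v` (`Chart.frame` applied to
`cross n X_u`, which is orthogonal to `n` and `X_u` and has squared norm `jac`). The function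
`⟪cross n X_u, X_v⟫ = ± jac` is continuous and nonzero on the ball (preconnected), so the sign is
constant. In the negative case use `Φ' i z = conj (Φ i (conj z))`: `X' z = X (conj z)`,
`deriv (Φ' i) z = conj (deriv (Φ i) (conj z))` (`HasDerivAt.conj_conj`, `deriv_conj_conj`),
`Xu' z = Xu (conj z)`, `Xv' z = -Xv (conj z)`, `jac' z = jac (conj z)`; `conj` is a measure
preserving homeomorphism of the ball (`Complex.conjLIE.measurePreserving`). -/
theorem ori : S_OR := by
  intro M x hx
  obtain ⟨c, hc, hf⟩ := M.chart x hx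
  rcases OR.sign hf with h | h
  · exact ⟨c, hc, hf, h⟩
  · refine ⟨OR.flip c, ?_, OR.flip_fits hf, fun z hz => ?_⟩
    · rw [OR.flip_X, map_zero, hc]
    · rw [OR.flip_X, OR.flip_Xu, OR.flip_Xv]
      exact h _ (OR.conj_mem hz)

end MW.S6
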