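import Pool.Agent.P.MP_064970_gt.S6.Bas

/-!
# Meeks–Wolf, section 6: sublinear growth and a covering lemma
-/

open MeasureTheory Set Filter Topology Metric Complex InnerProductSpace
open scoped RealInnerProductSpace ENNReal ComplexConjugate Real

noncomputable section

namespace MW.S6

namespace OSC

theorem line {g : ℂ → ℂ} {k : ℂ → ℝ} (hg : Continuous g) (hk : Continuous k)
    (h : ∀ z, ∀ ε : ℝ, 0 < ε → ∀ᶠ w in 𝓝 z, ‖g w - g z‖ ≤ (k z + ε) * ‖w - z‖) (w a : ℂ) :
    ‖g (w + a) - g w‖ ≤ ‖a‖ * ∫ τ in (0 : ℝ)..1, k (w + τ • a) := by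
  have hl : Continuous fun τ : ℝ => w + τ • a := by fun_prop
  have hc : Continuous fun τ : ℝ => k (w + τ • a) := hk.comp hl
  have hd : ∀ x : ℝ, HasDerivAt (fun τ : ℝ => ‖a‖ * ∫ s in (0 : ℝ)..τ, k (w + s • a))
      (‖a‖ * k (w + x • a)) x := fun x => (hc.integral_hasStrictDerivAt 0 x).hasDerivAt.const_mul _
  have h1 := image_le_of_liminf_slope_right_le_deriv_boundary
    (f := fun τ : ℝ => ‖g (w + τ • a) - g w‖) (a := 0) (b := 1)
    ((hg.comp hl).sub continuous_const).norm.continuousOn (by simp)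
    (fun x _ => (hd x).continuousAt.continuousWithinAt) (fun x _ => (hd x).hasDerivWithinAt)
    (fun x _ r hr => ?_) (x := 1) ⟨zero_le_one, le_rfl⟩
  · simpa using h1
  obtain ⟨ε, hε, hεr⟩ : ∃ ε : ℝ, 0 < ε ∧ (k (w + x • a) + ε) * ‖a‖ < r := by
    have h0 : 0 < ‖a‖ + 1 := by positivity
    refine ⟨(r - ‖a‖ * k (w + x • a)) / (‖a‖ + 1), div_pos (by linarith) h0, ?_⟩
    have h2 : (r - ‖a‖ * k (w + x • a)) / (‖a‖ + 1) * ‖a‖ < r - ‖a‖ * k (w + x • a) := by
      rw [div_mul_eq_mul_div, div_lt_iff₀ h0]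
      nlinarith
    linarith
  have h2 := ((hl.tendsto x).mono_left (nhdsWithin_le_nhds (s := Ioi x))).eventually (h _ ε hε)
  refine (Eventually.mono (h2.and self_mem_nhdsWithin) fun z hz => ?_).frequently
  have hz0 : 0 < z - x := sub_pos.2 hz.2
  have h3 : ‖w + z • a - (w + x • a)‖ = (z - x) * ‖a‖ := by
    rw [add_sub_add_left_eq_sub, ← sub_smul, norm_smul, Real.norm_eq_abs, abs_of_pos hz0]
  have h4 := norm_sub_norm_le (g (w + z • a) - g w) (g (w + x • a) - g w)
  rw [sub_sub_sub_cancel_right] at h4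
  have h5 := hz.1
  rw [h3] at h5
  rw [slope_def_field, div_lt_iff₀ hz0]
  nlinarith

theorem intOn {k : ℂ → ℝ} (hk : Continuous k) (c : ℂ) (r : ℝ) : IntegrableOn k (ball c r) :=
  (hk.continuousOn.integrableOn_compact (isCompact_closedBall c r)).mono_set ball_subset_closedBall

theorem shift {k : ℂ → ℝ} (hk : Continuous k) (h0 : ∀ z, 0 ≤ k z) (c : ℂ) {s r : ℝ}
    (h : s + ‖c‖ ≤ r) : ∫ w in ball (0 : ℂ) s, k (w + c) ≤ ∫ z in ball (0 : ℂ) r, k z := by
  have h1 := (measurePreserving_add_right volume c).setIntegral_preimage_emb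
    (measurableEmbedding_addRight c) k (ball c s)
  have h2 : (fun w => w + c) ⁻¹' ball c s = ball 0 s := by
    ext w
    simp
  rw [h2] at h1
  rw [h1]
  refine setIntegral_mono_set (intOn hk 0 r) (Eventually.of_forall h0)
    (LE.le.eventuallyLE (ball_subset_ball' ?_))
  rwa [dist_zero_right]

theorem avg {g : ℂ → ℂ} {k : ℂ → ℝ} (hg : LipschitzWith 1 g) (hk : Continuous k)
    (h0 : ∀ z, 0 ≤ k z)
    (h : ∀ z, ∀ ε : ℝ, 0 < ε → ∀ᶠ w in 𝓝 z, ‖g w - g z‖ ≤ (k z + ε) * ‖w - z‖) (a : ℂ) {s : ℝ}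
    (hs : 0 ≤ s) (hsa : s ≤ ‖a‖) :
    π * s ^ 2 * (‖g a - g 0‖ - 2 * s) ≤ ‖a‖ * ∫ z in ball (0 : ℂ) (2 * ‖a‖), k z := by
  have hF : Continuous fun q : ℝ × ℂ => k (q.2 + q.1 • a) := hk.comp (by fun_prop)
  have hI : Integrable (Function.uncurry fun (τ : ℝ) (w : ℂ) => k (w + τ • a))
      ((volume.restrict (uIoc (0 : ℝ) 1)).prod (volume.restrict (ball (0 : ℂ) s))) := by
    rw [Measure.prod_restrict]
    exact (hF.continuousOn.integrableOn_compact
      (isCompact_uIcc.prod (isCompact_closedBall (0 : ℂ) s))).mono_set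
      (prod_mono uIoc_subset_uIcc ball_subset_closedBall)
  have hc : Continuous fun w : ℂ => ∫ τ in (0 : ℝ)..1, k (w + τ • a) :=
    intervalIntegral.continuous_parametric_intervalIntegral_of_continuous'
      (f := fun (w : ℂ) (τ : ℝ) => k (w + τ • a)) (hk.comp (by fun_prop)) 0 1
  have h1 : ∫ _ in ball (0 : ℂ) s, (‖g a - g 0‖ - 2 * s)
      ≤ ∫ w in ball (0 : ℂ) s, ‖a‖ * ∫ τ in (0 : ℝ)..1, k (w + τ • a) := by
    refine setIntegral_mono_on (intOn continuous_const 0 s) (intOn (hc.const_mul _) 0 s)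
      measurableSet_ball fun w hw => le_trans ?_ (line hg.continuous hk h w a)
    have h2 := hg.dist_le_mul (w + a) a
    have h3 := hg.dist_le_mul w 0
    have h4 := dist_triangle4 (g a) (g (w + a)) (g w) (g 0)
    have h5 : ‖w‖ < s := mem_ball_zero_iff.1 hw
    rw [dist_comm (g a) (g (w + a)), dist_eq_norm (g a), dist_eq_norm (g (w + a)) (g w)] at h4
    simp only [NNReal.coe_one, one_mul, dist_add_self_left, dist_zero_right] at h2 h3
    linarith
  have h2 : (volume : Measure ℂ).real (ball 0 s) = π * s ^ 2 := by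
    simp [Measure.real, Complex.volume_ball, ENNReal.toReal_ofReal hs, mul_comm]
  rw [setIntegral_const, h2, smul_eq_mul, integral_const_mul,
    ← intervalIntegral_integral_swap hI] at h1
  refine h1.trans (mul_le_mul_of_nonneg_left ?_ (norm_nonneg _))
  have h3 := intervalIntegral.integral_mono_on (μ := volume) zero_le_one
    (f := fun τ : ℝ => ∫ w in ball (0 : ℂ) s, k (w + τ • a))
    (g := fun _ => ∫ z in ball (0 : ℂ) (2 * ‖a‖), k z)
    (intervalIntegrable_iff.2 hI.integral_prod_left) intervalIntegrable_const fun τ hτ => by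
      refine shift hk h0 _ ?_
      rw [norm_smul, Real.norm_eq_abs, abs_of_nonneg hτ.1]
      nlinarith [hτ.2, norm_nonneg a]
  simpa using h3

end OSC

/-- Step 1: `‖g (w + a) - g w‖ ≤ ‖a‖ ∫ τ in 0..1, k (w + τ a)` by
`image_le_of_liminf_slope_right_le_deriv_boundary` (or the `lt` version with an `ε`) applied to
`τ ↦ ‖g (w + τ a) - g w‖`. Step 2: with `s = ε' ‖a‖`, average over `w ∈ ball 0 s`:
`π s² (‖g a - g 0‖ - 2 s) ≤ ‖a‖ ∫ τ, ∫ w in ball 0 s, k (w + τ a) ≤ ‖a‖ ∫ z in ball 0 (2‖a‖), k z`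
(Fubini for a continuous function, translation invariance). -/
theorem osc : S_OSC := by
  intro g k hg hk h0 h hm ε hε
  obtain ⟨e, he, he1, heε⟩ : ∃ e : ℝ, 0 < e ∧ e ≤ 1 ∧ 5 * e ≤ ε :=
    ⟨min 1 (ε / 5), lt_min one_pos (by positivity), min_le_left _ _, by
      have := min_le_right 1 (ε / 5)
      linarith⟩
  obtain ⟨R, hR⟩ := hm (e ^ 3) (by positivity)
  refine ⟨|R| + ‖g 0‖ / e + 1, fun a ha => ?_⟩
  have h1 : 0 ≤ ‖g 0‖ / e := by positivity
  have h2 := le_abs_self R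
  have h3 := abs_nonneg R
  have ha0 : 0 < ‖a‖ := by linarith
  have h4 : ‖g 0‖ ≤ e * ‖a‖ := by
    rw [mul_comm, ← div_le_iff₀ he]
    linarith
  have h5 := (OSC.avg hg hk h0 h a (s := e * ‖a‖) (by positivity) (by nlinarith)).trans
    (mul_le_mul_of_nonneg_left (hR _ (by linarith)) ha0.le)
  have h6 : ‖g a - g 0‖ - 2 * (e * ‖a‖) ≤ 2 * (e * ‖a‖) := by
    by_contra h7
    push Not at h7
    have h8 : 0 < (e * ‖a‖) ^ 2 := by positivity
    have h9 : 0 < e * ‖a‖ := by positivity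
    have h10 : 2 * (e * ‖a‖) ^ 2 ≤ π * (e * ‖a‖) ^ 2 :=
      mul_le_mul_of_nonneg_right Real.two_le_pi h8.le
    have h11 : 2 * (e * ‖a‖) ^ 2 * (2 * (e * ‖a‖))
        < π * (e * ‖a‖) ^ 2 * (‖g a - g 0‖ - 2 * (e * ‖a‖)) :=
      mul_lt_mul' h10 h7 (by positivity) (by linarith)
    nlinarith
  have h7 := norm_le_norm_sub_add (g a) (g 0)
  have h8 : 5 * e * ‖a‖ ≤ ε * ‖a‖ := mul_le_mul_of_nonneg_right heε ha0.le
  linarith

/-- `Vitali.exists_disjoint_subfamily_covering_enlargement_ball` with `τ = 4`; the subfamily is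
countable (`PairwiseDisjoint.countable_of_isOpen`); `Complex.volume_ball`; `measure_biUnion`. -/
theorem vit : S_VIT := by
  intro A T ν c B hc h
  choose! b hb0 hbB hbT hbν using h
  obtain ⟨u, huA, hud, hcov⟩ :=
    Vitali.exists_disjoint_subfamily_covering_enlargement_ball A id b B hbB 4 (by norm_num)
  have huc : u.Countable := hud.countable_of_isOpen (fun _ _ => isOpen_ball)
    fun y hy => nonempty_ball.2 (hb0 y (huA hy))
  have h1 : A ⊆ ⋃ y ∈ u, ball y (4 * b y) := fun a ha => by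
    obtain ⟨y, hy, hay⟩ := hcov a ha
    exact mem_biUnion hy (hay (mem_ball_self (hb0 a ha)))
  have h2 : ∀ y : u, volume (ball (y : ℂ) (4 * b y))
      ≤ ENNReal.ofReal (16 * π / c) * ν (ball (y : ℂ) (b y)) := fun y => by
    have hy := huA y.2
    have h3 := hb0 y hy
    have h4 := Real.pi_pos
    refine le_trans (le_of_eq ?_) (mul_le_mul_right (hbν y hy) _)
    rw [Complex.volume_ball, ← ENNReal.ofReal_mul (by positivity),
      ← ENNReal.ofReal_pow (by positivity), ← ENNReal.ofReal_coe_nnreal, NNReal.coe_real_pi,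
      ← ENNReal.ofReal_mul (by positivity)]
    congr 1
    field_simp
    ring
  calc volume A ≤ ∑' y : u, volume (ball (y : ℂ) (4 * b y)) :=
        (measure_mono h1).trans (measure_biUnion_le _ huc _)
    _ ≤ ∑' y : u, ENNReal.ofReal (16 * π / c) * ν (ball (y : ℂ) (b y)) :=
        ENNReal.tsum_le_tsum h2
    _ = ENNReal.ofReal (16 * π / c) * ν (⋃ y ∈ u, ball y (b y)) := by
        rw [ENNReal.tsum_mul_left]
        exact congrArg _ (measure_biUnion huc hud fun _ _ => measurableSet_ball).symm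
    _ ≤ _ := mul_le_mul_right (measure_mono (iUnion₂_subset fun y hy => hbT y (huA hy))) _

end MW.S6
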