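import Pool.Agent.P.MP_064970_gt.S6.Bas

/-!
# Meeks–Wolf, section 6: the area in the conformal coordinate
-/

open MeasureTheory Set Filter Topology Metric Complex InnerProductSpace
open scoped RealInnerProductSpace ENNReal ComplexConjugate Real

noncomputable section

namespace MW.S6

namespace PUSH

theorem det_mul (a : ℂ) :
    ((ContinuousLinearMap.toSpanSingleton ℂ a).restrictScalars ℝ).det = ‖a‖ ^ 2 := by
  unfold ContinuousLinearMap.det
  rw [← LinearMap.det_toMatrix Complex.basisOneI, Matrix.det_fin_two, Complex.sq_norm,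
    Complex.normSq_apply]
  simp [LinearMap.toMatrix_apply]

variable {M : Surf} {u : ℂ → ℝ} {V η : ℂ → ℂ}

/-- The push-forward measure. -/
def nu (M : Surf) (V : ℂ → ℂ) : Measure ℂ :=
  ((M.μ.restrict {x : E | 0 < x 2}).withDensity
    fun x => ENNReal.ofReal ((1 + M.N x 2) ^ 2)).map (TT V)

theorem meas_rho (M : Surf) : Measurable fun x : E => ENNReal.ofReal ((1 + M.N x 2) ^ 2) :=
  ((measurable_const.add ((continuous_coord 2).measurable.comp M.N_meas)).pow_const 2).ennreal_ofReal

theorem ms_up : MeasurableSet {x : E | 0 < x 2} :=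
  (isOpen_lt continuous_const (continuous_coord 2)).measurableSet

theorem nu_apply (h : NB M u V η) {B : Set ℂ} (hB : MeasurableSet B) :
    nu M V B = ∫⁻ x in (TT V ⁻¹' B ∩ {x : E | 0 < x 2}) ∩ M.S,
      ENNReal.ofReal ((1 + M.N x 2) ^ 2) ∂M.μ := by
  have hT := h.continuous_TT.measurable
  rw [nu, Measure.map_apply hT hB, withDensity_apply _ (hT hB), Measure.restrict_restrict (hT hB),
    ← Measure.restrict_restrict ((hT hB).inter ms_up), M.restrict_S]

theorem local_eq (h : NB M u V η) {c : Chart} {k : ℂ} (hf : c.Fits M.S M.N M.μ) (ho : Ori c M.N)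
    (hT : ∀ w ∈ ball (0 : ℂ) c.r, TT V (c.X w) = c.Φ 0 w + I * c.Φ 1 w + k)
    (hp : ∀ w ∈ ball (0 : ℂ) c.r, 0 < c.X w 2) {B : Set ℂ} (hB : MeasurableSet B)
    (hBs : ∀ z ∈ B, lift u (η z) ∈ c.X '' ball 0 c.r) : volume B = nu M V B := by
  classical
  have hcont : ContinuousOn (fun w => TT V (c.X w)) (ball 0 c.r) :=
    h.continuous_TT.comp_continuousOn c.continuousOn_X
  have hpw : Measurable ((ball (0 : ℂ) c.r).piecewise (fun w => TT V (c.X w)) fun _ => 0) :=
    hcont.measurable_piecewise continuousOn_const measurableSet_ball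
  set A : Set ℂ := {w | w ∈ ball (0 : ℂ) c.r ∧ TT V (c.X w) ∈ B} with hA
  have hAr : A ⊆ ball 0 c.r := fun w hw => hw.1
  have hAm : MeasurableSet A := by
    have e : A = ball (0 : ℂ) c.r ∩
        ((ball (0 : ℂ) c.r).piecewise (fun w => TT V (c.X w)) fun _ => 0) ⁻¹' B := by
      ext w
      refine and_congr_right fun hw => ?_
      rw [mem_preimage, piecewise_eq_of_mem _ _ _ hw]
    rw [e]
    exact measurableSet_ball.inter (hpw hB)
  have hder : ∀ w ∈ A, HasFDerivWithinAt (fun w => TT V (c.X w))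
      ((ContinuousLinearMap.toSpanSingleton ℂ
        (deriv (c.Φ 0) w + I * deriv (c.Φ 1) w)).restrictScalars ℝ) A w := by
    intro w hw
    have d0 := (chart_analyticAt c 0 hw.1).differentiableAt.hasDerivAt
    have d1 := (chart_analyticAt c 1 hw.1).differentiableAt.hasDerivAt
    have d2 : HasDerivAt (fun w => c.Φ 0 w + I * c.Φ 1 w + k)
        (deriv (c.Φ 0) w + I * deriv (c.Φ 1) w) w := (d0.add (d1.const_mul I)).add_const k
    exact ((d2.hasFDerivAt.restrictScalars ℝ).hasFDerivWithinAt).congr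
      (fun y hy => hT y hy.1) (hT w hw.1)
  have hinj : InjOn (fun w => TT V (c.X w)) A := by
    intro w hw w' hw' e
    refine hf.inj hw.1 hw'.1 ?_
    have e' : TT V (c.X w) = TT V (c.X w') := e
    rw [← h.lift_TT (hf.emb.mem hw.1) (hp w hw.1).le, e',
      h.lift_TT (hf.emb.mem hw'.1) (hp w' hw'.1).le]
  have him : (fun w => TT V (c.X w)) '' A = B := by
    refine Subset.antisymm ?_ fun z hz => ?_
    · rintro _ ⟨w, hw, rfl⟩
      exact hw.2
    · obtain ⟨w, hw, e⟩ := hBs z hz
      have e' : TT V (c.X w) = z := by rw [e, h.TT_lift]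
      exact ⟨w, ⟨hw, e' ▸ hz⟩, e'⟩
  have him' : (TT V ⁻¹' B ∩ {x : E | 0 < x 2}) ∩ M.S = c.X '' A := by
    refine Subset.antisymm ?_ ?_
    · rintro x ⟨⟨hx1, hx2⟩, hx3⟩
      obtain ⟨w, hw, e⟩ := hBs _ hx1
      rw [h.lift_TT hx3 (le_of_lt hx2)] at e
      exact ⟨w, ⟨hw, e ▸ hx1⟩, e⟩
    · rintro _ ⟨w, hw, rfl⟩
      exact ⟨⟨hw.2, hp w hw.1⟩, hf.emb.mem hw.1⟩
  rw [nu_apply h hB, him', hf.lintegral hAm hAr (meas_rho M), ← him,
    ← lintegral_abs_det_fderiv_eq_addHaar_image volume hAm hder hinj]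
  refine setLIntegral_congr_fun hAm fun w hw => ?_
  simp only
  rw [det_mul, abs_of_nonneg (sq_nonneg _), ho.norm_sq_add hf hw.1,
    ENNReal.ofReal_mul (sq_nonneg _)]

theorem restrict_eq (hL : S_LOC) (h : NB M u V η) :
    volume.restrict (PL.Om (UU u η)) = nu M V := by
  have hγ : Continuous fun z => lift u (η z) := h.gr.continuous_lift.comp h.continuous_η
  have hloc : ∀ z ∈ PL.Om (UU u η), ∃ O : Set ℂ, O ∈ 𝓝[PL.Om (UU u η)] z ∧
      O ⊆ PL.Om (UU u η) ∧ volume.restrict O = (nu M V).restrict O := by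
    intro z hz
    have hz' : 0 < lift u (η z) 2 := by rw [lift_two]; exact hz
    obtain ⟨c, k, hc0, hf, ho, hT, hp⟩ := hL M u V η h _ (h.mem_Cl hz) hz'.le
    have hp' := hp hz'
    have hOm : MeasurableSet ((fun z => lift u (η z)) ⁻¹' (c.X '' ball 0 c.r)) :=
      hγ.measurable (hf.emb.measurableSet_image measurableSet_ball subset_rfl)
    refine ⟨(fun z => lift u (η z)) ⁻¹' (c.X '' ball 0 c.r), ?_, ?_, ?_⟩
    · obtain ⟨W, hW, e⟩ := hf.opn _ isOpen_ball subset_rfl
      have h1 : lift u (η z) ∈ M.S ∩ W := by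
        rw [← e, ← hc0]
        exact mem_image_of_mem _ (mem_ball_self c.r_pos)
      refine mem_nhdsWithin.2 ⟨_, hW.preimage hγ, h1.2, fun z' hz' => ?_⟩
      rw [e]
      exact ⟨h.mem_Cl hz'.2, hz'.1⟩
    · rintro z' ⟨w, hw, e⟩
      have h1 := hp' w hw
      rw [e, lift_two] at h1
      exact h1
    · ext B hB
      rw [Measure.restrict_apply hB, Measure.restrict_apply hB]
      exact local_eq h hf ho (fun w hw => hT w hw (hp' w hw).le) hp' (hB.inter hOm)
        fun z' hz' => hz'.2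
  choose! O hO1 hO2 hO3 using hloc
  obtain ⟨t, hts, htc, hcov⟩ := TopologicalSpace.countable_cover_nhdsWithin hO1
  have e : PL.Om (UU u η) = ⋃ z ∈ t, O z :=
    Subset.antisymm hcov (iUnion₂_subset fun z hz => hO2 z (hts hz))
  have h1 : (nu M V).restrict (PL.Om (UU u η)) = nu M V := by
    refine Measure.restrict_eq_self_of_ae_mem ?_
    have h2 : nu M V (PL.Om (UU u η))ᶜ = 0 := by
      rw [nu_apply h h.isOpen_Om.measurableSet.compl]
      have h3 : (TT V ⁻¹' (PL.Om (UU u η))ᶜ ∩ {x : E | 0 < x 2}) ∩ M.S = ∅ := by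
        refine eq_empty_of_forall_notMem ?_
        rintro x ⟨⟨hx1, hx2⟩, hx3⟩
        refine hx1 ?_
        change 0 < UU u η (TT V x)
        rw [h.UU_TT hx3 (le_of_lt hx2)]
        exact hx2
      rw [h3]
      simp
    exact h2
  rw [← h1, e]
  exact (Measure.restrict_biUnion_congr htc).2 fun z hz => hO3 z (hts hz)

end PUSH

/-- Show `volume.restrict Om = map (TT V) ((μ.restrict {0 < x 2}).withDensity (1 + N 2)²)`. Both are
concentrated on `Om`. Each `z ∈ Om` has the open neighbourhood `Ψ '' ball` with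
`Ψ = Φ 0 + I Φ 1 + k = TT V ∘ X` on the ball of the chart of `S_LOC` (injective since `TT V` is
injective on the upper half, `NB.lift_TT`; `z' ∈ Ψ '' ball ↔ lift u (η z') ∈ X '' ball`, open by
`Fits.opn`). For a measurable `B` in it, with `A = ball ∩ Ψ ⁻¹' B`:
`lintegral_abs_det_fderiv_eq_addHaar_image`, determinant `‖Ψ'‖²`
(`Complex.det_restrictScalars`-type lemma or `Algebra.norm_complex`), `Ori.norm_sq_add`,
`Fits.lintegral`. Countable subcover (`TopologicalSpace.countable_cover_nhdsWithin`,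
`Measure.restrict_biUnion_congr` or `disjointed`). -/
theorem push_of (hL : S_LOC) : S_PUSH := by
  intro M u V η h F hF
  have hT := h.continuous_TT.measurable
  rw [PUSH.restrict_eq hL h, PUSH.nu, lintegral_map hF hT,
    lintegral_withDensity_eq_lintegral_mul _ (PUSH.meas_rho M)
      (g := fun x => F (TT V x)) (hF.comp hT)]
  refine lintegral_congr fun x => ?_
  simp only [Pi.mul_apply]
  ring

end MW.S6
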