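import Pool.Agent.P.MP_064970_gt.S6.Bas

/-!
# Meeks–Wolf, section 6: the data of the planar theorem
-/

open MeasureTheory Set Filter Topology Metric Complex InnerProductSpace
open scoped RealInnerProductSpace ENNReal ComplexConjugate Real

noncomputable section

namespace MW.S6

namespace REST

/-- A nonnegative function with gradient at most one where it is positive is Lipschitz. -/
theorem lip (hM : S_MONO1) {U : ℂ → ℝ} (hc : Continuous U) (h0 : ∀ z, 0 ≤ U z)
    (hd : ∀ z, 0 < U z → HarmonicAt U z ∧ ‖AN.D U z‖ ≤ 1) : LipschitzWith 1 U := by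
  refine LipschitzWith.of_le_add fun z z' => ?_
  have hl : Continuous fun τ : ℝ => z + τ * (z' - z) := by fun_prop
  have hm := hM (fun τ : ℝ => ‖z' - z‖ * τ + U (z + τ * (z' - z)))
    {τ : ℝ | 0 < U (z + τ * (z' - z))} ((continuous_const.mul continuous_id).add (hc.comp hl))
    (isOpen_lt continuous_const (hc.comp hl)) ?_ ?_
  · have h1 := hm (zero_le_one : (0 : ℝ) ≤ 1)
    simp only [mul_zero, ofReal_zero, zero_mul, add_zero, zero_add, mul_one, ofReal_one, one_mul,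
      add_sub_cancel] at h1
    rw [dist_comm, dist_eq_norm]
    linarith
  · intro τ hτ
    obtain ⟨h1, h2⟩ := hd _ hτ
    have h3 : HasDerivAt (fun τ : ℝ => z + τ * (z' - z)) (z' - z) τ := by
      simpa using ((ofRealCLM.hasDerivAt (x := τ)).mul_const (z' - z)).const_add z
    have h4 := (AN.harm_diff h1).hasFDerivAt.comp_hasDerivAt τ h3
    rw [AN.fderiv_eq_re_D] at h4
    refine ⟨‖z' - z‖ * 1 + (AN.D U (z + τ * (z' - z)) * (z' - z)).re, ?_,
      ((hasDerivAt_id τ).const_mul _).add h4⟩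
    have h5 := (abs_le.1 (Complex.abs_re_le_norm (AN.D U (z + τ * (z' - z)) * (z' - z)))).1
    rw [norm_mul] at h5
    nlinarith [norm_nonneg (z' - z)]
  · intro τ₀ hτ₀
    filter_upwards [self_mem_nhdsWithin] with τ hτ _
    have h1 : U (z + τ₀ * (z' - z)) ≤ 0 := not_lt.1 hτ₀
    have h2 := h0 (z + τ * (z' - z))
    have h3 := mul_le_mul_of_nonneg_left (le_of_lt hτ) (norm_nonneg (z' - z))
    linarith

/-- The height is sublinear in the conformal coordinate. -/
theorem sub {M : Surf} {u : ℂ → ℝ} {V η : ℂ → ℂ} (h : II0 M) (hb : NB M u V η) (ε : ℝ)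
    (hε : 0 < ε) : ∃ R : ℝ, ∀ z : ℂ, R ≤ ‖z‖ → UU u η z ≤ ε * ‖z‖ := by
  have h1 : 0 < min (ε / 4) (1 / 2) := lt_min (by positivity) (by norm_num)
  obtain ⟨R, hR⟩ := h.d1 _ h1
  refine ⟨max ‖η 0‖ (R / ε), fun z hz => ?_⟩
  have hz1 : ‖η 0‖ ≤ ‖z‖ := (le_max_left _ _).trans hz
  have hz2 : R ≤ ε * ‖z‖ := by
    have := (div_le_iff₀ hε).1 ((le_max_right _ _).trans hz)
    linarith
  rcases (hb.UU_nonneg z).eq_or_lt with h0 | h0
  · rw [← h0]
    positivity
  have hx : lift u (η z) ∈ M.S := hb.mem_Cl h0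
  have h2 : |lift u (η z) 2| = UU u η z := abs_of_pos h0
  rcases le_or_gt R ‖lift u (η z)‖ with h3 | h3
  · have h4 := hR _ hx h3
    have h5 := norm_le_pr_add (lift u (η z))
    rw [h2] at h4 h5
    have h6 : ‖pr (lift u (η z))‖ ≤ 2 * ‖z‖ := by
      have k1 := hb.norm_sub_le z 0
      have k2 := norm_sub_norm_le (η z) (η 0)
      rw [sub_zero] at k1
      change ‖η z‖ ≤ _
      linarith
    have h7 := min_le_left (ε / 4) (1 / 2)
    have h8 := min_le_right (ε / 4) (1 / 2)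
    have h9 := mul_le_mul_of_nonneg_left (h5.trans (add_le_add_left h6 _)) h1.le
    have k3 := mul_le_mul_of_nonneg_right h7 (norm_nonneg z)
    have k4 := mul_le_mul_of_nonneg_right h8 h0.le
    nlinarith
  · have h4 := abs_two_le (lift u (η z))
    rw [h2] at h4
    linarith

end REST

/-- `lip`: for `z, w` apply `S_MONO1` to `τ ↦ ‖w‖ τ ± UU (z + τ w)` with `G = {0 < UU}`
(`AN.fderiv_eq_re_D`, `AN.harm_diff`, `‖hh‖ ≤ 1`). `sub`: `d1`, `‖η z‖ ≤ ‖z‖ + ‖η 0‖`,
`norm_le_pr_add`. `ne`: `TT V x` for the point of `II0.ne`. -/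
theorem rest_of (hH : S_HOL) (hh' : S_HH) (hN : S_NULL) (hM : S_MONO1) : S_REST := by
  intro M u V η h hb hg
  obtain ⟨k1, k2, k3, k4, k5, k6⟩ := hh' M u V η hb
  have hd := hH M u V η hb
  refine ⟨REST.lip hM hb.continuous_UU hb.UU_nonneg fun z hz => ⟨(hd z hz).1, ?_⟩, hb.UU_nonneg,
    fun z hz => (hd z hz).1, fun z hz => (hd z hz).2.1, k1, k2, fun z hz => ?_, ?_,
    fun z hz => ?_, ?_, ?_, fun ε hε => REST.sub h hb ε hε, hg⟩
  · rw [← (hd z hz).2.1]
    exact k2 z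
  · exact hh_of_notMem (k5 ▸ hz)
  · rwa [k5]
  · rw [k6] at hz
    exact k4 z hz.1 hz.2
  · rw [k6]
    exact (hN M u V η hb).1
  · obtain ⟨x, hx, h0⟩ := h.ne
    rw [k6]
    exact ⟨TT V x, hb.TT_mem hx h0.ge, (hb.UU_TT hx h0.ge).trans h0⟩

end MW.S6
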