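import Pool.Agent.P.MP_064970_gt.S6.Bas

/-!
# Meeks–Wolf, section 6: three lemmas of calculus
-/

open MeasureTheory Set Filter Topology Metric Complex InnerProductSpace
open scoped RealInnerProductSpace ENNReal ComplexConjugate Real

noncomputable section

namespace MW.S6

theorem tang : S_TANG := fun M L A γ P q hq hA hc hP => by
  have hx := (hP q hq).1
  set n := M.N (γ q) with hn
  have hn1 : ‖n‖ = 1 := M.N_unit _ hx
  set m := n - A (L n) with hm
  have ht : Tendsto γ (𝓝[P] q) (𝓝[M.S] (γ q)) :=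
    hc.tendsto_nhdsWithin fun q' hq' => (hP q' hq').1
  have key : ∀ q' ∈ P, γ q' - γ q - A (q' - q) = ⟪γ q' - γ q, n⟫ • m := fun q' hq' => by
    have h1 := hA (γ q' - γ q - ⟪γ q' - γ q, n⟫ • n) (by
      rw [inner_sub_left, real_inner_smul_left, real_inner_self_eq_norm_sq, hn1]; ring)
    rw [map_sub L, map_sub L, (hP q' hq').2, (hP q hq).2, map_smul, map_sub A, map_smul] at h1
    rw [hm, smul_sub, sub_eq_iff_eq_add.1 h1]
    abel
  rw [hasFDerivWithinAt_iff_isLittleO, Asymptotics.isLittleO_iff]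
  intro ε hε
  have hm0 := norm_nonneg m
  have hA0 := norm_nonneg A
  set δ := min (1 / (2 * (‖m‖ + 1))) (ε / (2 * (‖m‖ + 1) * (‖A‖ + 1))) with hδ
  have hδ0 : 0 < δ := lt_min (by positivity) (by positivity)
  have hδ1 : δ * (‖m‖ + 1) ≤ 1 / 2 := by
    have := min_le_left (1 / (2 * (‖m‖ + 1))) (ε / (2 * (‖m‖ + 1) * (‖A‖ + 1)))
    rw [← hδ, le_div_iff₀ (by positivity)] at this
    linarith
  have hδ2 : δ * (2 * (‖m‖ + 1) * (‖A‖ + 1)) ≤ ε :=
    (le_div_iff₀ (by positivity)).1 (min_le_right _ _)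
  filter_upwards [ht.eventually (M.eventually_inner_le hx hδ0), self_mem_nhdsWithin] with q' h1 h2
  have h3 : ‖γ q' - γ q - A (q' - q)‖ ≤ δ * (‖m‖ + 1) * ‖γ q' - γ q‖ := by
    rw [key q' h2, norm_smul, Real.norm_eq_abs]
    have := mul_le_mul_of_nonneg_right h1 hm0
    have := mul_nonneg hδ0.le (norm_nonneg (γ q' - γ q))
    nlinarith
  have h4 : ‖γ q' - γ q‖ ≤ ‖γ q' - γ q - A (q' - q)‖ + ‖A‖ * ‖q' - q‖ :=
    (norm_le_norm_sub_add _ _).trans (add_le_add_right (A.le_opNorm _) _)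
  have h5 := norm_nonneg (γ q' - γ q)
  have h6 := norm_nonneg (q' - q)
  have h7 : ‖γ q' - γ q‖ ≤ 2 * (‖A‖ + 1) * ‖q' - q‖ := by nlinarith
  calc _ ≤ δ * (‖m‖ + 1) * ‖γ q' - γ q‖ := h3
    _ ≤ δ * (‖m‖ + 1) * (2 * (‖A‖ + 1) * ‖q' - q‖) := by gcongr
    _ = δ * (2 * (‖m‖ + 1) * (‖A‖ + 1)) * ‖q' - q‖ := by ring
    _ ≤ ε * ‖q' - q‖ := by gcongr

theorem mono1 : S_MONO1 := fun φ G hφ hG hd h0 a b hab => by
  have seg : ∀ s t, s ≤ t → Ioo s t ⊆ G → φ s ≤ φ t := fun s t hst hs => by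
    refine monotoneOn_of_deriv_nonneg (convex_Icc s t) hφ.continuousOn ?_ ?_
      (left_mem_Icc.2 hst) (right_mem_Icc.2 hst) hst
    · rw [interior_Icc]
      exact fun x hx => (hd x (hs hx)).choose_spec.2.differentiableAt.differentiableWithinAt
    · rw [interior_Icc]
      intro x hx
      obtain ⟨d, h1, h2⟩ := hd x (hs hx)
      rwa [h2.deriv]
  have hcl : IsClosed ({τ | φ a ≤ φ τ} ∩ Icc a b) :=
    (isClosed_le continuous_const hφ).inter isClosed_Icc
  refine hcl.Icc_subset_of_forall_exists_gt (le_refl (φ a)) (fun x hx y hy => ?_)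
    (right_mem_Icc.2 hab)
  have hx1 : φ a ≤ φ x := hx.1
  by_cases hxG : x ∈ G
  · obtain ⟨c, hc, hcs⟩ := mem_nhdsGT_iff_exists_Ioo_subset.1
      (mem_nhdsWithin_of_mem_nhds (hG.mem_nhds hxG))
    refine ⟨min c y, hx1.trans (seg _ _ (lt_min hc hy).le
      ((Ioo_subset_Ioo_right (min_le_left _ _)).trans hcs)), lt_min hc hy, min_le_right _ _⟩
  · obtain ⟨c, hc, hcs⟩ := mem_nhdsGT_iff_exists_Ioc_subset.1 (h0 x hxG)
    have hlt : x < min c y := lt_min hc hy
    refine ⟨min c y, ?_, hlt, min_le_right _ _⟩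
    have hK : IsCompact (Icc x (min c y) \ G) := isCompact_Icc.diff hG
    obtain ⟨τ, ⟨hτ1, hτ2⟩, hτ⟩ := hK.exists_isGreatest ⟨x, left_mem_Icc.2 hlt.le, hxG⟩
    have h1 : φ x ≤ φ τ := by
      rcases hτ1.1.eq_or_lt with h | h
      · rw [h]
      · exact hcs ⟨h, hτ1.2.trans (min_le_left _ _)⟩ hτ2
    refine hx1.trans (h1.trans (seg _ _ hτ1.2 fun σ hσ => ?_))
    by_contra hσG
    exact (hτ ⟨⟨hτ1.1.trans hσ.1.le, hσ.2.le⟩, hσG⟩).not_gt hσ.1

namespace RL

theorem onto {f : ℝ → ℝ} (hc : Continuous f) (h : ∀ s t, (s - t) ^ 2 ≤ (f s - f t) * (s - t)) :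
    StrictMono f ∧ Function.Surjective f := by
  have h1 : ∀ s t, t < s → s - t ≤ f s - f t := fun s t hst => by
    have := h s t
    rw [sq] at this
    exact le_of_mul_le_mul_right this (sub_pos.2 hst)
  refine ⟨fun s t hst => by linarith [h1 t s hst], hc.surjective ?_ ?_⟩
  · refine tendsto_atTop_mono' _ ?_ (tendsto_atTop_add_const_right _ (f 0) tendsto_id)
    filter_upwards [eventually_gt_atTop 0] with s hs
    have := h1 s 0 hs
    simp only [id]; linarith
  · refine tendsto_atBot_mono' _ ?_ (tendsto_atBot_add_const_right _ (f 0) tendsto_id)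
    filter_upwards [eventually_lt_atBot 0] with s hs
    have := h1 0 s hs
    simp only [id]; linarith

end RL

theorem surj : S_SURJ := fun ξ hc h c => by
  have h1 : ∀ a : ℝ, StrictMono (fun b : ℝ => (ξ (a + b * I)).im) ∧
      Function.Surjective fun b : ℝ => (ξ (a + b * I)).im := fun a =>
    RL.onto (by fun_prop) fun s t => by
      have := h (a + s * I) (a + t * I)
      rw [inner_complex, Complex.sq_norm, Complex.normSq_apply] at this
      simp at this
      nlinarith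
  choose b hb using fun a => (h1 a).2 c.im
  have hbc : Continuous b := continuous_of_strictMono
    (g := fun a b : ℝ => (ξ (a + b * I)).im - c.im) (fun b => by fun_prop)
    (fun a s t hst => sub_lt_sub_right ((h1 a).1 hst) _) fun a => sub_eq_zero.2 (hb a)
  have h2 := RL.onto (f := fun a : ℝ => (ξ (a + b a * I)).re) (by fun_prop) fun s t => by
    have := h (s + b s * I) (t + b t * I)
    rw [inner_complex, Complex.sq_norm, Complex.normSq_apply] at this
    have e1 : (ξ (s + b s * I)).im = c.im := hb s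
    have e2 : (ξ (t + b t * I)).im = c.im := hb t
    simp [e1, e2] at this
    nlinarith [mul_self_nonneg (b s - b t)]
  obtain ⟨a, ha⟩ := h2.2 c.re
  exact ⟨_, Complex.ext ha (hb a)⟩

end MW.S6
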