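import Pool.Agent.P.MP_064970_gt.S6.Bas

/-!
# Meeks–Wolf, section 6: horizontal slices of the quarter
-/

open MeasureTheory Set Filter Topology Metric Complex InnerProductSpace
open scoped RealInnerProductSpace ENNReal ComplexConjugate Real

noncomputable section

namespace MW.S6

namespace SL1

variable {M : Surf} {i : Fin 3}

theorem abs_coord_le (x : E) (i : Fin 3) : |x i| ≤ ‖x‖ := by
  have h := abs_real_inner_le_norm x (ee i)
  rwa [inner_ee, norm_ee, mul_one] at h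

theorem ray_self {o : E} (ho : o i = 0) (σ : ℝ) : (o + σ • ee i) i = σ := by
  simp [ho]

/-- Far points of a ray are in `W'`, uniformly in the base point. -/
theorem ray_far (h : Bg M i) (T : ℝ) : ∃ B : ℝ, 0 ≤ B ∧ ∀ o : E, o i = 0 → ‖o‖ ≤ T →
    ∀ σ, B ≤ σ → o + σ • ee i ∈ M.W' := by
  obtain ⟨L, R, hL, hc⟩ := h.cone
  refine ⟨max 0 (max R (L * T + 1)), le_max_left _ _, fun o ho hT σ hσ => ?_⟩
  have h0 : 0 ≤ σ := (le_max_left _ _).trans hσ
  have h1 : R ≤ σ := ((le_max_left _ _).trans (le_max_right _ _)).trans hσ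
  have h2 : L * T + 1 ≤ σ := ((le_max_right _ _).trans (le_max_right _ _)).trans hσ
  have h3 := abs_coord_le (o + σ • ee i) i
  rw [ray_self ho, abs_of_nonneg h0] at h3
  refine hc _ (h1.trans h3) ?_
  rw [ray_self ho, add_sub_cancel_right, abs_of_nonneg h0]
  nlinarith [mul_le_mul_of_nonneg_left hT hL.le]

theorem ray_not (h : Bg M i) {o : E} (ho : o i = 0) {s σ : ℝ} (hs : 0 ≤ s)
    (hS : o + s • ee i ∈ M.S) (hσ : s < σ) : o + σ • ee i ∉ M.S := by
  have h1 := h.inj _ hS (by rw [ray_self ho]; exact hs) (σ - s) (by linarith)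
  have he : o + s • ee i + (σ - s) • ee i = o + σ • ee i := by rw [sub_smul]; abel
  rwa [he] at h1

/-- A point of the ray with no point of `S` beyond it is in `W'`. -/
theorem ray_W' (hO : M.O = univ) (h : Bg M i) {o : E} (ho : o i = 0) {σ : ℝ}
    (hn : ∀ τ, σ ≤ τ → o + τ • ee i ∉ M.S) : o + σ • ee i ∈ M.W' := by
  obtain ⟨B, -, hB⟩ := ray_far h ‖o‖
  exact (M.basic_same (a := o) (v := ee i) (le_max_left σ B) (fun _ _ => hO ▸ mem_univ _)
    fun τ hτ => hn τ hτ.1).2.2 (hB o ho le_rfl _ (le_max_right _ _))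

theorem ray_after (hO : M.O = univ) (h : Bg M i) {o : E} (ho : o i = 0) {s σ : ℝ} (hs : 0 ≤ s)
    (hS : o + s • ee i ∈ M.S) (hσ : s < σ) : o + σ • ee i ∈ M.W' :=
  ray_W' hO h ho fun _ hτ => ray_not h ho hs hS (hσ.trans_le hτ)

theorem ray_before (hO : M.O = univ) (h : Bg M i) {o : E} (ho : o i = 0) {s σ : ℝ} (hσ : 0 ≤ σ)
    (hS : o + s • ee i ∈ M.S) (hs : σ < s) : o + σ • ee i ∈ M.W := by
  refine M.basic_before hs (fun _ _ => hO ▸ mem_univ _)
    (fun τ hτ hτS => ray_not h ho (hσ.trans hτ.1) hτS hτ.2 hS) hS ?_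
  rw [ee_inner]
  exact h.pos _ hS (by rw [ray_self ho]; linarith)

/-- A ray that starts in `W'` stays in `W'`. -/
theorem ray_stay (hO : M.O = univ) (h : Bg M i) {o : E} (ho : o i = 0) (hW : o ∈ M.W') {σ : ℝ}
    (hσ : 0 ≤ σ) : o + σ • ee i ∈ M.W' := by
  refine ray_W' hO h ho fun τ hτ hS => ?_
  rcases (hσ.trans hτ).eq_or_lt with h0 | h0
  · rw [← h0, zero_smul, add_zero] at hS
    exact disjoint_left.1 M.disjS' hW hS
  · have h1 := ray_before hO h ho le_rfl hS h0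
    rw [zero_smul, add_zero] at h1
    exact disjoint_left.1 M.disj h1 hW

/-- A ray that starts in `W` meets `S`. -/
theorem ray_cross (hO : M.O = univ) (h : Bg M i) {o : E} (ho : o i = 0) (hW : o ∈ M.W) :
    ∃ s : ℝ, 0 ≤ s ∧ o + s • ee i ∈ M.S := by
  by_contra hn
  push Not at hn
  have h1 := ray_W' hO h ho (σ := 0) hn
  rw [zero_smul, add_zero] at h1
  exact disjoint_left.1 M.disj hW h1

/-- The two boundary rays of one slice. -/
structure Slice (M : Surf) (t σ₀ : ℝ) : Prop where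
  nonneg : 0 ≤ σ₀
  mem : pt 0 t + σ₀ • ee 1 ∈ M.S ∨ pt 0 t + σ₀ • ee 0 ∈ M.S
  after : ∀ σ, σ₀ < σ → pt 0 t + σ • ee 1 ∈ M.W' ∧ pt 0 t + σ • ee 0 ∈ M.W
  before : ∀ σ, 0 ≤ σ → σ < σ₀ → (pt 0 t + σ • ee 1 ∈ M.W' ∧ pt 0 t + σ • ee 0 ∈ M.W') ∨
    (pt 0 t + σ • ee 1 ∈ M.W ∧ pt 0 t + σ • ee 0 ∈ M.W)

theorem exists_slice (h : Sym M) (t : ℝ) : ∃ σ₀, Slice M t σ₀ := by
  have hO : M.O = univ := h.mem.univ
  have hO' : M.swap.O = univ := hO
  have h0 : pt 0 t 0 = 0 := by simp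
  have h1 : pt 0 t 1 = 0 := by simp
  rcases M.mem_cases (x := pt 0 t) (hO ▸ mem_univ _) with hW | hW | hS
  · obtain ⟨s, hs, hS⟩ := ray_cross hO h.b1 h1 hW
    refine ⟨s, hs, Or.inl hS, fun σ hσ => ⟨ray_after hO h.b1 h1 hs hS hσ, ?_⟩,
      fun σ hσ hlt => Or.inr ⟨ray_before hO h.b1 h1 hσ hS hlt, ?_⟩⟩
    · exact ray_stay hO' h.b0 h0 hW (hs.trans hσ.le)
    · exact ray_stay hO' h.b0 h0 hW hσ
  · obtain ⟨s, hs, hS⟩ := ray_cross hO' h.b0 h0 hW
    refine ⟨s, hs, Or.inr hS, fun σ hσ => ⟨ray_stay hO h.b1 h1 hW (hs.trans hσ.le), ?_⟩,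
      fun σ hσ hlt => Or.inl ⟨ray_stay hO h.b1 h1 hW hσ, ?_⟩⟩
    · exact ray_after hO' h.b0 h0 hs hS hσ
    · exact ray_before hO' h.b0 h0 hσ hS hlt
  · have hS1 : pt 0 t + (0 : ℝ) • ee 1 ∈ M.S := by rwa [zero_smul, add_zero]
    have hS0 : pt 0 t + (0 : ℝ) • ee 0 ∈ M.swap.S := by rwa [zero_smul, add_zero]
    exact ⟨0, le_rfl, Or.inl hS1, fun σ hσ => ⟨ray_after hO h.b1 h1 le_rfl hS1 hσ,
      ray_after hO' h.b0 h0 le_rfl hS0 hσ⟩, fun σ hσ hlt => absurd hlt (not_lt.2 hσ)⟩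

theorem seg_coord {x y z : E} (hz : z ∈ segment ℝ x y) :
    ∃ a b : ℝ, 0 ≤ a ∧ 0 ≤ b ∧ a + b = 1 ∧ ∀ j, z j = a * x j + b * y j := by
  obtain ⟨a, b, ha, hb, hab, rfl⟩ := hz
  exact ⟨a, b, ha, hb, hab, fun j => by simp⟩

theorem inj_aux (h : Sym M) {x y : E} (hx : x ∈ Q M) (hy : y ∈ Q M) (h2 : x 2 = y 2)
    (hs : x 0 + x 1 = y 0 + y 1) (hlt : x 1 < y 1) : False := by
  refine M.one_cross hx.1 hy.1 (fun _ _ => h.mem.univ ▸ mem_univ _) fun z hz hzS => ?_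
  obtain ⟨a, b, ha, hb, hab, hc⟩ := seg_coord hz
  have hx0 := hx.2.1
  have hx1 := hx.2.2
  have hy0 := hy.2.1
  have hy1 := hy.2.2
  have hzQ : z ∈ Q M := ⟨hzS, by rw [hc]; positivity, by rw [hc]; positivity⟩
  have hsum : z 0 + z 1 = y 0 + y 1 := by
    rw [hc, hc]; linear_combination a * hs + (y 0 + y 1) * hab
  have hp := h.sub_pos hzQ (by linarith)
  rw [inner_eq]
  simp only [PiLp.sub_apply]
  have e0 : y 0 - x 0 = -(y 1 - x 1) := by linarith
  rw [e0, h2, sub_self]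
  nlinarith [mul_pos (sub_pos.2 hlt) hp]

theorem inj (h : Sym M) {x y : E} (hx : x ∈ Q M) (hy : y ∈ Q M) (h2 : x 2 = y 2)
    (hs : x 0 + x 1 = y 0 + y 1) : x = y := by
  rcases lt_trichotomy (x 1) (y 1) with h1 | h1 | h1
  · exact (inj_aux h hx hy h2 hs h1).elim
  · ext j
    fin_cases j
    · change x 0 = y 0; linarith
    · exact h1
    · exact h2
  · exact (inj_aux h hy hx h2.symm hs.symm h1).elim

@[simp] theorem A_zero (t σ : ℝ) : (pt 0 t + σ • ee 1) 0 = 0 := by simp [ee_apply]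
@[simp] theorem A_one (t σ : ℝ) : (pt 0 t + σ • ee 1) 1 = σ := by simp
@[simp] theorem A_two (t σ : ℝ) : (pt 0 t + σ • ee 1) 2 = t := by simp [ee_apply]
@[simp] theorem B_zero (t σ : ℝ) : (pt 0 t + σ • ee 0) 0 = σ := by simp
@[simp] theorem B_one (t σ : ℝ) : (pt 0 t + σ • ee 0) 1 = 0 := by simp [ee_apply]
@[simp] theorem B_two (t σ : ℝ) : (pt 0 t + σ • ee 0) 2 = t := by simp [ee_apply]

/-- The boundary point of the slice. -/
theorem Slice.point {t σ₀ : ℝ} (hs : Slice M t σ₀) :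
    ∃ x ∈ Q M, x 2 = t ∧ x 0 + x 1 = σ₀ ∧ x 0 * x 1 = 0 := by
  rcases hs.mem with h | h
  · exact ⟨_, ⟨h, (A_zero _ _).ge, by rw [A_one]; exact hs.nonneg⟩, A_two _ _,
      by rw [A_zero, A_one, zero_add], by rw [A_zero, zero_mul]⟩
  · exact ⟨_, ⟨h, by rw [B_zero]; exact hs.nonneg, (B_one _ _).ge⟩, B_two _ _,
      by rw [B_zero, B_one, add_zero], by rw [B_one, mul_zero]⟩

theorem Slice.ex (h : Sym M) {t σ₀ σ : ℝ} (hs : Slice M t σ₀) (hσ : σ₀ ≤ σ) :
    ∃ x ∈ Q M, x 2 = t ∧ x 0 + x 1 = σ := by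
  rcases hσ.eq_or_lt with rfl | hlt
  · obtain ⟨x, hx, h2, h3, -⟩ := hs.point
    exact ⟨x, hx, h2, h3⟩
  · obtain ⟨hA, hB⟩ := hs.after σ hlt
    obtain ⟨z, hz, hzS⟩ := M.exists_cross (fun _ _ => h.mem.univ ▸ mem_univ _) hB hA
    obtain ⟨a, b, ha, hb, hab, hc⟩ := seg_coord hz
    have h0 := hc 0
    have h1 := hc 1
    have h2 := hc 2
    rw [A_zero, B_zero] at h0
    rw [A_one, B_one] at h1
    rw [A_two, B_two] at h2
    have hσ0 : 0 ≤ σ := hs.nonneg.trans hσ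
    refine ⟨z, ⟨hzS, by rw [h0]; positivity, by rw [h1]; positivity⟩, ?_, ?_⟩
    · rw [h2]; linear_combination t * hab
    · rw [h0, h1]; linear_combination σ * hab

/-- The antidiagonal through `x`. -/
theorem diag_zero (t σ s : ℝ) : (pt 0 t + σ • ee 0 + s • (ee 1 - ee 0)) 0 = σ - s := by
  simp [ee_apply]; ring
theorem diag_one (t σ s : ℝ) : (pt 0 t + σ • ee 0 + s • (ee 1 - ee 0)) 1 = s := by
  simp [ee_apply]
theorem diag_two (t σ s : ℝ) : (pt 0 t + σ • ee 0 + s • (ee 1 - ee 0)) 2 = t := by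
  simp [ee_apply]

theorem diag_eq (x : E) : pt 0 (x 2) + (x 0 + x 1) • ee 0 + x 1 • (ee 1 - ee 0) = x := by
  ext j
  fin_cases j
  · exact (diag_zero _ _ _).trans (by simp)
  · exact diag_one _ _ _
  · exact diag_two _ _ _

theorem diag_not (h : Sym M) {x : E} (hx : x ∈ Q M) {s : ℝ} (h0 : 0 ≤ s) (h1 : s ≤ x 0 + x 1)
    (hne : s ≠ x 1) : pt 0 (x 2) + (x 0 + x 1) • ee 0 + s • (ee 1 - ee 0) ∉ M.S := by
  intro hS
  have he := inj h (x := pt 0 (x 2) + (x 0 + x 1) • ee 0 + s • (ee 1 - ee 0))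
    ⟨hS, by rw [diag_zero]; linarith, by rw [diag_one]; exact h0⟩ hx (diag_two _ _ _)
    (by rw [diag_zero, diag_one]; ring)
  exact hne ((diag_one _ _ _).symm.trans (congrArg (fun z : E => z 1) he))

theorem Slice.low (h : Sym M) {σ₀ : ℝ} {x : E} (hx : x ∈ Q M) (hs : Slice M (x 2) σ₀) :
    σ₀ ≤ x 0 + x 1 := by
  by_contra hlt
  push Not at hlt
  have hx0 := hx.2.1
  have hx1 := hx.2.2
  have hS : pt 0 (x 2) + (x 0 + x 1) • ee 0 + x 1 • (ee 1 - ee 0) ∈ M.S := by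
    rw [diag_eq]; exact hx.1
  have hN : 0 < x 0 + x 1 → 0 < ⟪ee 1 - ee 0,
      M.N (pt 0 (x 2) + (x 0 + x 1) • ee 0 + x 1 • (ee 1 - ee 0))⟫ := fun hp => by
    rw [diag_eq, inner_sub_left, ee_inner, ee_inner]
    exact h.sub_pos hx hp
  rcases hs.before _ (by linarith) hlt with ⟨-, hB⟩ | ⟨hA, -⟩
  · rcases hx1.eq_or_lt with h1 | h1
    · rw [← h1, zero_smul, add_zero, h1] at hS
      exact disjoint_left.1 M.disjS' hB hS
    · have h3 := M.basic_before h1 (fun _ _ => h.mem.univ ▸ mem_univ _)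
        (fun s hs' => diag_not h hx hs'.1 (by linarith [hs'.2]) hs'.2.ne) hS (hN (by linarith))
      rw [zero_smul, add_zero] at h3
      exact disjoint_left.1 M.disj h3 hB
  · have he : pt 0 (x 2) + (x 0 + x 1) • ee 0 + (x 0 + x 1) • (ee 1 - ee 0)
        = pt 0 (x 2) + (x 0 + x 1) • ee 1 := by rw [smul_sub]; abel
    rcases hx0.eq_or_lt with h0 | h0
    · have h4 : x 0 + x 1 = x 1 := by rw [← h0, zero_add]
      rw [← he, h4] at hA
      rw [h4] at hS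
      exact disjoint_left.1 M.disjS hA hS
    · have h3 := M.basic_after (q := x 0 + x 1) (by linarith) (fun _ _ => h.mem.univ ▸ mem_univ _)
        (fun s hs' => diag_not h hx (hx1.trans hs'.1.le) hs'.2 hs'.1.ne') hS (hN (by linarith))
      rw [he] at h3
      exact disjoint_left.1 M.disj hA h3

theorem Slice.bd (h : Sym M) {σ₀ : ℝ} {x : E} (hx : x ∈ Q M) (hs : Slice M (x 2) σ₀) :
    x 0 * x 1 = 0 ↔ x 0 + x 1 = σ₀ := by
  constructor
  · intro h0
    refine le_antisymm (not_lt.1 fun hlt => ?_) (hs.low h hx)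
    obtain ⟨hA, hB⟩ := hs.after _ hlt
    rcases mul_eq_zero.1 h0 with h0 | h0
    · have he : pt 0 (x 2) + (x 0 + x 1) • ee 1 = x := by
        ext j
        fin_cases j
        · exact (A_zero _ _).trans h0.symm
        · exact (A_one _ _).trans (by rw [h0, zero_add]; rfl)
        · exact A_two _ _
      rw [he] at hA
      exact disjoint_left.1 M.disjS' hA hx.1
    · have he : pt 0 (x 2) + (x 0 + x 1) • ee 0 = x := by
        ext j
        fin_cases j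
        · exact (B_zero _ _).trans (by rw [h0, add_zero]; rfl)
        · exact (B_one _ _).trans h0.symm
        · exact B_two _ _
      rw [he] at hB
      exact disjoint_left.1 M.disjS hB hx.1
  · intro h0
    obtain ⟨y, hy, h2, h3, h4⟩ := hs.point
    rw [inj h hx hy h2.symm (h0.trans h3.symm)]
    exact h4

theorem norm_base (t : ℝ) : ‖pt 0 t‖ = |t| := by
  have h := norm_pt_sq 0 t
  rw [norm_zero] at h
  exact (sq_eq_sq₀ (norm_nonneg _) (abs_nonneg _)).1 (by rw [h, sq_abs]; ring)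

theorem bdd (h : Sym M) (T : ℝ) : ∃ B : ℝ, ∀ t σ₀, |t| ≤ T → Slice M t σ₀ → σ₀ ≤ B := by
  obtain ⟨B1, -, h1⟩ := ray_far h.b1 T
  obtain ⟨B0, -, h0⟩ := ray_far h.b0 T
  refine ⟨max B0 B1, fun t σ₀ ht hs => not_lt.1 fun hlt => ?_⟩
  rcases hs.mem with hS | hS
  · exact disjoint_left.1 M.disjS' (h1 _ (by simp) (by rwa [norm_base]) _
      ((le_max_right _ _).trans hlt.le)) hS
  · exact disjoint_left.1 M.disjS (h0 _ (by simp) (by rwa [norm_base]) _
      ((le_max_left _ _).trans hlt.le)) hS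

end SL1

/-- The horizontal slices of the quarter. -/
theorem sl1 : S_SL1 := by
  intro M h
  choose σ₀ hσ using SL1.exists_slice h
  refine ⟨σ₀, fun x hx y hy h2 hs => SL1.inj h hx hy h2 hs, fun t σ hle => (hσ t).ex h hle,
    fun x hx => (hσ _).low h hx, fun x hx => (hσ _).bd h hx, fun T => ?_⟩
  obtain ⟨B, hB⟩ := SL1.bdd h T
  exact ⟨B, fun t ht => hB t _ ht (hσ t)⟩

end MW.S6
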