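import Pool.Agent.P.MP_064970_gt.S6.Bas

/-!
# Meeks–Wolf, section 6: parametrisations of the quarter
-/

open MeasureTheory Set Filter Topology Metric Complex InnerProductSpace
open scoped RealInnerProductSpace ENNReal ComplexConjugate Real

noncomputable section

namespace MW.S6

namespace SL2

/-- A locally bounded map with closed graph is continuous. -/
theorem continuous_of_graph {X : Type*} [TopologicalSpace X] {f : X → E} {C : Set (X × E)}
    (hC : IsClosed C) (hf : ∀ x, (x, f x) ∈ C) (hu : ∀ x y, (x, y) ∈ C → y = f x)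
    (hb : ∀ x, ∃ R : ℝ, ∀ᶠ x' in 𝓝 x, ‖f x'‖ ≤ R) : Continuous f := by
  refine continuous_iff_continuousAt.2 fun x => ?_
  obtain ⟨R, hR⟩ := hb x
  refine (isCompact_closedBall (0 : E) R).tendsto_nhds_of_unique_mapClusterPt
    (hR.mono fun x' h => mem_closedBall_zero_iff.2 h) fun y _ hy => hu x y ?_
  rw [← hC.closure_eq, mem_closure_iff_nhds]
  intro t ht
  obtain ⟨U, hU, V, hV, hUV⟩ := mem_nhds_prod_iff.1 ht
  have h1 : ∃ᶠ x' in 𝓝 x, f x' ∈ V := hy.frequently (p := fun y => y ∈ V) hV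
  obtain ⟨x', h2, h3⟩ := (h1.and_eventually hU).exists
  exact ⟨(x', f x'), hUV ⟨h3, h2⟩, hf x'⟩

theorem norm_le_Q {M : Surf} {x : E} (hx : x ∈ Q M) : ‖x‖ ≤ x 0 + x 1 + |x 2| := by
  have h1 := norm_le_pr_add x
  have h2 := Complex.norm_le_abs_re_add_abs_im (pr x)
  rw [pr_re, pr_im, abs_of_nonneg hx.2.1, abs_of_nonneg hx.2.2] at h2
  linarith

theorem continuous_sigma {M : Surf} {σ₀ : ℝ → ℝ} (hM : Sym M) (h : Sl0 M σ₀) :
    Continuous σ₀ := by
  choose β hβQ hβ2 hβs using fun t => h.ex t (σ₀ t) le_rfl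
  have hc : Continuous β := by
    refine continuous_of_graph
      (C := {p : ℝ × E | p.2 ∈ Q M ∧ p.2 0 * p.2 1 = 0 ∧ p.2 2 = p.1}) ?_ ?_ ?_ ?_
    · refine (hM.isClosed_Q.preimage continuous_snd).inter (IsClosed.inter ?_ ?_)
      · exact isClosed_eq (((continuous_coord 0).comp continuous_snd).mul
          ((continuous_coord 1).comp continuous_snd)) continuous_const
      · exact isClosed_eq ((continuous_coord 2).comp continuous_snd) continuous_fst
    · intro t
      refine ⟨hβQ t, (h.bd _ (hβQ t)).2 ?_, hβ2 t⟩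
      rw [hβ2, hβs]
    · rintro t y ⟨h1, h2, h3⟩
      dsimp only at h1 h2 h3
      refine h.inj y h1 _ (hβQ t) (by rw [h3, hβ2]) ?_
      rw [(h.bd y h1).1 h2, hβs, h3]
    · intro t
      obtain ⟨B, hB⟩ := h.bdd (|t| + 1)
      refine ⟨B + (|t| + 1), ?_⟩
      have h1 : ∀ᶠ t' in 𝓝 t, |t'| ≤ |t| + 1 :=
        continuous_abs.continuousAt.eventually (eventually_le_nhds (lt_add_one _))
      filter_upwards [h1] with t' ht'
      have h2 := norm_le_Q (hβQ t')
      rw [hβs, hβ2] at h2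
      linarith [hB t' ht']
  have he : σ₀ = fun t => β t 0 + β t 1 := funext fun t => (hβs t).symm
  rw [he]
  exact ((continuous_coord 0).comp hc).add ((continuous_coord 1).comp hc)

theorem re_add (t s : ℝ) : ((t : ℂ) + s * I).re = t := by simp

theorem im_add (t s : ℝ) : ((t : ℂ) + s * I).im = s := by simp

end SL2

open SL2

/-- Both continuity statements are `closed graph + locally bounded`
(`isClosed_graph`-type argument with `tendsto_of_subseq_tendsto` / `IsCompact.tendsto_subseq`, or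
`IsProperMap`): `β t` = the point with sum `σ₀ t` lies in the closed set
`Q ∩ {x 0 * x 1 = 0}`, stays bounded by `bdd`, and a limit point `x` has `x 2 = t`, so by `bd` its
sum is `σ₀ t`. For `κ` use `inj`. `Sym.isClosed_Q`. -/
theorem sl2 : S_SL2 := by
  intro M σ₀ hM h
  have hσ := continuous_sigma hM h
  choose κ hQ h2 hs using fun q : ℂ =>
    h.ex q.re (σ₀ q.re + max q.im 0) (le_add_of_nonneg_right (le_max_right _ _))
  have hsum : Continuous fun q : ℂ => σ₀ q.re + max q.im 0 :=
    (hσ.comp continuous_re).add (continuous_im.max continuous_const)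
  refine ⟨κ, h, hσ, ?_, hQ, h2, hs⟩
  refine continuous_of_graph
    (C := {p : ℂ × E | p.2 ∈ Q M ∧ p.2 2 = p.1.re ∧
      p.2 0 + p.2 1 = σ₀ p.1.re + max p.1.im 0}) ?_ ?_ ?_ ?_
  · refine (hM.isClosed_Q.preimage continuous_snd).inter (IsClosed.inter ?_ ?_)
    · exact isClosed_eq ((continuous_coord 2).comp continuous_snd)
        (continuous_re.comp continuous_fst)
    · exact isClosed_eq (((continuous_coord 0).comp continuous_snd).add
        ((continuous_coord 1).comp continuous_snd)) (hsum.comp continuous_fst)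
  · exact fun q => ⟨hQ q, h2 q, hs q⟩
  · rintro q y ⟨h1, h3, h4⟩
    dsimp only at h1 h3 h4
    exact h.inj y h1 _ (hQ q) (by rw [h3, h2]) (by rw [h4, hs])
  · intro q
    have hc : Continuous fun q : ℂ => σ₀ q.re + max q.im 0 + |q.re| :=
      hsum.add continuous_re.abs
    refine ⟨σ₀ q.re + max q.im 0 + |q.re| + 1, ?_⟩
    filter_upwards [hc.continuousAt.eventually (eventually_le_nhds (lt_add_one _))] with q' hq'
    have h5 := norm_le_Q (hQ q')
    rw [hs, h2] at h5
    exact h5.trans hq'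

/-- `g z s = Y (z.re + s I) + min s 0 - |z.im|` is strictly increasing in `s` on `ℝ` and has a zero
`s z ≥ 0` (intermediate values); `continuous_of_strictMono`; `G z = κ (z.re + s z * I)`.
`rep`: for `x ∈ Q` put `q x = x 2 + (x 0 + x 1 - σ₀ (x 2)) I`; `κ (q x) = x` by `inj`, `q` is
continuous, `q (G z) = z.re + s z * I`, and `Y (q x) = f x` near `G z`. -/
theorem par : S_PAR := by
  intro M σ₀ κ Y _ hκ hY hm
  have hY0 : ∀ t s : ℝ, s ≤ 0 → Y (t + s * I) = 0 := fun t s hs =>
    hY.zero _ (by rw [im_add]; exact hs)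
  have hYc : ∀ t : ℝ, Continuous fun s : ℝ => Y (t + s * I) := fun t =>
    hY.cont.comp (by fun_prop)
  have hYn : ∀ t s : ℝ, 0 ≤ s → 0 ≤ Y (t + s * I) := by
    intro t s hs
    have h1 := (hm t).1.monotoneOn (mem_Ici.2 le_rfl) (mem_Ici.2 hs) hs
    rwa [hY0 t 0 le_rfl] at h1
  have hex : ∀ t c : ℝ, ∃ s : ℝ, 0 ≤ c → 0 ≤ s ∧ Y (t + s * I) = c := by
    intro t c
    by_cases hc : 0 ≤ c
    · obtain ⟨b, hb, hb0⟩ :=
        (((hm t).2.eventually_ge_atTop c).and (eventually_ge_atTop (0 : ℝ))).exists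
      have h1 := intermediate_value_Icc hb0 (hYc t).continuousOn
      have h2 : c ∈ Icc (Y (t + (0 : ℝ) * I)) (Y (t + b * I)) :=
        ⟨by rw [hY0 t 0 le_rfl]; exact hc, hb⟩
      obtain ⟨s, hs, hsc⟩ := h1 h2
      exact ⟨s, fun _ => ⟨hs.1, hsc⟩⟩
    · exact ⟨0, fun h => absurd h hc⟩
  choose S hS using hex
  have hS0 : ∀ z : ℂ, 0 ≤ S z.re |z.im| := fun z => (hS _ _ (abs_nonneg _)).1
  have hSY : ∀ z : ℂ, Y (z.re + S z.re |z.im| * I) = |z.im| := fun z =>
    (hS _ _ (abs_nonneg _)).2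
  have hSc : Continuous fun z : ℂ => S z.re |z.im| := by
    refine continuous_of_strictMono
      (g := fun (z : ℂ) (s : ℝ) => Y (z.re + s * I) + min s 0 - |z.im|) ?_ ?_ ?_
    · intro b
      exact ((hY.cont.comp (by fun_prop)).add continuous_const).sub continuous_im.abs
    · intro z a b hab
      dsimp only
      rcases le_total b 0 with hb | hb
      · rw [hY0 _ a (hab.le.trans hb), hY0 _ b hb, min_eq_left (hab.le.trans hb), min_eq_left hb]
        linarith
      · rcases lt_or_ge a 0 with ha | ha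
        · rw [hY0 _ a ha.le, min_eq_left ha.le, min_eq_right hb]
          linarith [hYn z.re b hb]
        · have h1 := (hm z.re).1 (mem_Ici.2 ha) (mem_Ici.2 hb) hab
          dsimp only at h1
          rw [min_eq_right ha, min_eq_right hb]
          linarith
    · intro z
      rw [hSY, min_eq_right (hS0 z)]
      ring
  -- the inverse of `κ` on the quarter
  set q : E → ℂ := fun x => (x 2 : ℝ) + (x 0 + x 1 - σ₀ (x 2) : ℝ) * I with hq
  have hqc : Continuous q := by
    have h0 := continuous_coord 0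
    have h1 := continuous_coord 1
    have h2 := continuous_coord 2
    exact (continuous_ofReal.comp h2).add
      ((continuous_ofReal.comp ((h0.add h1).sub (hκ.contσ.comp h2))).mul continuous_const)
  have hlow : ∀ x ∈ Q M, 0 ≤ x 0 + x 1 - σ₀ (x 2) := fun x hx => sub_nonneg.2 (hκ.low x hx)
  have hκq : ∀ x ∈ Q M, κ (q x) = x := by
    intro x hx
    refine hκ.inj _ (hκ.mem _) x hx ?_ ?_
    · rw [hκ.two, hq, re_add]
    · rw [hκ.sum, hq, re_add, im_add, max_eq_left (hlow x hx)]
      ring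
  have hqκ : ∀ t s : ℝ, 0 ≤ s → q (κ (t + s * I)) = t + s * I := by
    intro t s hs
    rw [hq]
    dsimp only
    rw [hκ.sum, hκ.two, re_add, im_add, max_eq_left hs, add_sub_cancel_left]
  have hYq : ∀ x ∈ Q M, 0 ≤ Y (q x) := fun x hx => hYn _ _ (hlow x hx)
  have hG : ∀ x ∈ Q M, κ ((x 2 : ℝ) + S (x 2) |Y (q x)| * I) = x := by
    intro x hx
    have h1 : S (x 2) |Y (q x)| = x 0 + x 1 - σ₀ (x 2) := by
      obtain ⟨h2, h3⟩ := hS (x 2) |Y (q x)| (abs_nonneg _)
      refine (hm (x 2)).1.injOn (mem_Ici.2 h2) (mem_Ici.2 (hlow x hx)) ?_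
      dsimp only
      rw [h3, abs_of_nonneg (hYq x hx)]
    rw [h1]
    exact hκq x hx
  refine ⟨fun z => κ (z.re + S z.re |z.im| * I), ?_, ?_, ?_, ?_, ?_, ?_, ?_⟩
  · exact hκ.cont.comp ((continuous_ofReal.comp continuous_re).add
      ((continuous_ofReal.comp hSc).mul continuous_const))
  · intro z
    simp only [conj_re, conj_im, abs_neg]
  · exact fun z => hκ.mem _
  · intro z
    rw [hκ.two, re_add]
  · intro z
    rw [hκ.bd _ (hκ.mem _), hκ.sum, hκ.two, re_add, im_add, max_eq_left (hS0 z), add_eq_left]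
    constructor
    · intro h
      have h1 := hSY z
      rw [h, hY0 _ 0 le_rfl] at h1
      exact abs_eq_zero.1 h1.symm
    · intro h
      refine (hm z.re).1.injOn (mem_Ici.2 (hS0 z)) (mem_Ici.2 le_rfl) ?_
      rw [hSY, hY0 _ 0 le_rfl, h, abs_zero]
  · intro x hx
    refine ⟨(x 2 : ℝ) + Y (q x) * I, ?_⟩
    rw [re_add, im_add]
    exact hG x hx
  · intro z hz
    obtain ⟨f, hf, hev⟩ := hY.rep (z.re + S z.re |z.im| * I)
    refine ⟨f, hf, ?_, ?_⟩
    · rw [← hev.self_of_nhds, hSY, abs_of_nonneg hz]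
    · have h1 : Tendsto q (𝓝[Q M] (κ (z.re + S z.re |z.im| * I)))
          (𝓝 (z.re + S z.re |z.im| * I)) := by
        have h2 := hqc.tendsto (κ (z.re + S z.re |z.im| * I))
        rw [hqκ _ _ (hS0 z)] at h2
        exact h2.mono_left nhdsWithin_le_nhds
      filter_upwards [h1.eventually hev, self_mem_nhdsWithin] with x hx hxQ
      rw [hκq x hxQ] at hx
      rw [← hx, re_add, im_add]
      exact ⟨hYq x hxQ, hG x hxQ⟩

end MW.S6
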