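import Pool.Agent.P.MP_064970_gt.S6.Bas

/-!
# Meeks–Wolf, section 6: symmetry of the area; the uncovered set has density zero
-/

open MeasureTheory Set Filter Topology Metric Complex InnerProductSpace
open scoped RealInnerProductSpace ENNReal ComplexConjugate Real

noncomputable section

namespace MW.S6

namespace SYMU

theorem meas_n (M : Surf) : Measurable fun x => ENNReal.ofReal |M.N x 2| :=
  (((continuous_coord 2).measurable.comp M.N_meas).abs).ennreal_ofReal

open Classical in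
theorem key (hA : S_AREA0) (M : Surf) {A : Set E} (hAm : MeasurableSet A)
    (hne : ∀ x ∈ M.S, x ∈ A → M.N x 2 ≠ 0) {g : E → ℝ≥0∞} (hg : Measurable g) :
    ∫⁻ x in A, g x ∂M.μ = ∫⁻ y : ℂ, ∑' t : ℝ, if pt y t ∈ M.S then
      A.indicator (fun x => g x / ENNReal.ofReal |M.N x 2|) (pt y t) else 0 := by
  have h0 : Measurable fun x => g x / ENNReal.ofReal |M.N x 2| := hg.div (meas_n M)
  have h1 := ((hA M).1 _ (h0.indicator hAm)).2
  rw [← h1, ← lintegral_indicator hAm]
  refine lintegral_congr_ae ?_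
  filter_upwards [M.ae_mem] with x hx
  by_cases hxA : x ∈ A
  · rw [indicator_of_mem hxA, indicator_of_mem hxA, ENNReal.div_mul_cancel _ ENNReal.ofReal_ne_top]
    have := abs_pos.2 (hne x hx hxA)
    exact (ENNReal.ofReal_pos.2 this).ne'
  · rw [indicator_of_notMem hxA, indicator_of_notMem hxA, zero_mul]

theorem meas_tilt (M : Surf) : Measurable fun x => ‖pr (M.N x)‖ ^ 2 :=
  ((measurable_pr.comp M.N_meas).norm).pow_const 2

theorem int_tilt {M : Surf} (h : M.Bd) (p : E) (r : ℝ) :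
    IntegrableOn (fun x => ‖pr (M.N x)‖ ^ 2) (ball p r) M.μ := by
  refine h.integrableOn isBounded_ball (meas_tilt M) (C := 1) (fun x hx => ?_) measurableSet_ball
  have h1 := norm_pr_le (M.N x)
  rw [M.N_unit x hx.2] at h1
  rw [abs_of_nonneg (sq_nonneg _)]
  exact pow_le_one₀ (norm_nonneg _) h1

theorem ofReal_tilt {M : Surf} (h : M.Bd) (p : E) (r : ℝ) :
    ENNReal.ofReal (∫ x in ball p r, ‖pr (M.N x)‖ ^ 2 ∂M.μ)
      = ∫⁻ x in ball p r, ENNReal.ofReal (‖pr (M.N x)‖ ^ 2) ∂M.μ :=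
  ofReal_integral_eq_lintegral_ofReal (int_tilt h p r)
    (Eventually.of_forall fun _ => sq_nonneg _)

theorem inner_le_tilt {M : Surf} (h : M.Bd) (p : E) (r : ℝ) :
    ∫ x in ball p r, ⟪pr (M.N x), (1 : ℂ)⟫ ^ 2 ∂M.μ ≤ ∫ x in ball p r, ‖pr (M.N x)‖ ^ 2 ∂M.μ := by
  refine integral_mono_of_nonneg (Eventually.of_forall fun _ => sq_nonneg _) (int_tilt h p r)
    (Eventually.of_forall fun x => ?_)
  have h1 := abs_real_inner_le_norm (pr (M.N x)) (1 : ℂ)
  rw [norm_one, mul_one] at h1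
  exact sq_le_sq' (by linarith [neg_abs_le ⟪pr (M.N x), (1 : ℂ)⟫]) ((le_abs_self _).trans h1)

end SYMU

/-- `S_AREA0` for `g₁ = indicator {x 2 < 0} (g / ofReal |N 2|)` and for
`g₂ = indicator {0 < x 2} (g ∘ rf 2 / ofReal |N 2|)`; on each vertical line the two sums agree
(`Equiv.neg`, `rf_pt`, `Bg.rf_mem`, `Bg.symN`); `N 2 ≠ 0` on `S` off the plane (`Bg.pos`,
`Bg.neg`), `Surf.ae_mem`. -/
theorem symu_of (hA : S_AREA0) : S_SYMU := by
  intro M _ hb g hg
  have hm1 : MeasurableSet {x : E | x 2 < 0} :=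
    (isOpen_lt (continuous_coord 2) continuous_const).measurableSet
  have hm2 : MeasurableSet {x : E | 0 < x 2} :=
    (isOpen_lt continuous_const (continuous_coord 2)).measurableSet
  rw [SYMU.key hA M hm1 (fun x hx h0 => (hb.neg hx h0).ne) hg,
    SYMU.key hA M hm2 (fun x hx h0 => (hb.pos x hx h0).ne')
      (g := fun x => g (rf 2 x)) (hg.comp (continuous_rf 2).measurable)]
  refine lintegral_congr fun y => ?_
  rw [← (Equiv.neg ℝ).tsum_eq]
  refine tsum_congr fun t => ?_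
  rw [Equiv.neg_apply, ← rf_pt]
  by_cases hS : pt y t ∈ M.S
  · rw [if_pos hS, if_pos (hb.symS _ hS)]
    by_cases ht : 0 < t
    · have h1 : rf 2 (pt y t) ∈ {x : E | x 2 < 0} := by simpa using ht
      have h2 : pt y t ∈ {x : E | 0 < x 2} := by simpa using ht
      rw [indicator_of_mem h1, indicator_of_mem h2, hb.symN _ hS, rf_self, abs_neg]
    · have h1 : rf 2 (pt y t) ∉ {x : E | x 2 < 0} := by simpa using ht
      have h2 : pt y t ∉ {x : E | 0 < x 2} := by simpa using ht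
      rw [indicator_of_notMem h1, indicator_of_notMem h2]
  · rw [if_neg hS, if_neg fun h => hS ((hb.rf_mem _).1 h)]

/-- Split off a fixed ball. For the rest use `S_VIT` with
`ν = map pr (μ.withDensity ‖pr N‖²)`, `T = ball 0 (2 r)`, `B = r`, `d3` with `ε = 1`, `θ = 1`
(`Gr.mem_pr_iff`, `ball (pt y t) b ⊆ pr ⁻¹' ball y b`); by `d1` with `ε = 1/2`,
`S ∩ pr ⁻¹' ball 0 (2 r) ⊆ ball 0 (4 r)` for large `r`; `d2`; `Bd.integrableOn` and
`ofReal_integral_eq_lintegral_ofReal` to pass between the two integrals. -/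
theorem den_of (hV : S_VIT) : S_DEN := by
  intro M u h hg ε hε
  obtain ⟨c, hc, h3⟩ := h.d3
  obtain ⟨R₃, hR₃⟩ := h3 1 one_pos
  obtain ⟨R₁, hR₁⟩ := h.d1 (1 / 2) (by norm_num)
  have hπ := Real.pi_pos
  obtain ⟨R₂, hR₂⟩ := h.d2 (ε * c / (512 * π)) (by positivity)
  set a : ℝ := volume.real (ball (0 : ℂ) R₃) with ha
  refine ⟨max (max 1 (2 * a / ε)) (max R₁ R₂), fun r hr => ?_⟩
  have hr1 : 1 ≤ r := le_trans ((le_max_left _ _).trans (le_max_left _ _)) hr
  have hra : 2 * a / ε ≤ r := le_trans ((le_max_right _ _).trans (le_max_left _ _)) hr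
  have hrR₁ : R₁ ≤ r := le_trans ((le_max_left _ _).trans (le_max_right _ _)) hr
  have hrR₂ : R₂ ≤ r := le_trans ((le_max_right _ _).trans (le_max_right _ _)) hr
  set f : E → ℝ≥0∞ := fun x => ENNReal.ofReal (‖pr (M.N x)‖ ^ 2) with hf
  set ν : Measure ℂ := (M.μ.withDensity f).map pr with hν
  have hνB : ∀ B : Set ℂ, MeasurableSet B → ν B = ∫⁻ x in pr ⁻¹' B, f x ∂M.μ := fun B hB => by
    rw [hν, Measure.map_apply measurable_pr hB, withDensity_apply _ (measurable_pr hB)]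
  have hA := hV (({y | lift u y ∉ M.S} ∩ ball 0 r) \ ball 0 R₃) (ball 0 (2 * r)) ν c r hc (by
    rintro y ⟨⟨hy1, hy2⟩, hy3⟩
    rw [mem_ball_zero_iff] at hy2
    rw [mem_ball_zero_iff, not_lt] at hy3
    obtain ⟨t, b, hb0, hb1, hb2⟩ := hR₃ y hy3 fun hy => hy1 ((hg.mem_pr_iff h.bg y).1 hy)
    rw [one_mul] at hb1
    refine ⟨b, hb0, by linarith, ball_subset_ball' ?_, ?_⟩
    · rw [dist_zero_right]
      linarith
    · have h1 := (hb2 1 norm_one).trans (SYMU.inner_le_tilt h.mem.bd (pt y t) b)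
      refine (ENNReal.ofReal_le_ofReal h1).trans ?_
      rw [SYMU.ofReal_tilt h.mem.bd, hνB _ measurableSet_ball]
      refine lintegral_mono_set fun x hx => ?_
      rw [mem_ball_iff_norm] at hx
      rw [mem_preimage, mem_ball_iff_norm]
      have h2 := norm_pr_le (x - pt y t)
      rw [pr_sub, pr_pt] at h2
      linarith)
  have hT : ν (ball 0 (2 * r)) ≤ ENNReal.ofReal (ε * c / (512 * π) * (4 * r) ^ 2) := by
    refine le_trans ?_ (ENNReal.ofReal_le_ofReal (hR₂ (4 * r) (by linarith)))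
    rw [SYMU.ofReal_tilt h.mem.bd, hνB _ measurableSet_ball]
    refine lintegral_mono_set' ?_
    filter_upwards [M.ae_mem] with x hx hx2
    have hx3 : ‖pr x‖ < 2 * r := mem_ball_zero_iff.1 hx2
    refine mem_ball_zero_iff.2 ?_
    rcases le_or_gt R₁ ‖x‖ with h1 | h1
    · linarith [hR₁ x hx h1, norm_le_pr_add x]
    · linarith
  have hball : volume (ball (0 : ℂ) R₃) ≤ ENNReal.ofReal (ε / 2 * r ^ 2) := by
    rw [← ENNReal.ofReal_toReal (measure_ball_lt_top (μ := volume) (x := (0 : ℂ)) (r := R₃)).ne]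
    refine ENNReal.ofReal_le_ofReal ?_
    change a ≤ _
    rw [div_le_iff₀ hε] at hra
    nlinarith [mul_le_mul_of_nonneg_left hr1 (show 0 ≤ ε * r by positivity)]
  have hrest : ENNReal.ofReal (16 * π / c) * ν (ball 0 (2 * r))
      ≤ ENNReal.ofReal (ε / 2 * r ^ 2) := by
    refine (mul_le_mul_right hT _).trans ?_
    rw [← ENNReal.ofReal_mul (by positivity)]
    refine ENNReal.ofReal_le_ofReal (le_of_eq ?_)
    field_simp
    ring
  calc volume ({y | lift u y ∉ M.S} ∩ ball 0 r)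
      ≤ volume (ball (0 : ℂ) R₃ ∪ ({y | lift u y ∉ M.S} ∩ ball 0 r) \ ball 0 R₃) := by
        refine measure_mono fun y hy => ?_
        by_cases hy' : y ∈ ball (0 : ℂ) R₃
        · exact Or.inl hy'
        · exact Or.inr ⟨hy, hy'⟩
    _ ≤ volume (ball (0 : ℂ) R₃) + volume (({y | lift u y ∉ M.S} ∩ ball 0 r) \ ball 0 R₃) :=
        measure_union_le _ _
    _ ≤ ENNReal.ofReal (ε / 2 * r ^ 2) + ENNReal.ofReal (ε / 2 * r ^ 2) :=
        add_le_add hball (hA.trans hrest)
    _ = ENNReal.ofReal (ε * r ^ 2) := by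
        rw [← ENNReal.ofReal_add (by positivity) (by positivity)]
        congr 1
        ring

end MW.S6
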