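import Pool.Agent.P.MP_064970_gt.S6.Bas

/-!
# Meeks–Wolf, section 6: the Nitsche map
-/

open MeasureTheory Set Filter Topology Metric Complex InnerProductSpace
open scoped RealInnerProductSpace ENNReal ComplexConjugate Real

noncomputable section

namespace MW.S6

namespace V

/-- The fields `loc` and `rep` of `Ni` at one point. -/
def Good (M : Surf) (u : ℂ → ℝ) (s : ℂ → ℂ) (y₀ : ℂ) : Prop :=
  (u y₀ = 0 → ∀ᶠ y in 𝓝 y₀, u y = 0 → s y = s y₀) ∧
  (lift u y₀ ∈ M.S → ∃ f₀ f₁, Cj M 0 f₀ (lift u y₀) ∧ Cj M 1 f₁ (lift u y₀) ∧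
    ∀ᶠ y in 𝓝 y₀, lift u y ∈ M.S → s y = ⟨-f₁ (lift u y), f₀ (lift u y)⟩)

variable {M : Surf} {u : ℂ → ℝ}

theorem pull (hg : Gr M u) {y₀ : ℂ} {P : E → Prop} (h : ∀ᶠ p in 𝓝[M.S] (lift u y₀), P p) :
    ∀ᶠ y in 𝓝 y₀, lift u y ∈ M.S → P (lift u y) :=
  (hg.continuous_lift.tendsto y₀).eventually (eventually_nhdsWithin_iff.1 h)

theorem ev_pos (hg : Gr M u) {y₀ : ℂ} (h : u y₀ ≠ 0) : ∀ᶠ y in 𝓝 y₀, 0 < u y :=
  (hg.cont.tendsto y₀).eventually (lt_mem_nhds (lt_of_le_of_ne (hg.nonneg y₀) h.symm))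

theorem ev_notMem (hm : M.Mem) (hg : Gr M u) {y₀ : ℂ} (h : lift u y₀ ∉ M.S) :
    ∀ᶠ y in 𝓝 y₀, lift u y ∉ M.S :=
  (hg.continuous_lift.tendsto y₀).eventually (hm.isClosed.isOpen_compl.mem_nhds h)

theorem good_congr (s s' : ℂ → ℂ) (x : ℂ) (h : Good M u s x) (he : s =ᶠ[𝓝 x] s') :
    Good M u s' x := by
  refine ⟨fun h0 => ?_, fun hx => ?_⟩
  · filter_upwards [h.1 h0, he] with y h1 h2 hy
    rw [← h2, ← he.self_of_nhds, h1 hy]
  · obtain ⟨f₀, f₁, h0, h1, h2⟩ := h.2 hx
    refine ⟨f₀, f₁, h0, h1, ?_⟩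
    filter_upwards [h2, he] with y h3 h4 hy
    rw [← h4, h3 hy]

theorem good_add (s : ℂ → ℂ) (x g : ℂ) (h : Good M u s x) :
    Good M u (fun y => s y + g) x := by
  refine ⟨fun h0 => ?_, fun hx => ?_⟩
  · filter_upwards [h.1 h0] with y h1 hy
    rw [h1 hy]
  · obtain ⟨f₀, f₁, h0, h1, h2⟩ := h.2 hx
    refine ⟨_, _, h0.add_const g.im, h1.sub_const g.re, ?_⟩
    filter_upwards [h2] with y h3 hy
    rw [h3 hy]
    apply Complex.ext
    · simp only [add_re]; ring
    · simp only [add_im]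

theorem good_exists (hC : S_CJ) (hm : M.Mem) (hb : Bg M 2) (hg : Gr M u) (x : ℂ) :
    ∃ s, ∀ᶠ y in 𝓝 x, Good M u s y := by
  classical
  by_cases hx : lift u x ∈ M.S
  · obtain ⟨f₀, h0⟩ := (hC M).1 _ hx 0
    obtain ⟨f₁, h1⟩ := (hC M).1 _ hx 1
    set s : ℂ → ℂ := fun y => if lift u y ∈ M.S then ⟨-f₁ (lift u y), f₀ (lift u y)⟩
      else ⟨-f₁ (lift u x), f₀ (lift u x)⟩ with hs
    have hloc : ∀ᶠ y in 𝓝 x, u y = 0 → s y = ⟨-f₁ (lift u x), f₀ (lift u x)⟩ := by
      by_cases hu : u x = 0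
      · have hx2 : lift u x 2 = 0 := by rw [lift_two, hu]
        have a0 := (hC M).2.2.2 2 hb.symS hb.symN _ hx hx2 0 f₀ (by decide) h0
        have a1 := (hC M).2.2.2 2 hb.symS hb.symN _ hx hx2 1 f₁ (by decide) h1
        filter_upwards [pull hg a0, pull hg a1] with y b0 b1 hy
        by_cases hyS : lift u y ∈ M.S
        · have hy2 : lift u y 2 = 0 := by rw [lift_two, hy]
          have c0 := b0 hyS
          have c1 := b1 hyS
          rw [rf_of_zero hy2] at c0 c1
          simp only [hs, if_pos hyS]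
          apply Complex.ext
          · show -f₁ (lift u y) = -f₁ (lift u x)
            linarith
          · show f₀ (lift u y) = f₀ (lift u x)
            linarith
        · simp only [hs, if_neg hyS]
      · filter_upwards [ev_pos hg hu] with y hy h
        exact absurd h hy.ne'
    refine ⟨s, ?_⟩
    filter_upwards [hloc.eventually_nhds, pull hg h0.eventually, pull hg h1.eventually]
      with y a b0 b1
    refine ⟨fun hy => ?_, fun hy => ⟨f₀, f₁, b0 hy, b1 hy, ?_⟩⟩
    · filter_upwards [a] with y' h hy'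
      rw [h hy', a.self_of_nhds hy]
    · exact Eventually.of_forall fun y' hy' => by simp only [hs, if_pos hy']
  · refine ⟨fun _ => 0, ?_⟩
    filter_upwards [ev_notMem hm hg hx] with y hy
    exact ⟨fun _ => Eventually.of_forall fun _ _ => rfl, fun h => absurd h hy⟩

theorem good_unique (hC : S_CJ) (hm : M.Mem) (hg : Gr M u) (s s' : ℂ → ℂ) (x : ℂ)
    (h : Good M u s x) (h' : Good M u s' x) : ∀ᶠ y in 𝓝 x, s y = s' y + (s x - s' x) := by
  have hoff : ∀ᶠ y in 𝓝 x, lift u y ∉ M.S → s y = s' y + (s x - s' x) := by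
    by_cases hu : u x = 0
    · filter_upwards [h.1 hu, h'.1 hu] with y a a' hy
      rw [a (hg.eq_zero hy), a' (hg.eq_zero hy)]
      ring
    · filter_upwards [ev_pos hg hu] with y hy hS
      exact absurd (hg.mem y hy) hS
  by_cases hx : lift u x ∈ M.S
  · obtain ⟨f₀, f₁, h0, h1, h2⟩ := h.2 hx
    obtain ⟨g₀, g₁, k0, k1, k2⟩ := h'.2 hx
    have a0 := (hC M).2.2.1 _ hx 0 f₀ g₀ h0 k0
    have a1 := (hC M).2.2.1 _ hx 1 f₁ g₁ h1 k1
    filter_upwards [hoff, h2, k2, pull hg a0, pull hg a1] with y b c c' d0 d1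
    by_cases hy : lift u y ∈ M.S
    · rw [c hy, c' hy, h2.self_of_nhds hx, k2.self_of_nhds hx]
      have e0 := d0 hy
      have e1 := d1 hy
      apply Complex.ext
      · simp only [add_re, sub_re]; linarith
      · simp only [add_im, sub_im]; linarith
    · exact b hy
  · filter_upwards [hoff, ev_notMem hm hg hx] with y b hy
    exact b hy

theorem good_continuousAt (hm : M.Mem) (hg : Gr M u) (s : ℂ → ℂ) (x : ℂ) (h : Good M u s x) :
    ContinuousAt s x := by
  have hoff : ∀ᶠ y in 𝓝 x, lift u y ∉ M.S → s y = s x := by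
    by_cases hu : u x = 0
    · filter_upwards [h.1 hu] with y a hy
      exact a (hg.eq_zero hy)
    · filter_upwards [ev_pos hg hu] with y hy hS
      exact absurd (hg.mem y hy) hS
  by_cases hx : lift u x ∈ M.S
  · obtain ⟨f₀, f₁, h0, h1, h2⟩ := h.2 hx
    set C : Set ℂ := {y | lift u y ∈ M.S}
    have hl : ContinuousWithinAt (lift u) C x := hg.continuous_lift.continuousWithinAt
    have hmaps : MapsTo (lift u) C M.S := fun y hy => hy
    have c0 : ContinuousWithinAt (fun y => f₀ (lift u y)) C x :=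
      (h0.continuousWithinAt hx).comp hl hmaps
    have c1 : ContinuousWithinAt (fun y => f₁ (lift u y)) C x :=
      (h1.continuousWithinAt hx).comp hl hmaps
    have c2 : ContinuousWithinAt
        (fun y => ((-f₁ (lift u y) : ℝ) : ℂ) + ((f₀ (lift u y) : ℝ) : ℂ) * I) C x :=
      (Complex.continuous_ofReal.continuousAt.comp_continuousWithinAt c1.neg).add
        ((Complex.continuous_ofReal.continuousAt.comp_continuousWithinAt c0).mul
          continuousWithinAt_const)
    have key : ∀ y, (⟨-f₁ (lift u y), f₀ (lift u y)⟩ : ℂ)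
        = ((-f₁ (lift u y) : ℝ) : ℂ) + ((f₀ (lift u y) : ℝ) : ℂ) * I := fun y => by
      apply Complex.ext <;> simp
    have hA : ContinuousWithinAt s C x := by
      refine c2.congr_of_eventuallyEq ?_ ?_
      · filter_upwards [nhdsWithin_le_nhds h2, self_mem_nhdsWithin] with y a hy
        rw [a hy, key]
      · rw [h2.self_of_nhds hx, key]
    have hB : ContinuousWithinAt s Cᶜ x := by
      refine (continuousWithinAt_const (b := s x)).congr_of_eventuallyEq ?_ rfl
      filter_upwards [nhdsWithin_le_nhds hoff, self_mem_nhdsWithin] with y a hy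
      exact a hy
    have := hA.union hB
    rwa [union_compl_self, continuousWithinAt_univ] at this
  · refine (continuousAt_const (y := s x)).congr ?_
    filter_upwards [hoff, ev_notMem hm hg hx] with y b hy
    exact (b hy).symm

end V

/-- `S_GLUE` with `V = G = ℂ`, `K = univ`, `Good s y₀` = the fields `loc` and `rep` of `Ni` at `y₀`.
Local sections: `0` off the closed set `{lift u y ∈ S}`; near `y₀` with `lift u y₀ ∈ S` take
`s y = if lift u y ∈ S then ⟨-f₁ (lift u y), f₀ (lift u y)⟩ else` the value at `y₀`; when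
`u y₀ = 0`, part 4 of `S_CJ` with `j = 2` shows that `s` is constant on `{u = 0}` near `y₀`; when
`0 < u y₀` the condition `loc` is void nearby. `Gr.continuous_lift`, `Gr.eq_zero`,
`Cj.eventually`, `Cj.add_const`, `Cj.continuousWithinAt`. -/
theorem v_of (hG : S_GLUE) (hC : S_CJ) : S_V := by
  intro M u hm hb hg
  obtain ⟨s, hs⟩ := hG ℂ ℂ univ (V.Good M u) convex_univ isOpen_univ V.good_congr
    (fun x _ => V.good_exists hC hm hb hg x)
    (fun s s' x _ h => ⟨s x - s' x,
      V.good_unique hC hm hg s s' x h.self_of_nhds.1 h.self_of_nhds.2⟩)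
    V.good_add
  exact ⟨s, continuous_iff_continuousAt.2 fun x => V.good_continuousAt hm hg s x (hs x trivial),
    fun y => (hs y trivial).1, fun y => (hs y trivial).2⟩

/-- Oriented chart at `x = lift u (pr x)`, `Ni.rep` at `pr x`, part 2 of `S_CJ` for `f₀`, `f₁`,
`Gr.lift_pr`; shrink the chart (`Fits.shrink`, `Ori.shrink`). -/
theorem loc_of (hO : S_OR) (hC : S_CJ) : S_LOC := by
  intro M u V η h x hx h0
  obtain ⟨c, hc0, hf, ho⟩ := hO M x hx
  have hl : lift u (pr x) = x := h.gr.lift_pr hx h0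
  obtain ⟨f₀, f₁, a0, a1, a2⟩ := h.ni.rep (pr x) (by rw [hl]; exact hx)
  rw [hl, ← hc0] at a0 a1
  have b0 := (hC M).2.1 c hf ho 0 f₀ a0
  have b1 := (hC M).2.1 c hf ho 1 f₁ a1
  have hX : ContinuousAt c.X 0 :=
    c.continuousOn_X.continuousAt (ball_mem_nhds _ c.r_pos)
  have hP : Tendsto (fun w => pr (c.X w)) (𝓝 0) (𝓝 (pr x)) := by
    rw [← hc0]
    exact (continuous_pr.continuousAt.comp hX).tendsto
  have hpos : ∀ᶠ w in 𝓝 (0 : ℂ), 0 < x 2 → 0 < c.X w 2 := by
    by_cases hx2 : 0 < x 2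
    · have : Tendsto (fun w => c.X w 2) (𝓝 0) (𝓝 (x 2)) := by
        rw [← hc0]
        exact ((continuous_coord 2).continuousAt.comp hX).tendsto
      filter_upwards [this.eventually (lt_mem_nhds hx2)] with w hw _
      exact hw
    · exact Eventually.of_forall fun _ h => absurd h hx2
  set k : ℂ := ⟨-(f₁ (c.X 0) - (c.Φ 1 0).im), f₀ (c.X 0) - (c.Φ 0 0).im⟩ with hk
  have hall : ∀ᶠ w in 𝓝 (0 : ℂ),
      (0 ≤ c.X w 2 → TT V (c.X w) = c.Φ 0 w + I * c.Φ 1 w + k) ∧ (0 < x 2 → 0 < c.X w 2) := by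
    filter_upwards [b0, b1, hP.eventually a2, hpos, ball_mem_nhds (0 : ℂ) c.r_pos]
      with w d0 d1 d2 d3 hw
    refine ⟨fun h2 => ?_, d3⟩
    have hS : c.X w ∈ M.S := hf.emb.mem hw
    have hl' : lift u (pr (c.X w)) = c.X w := h.gr.lift_pr hS h2
    rw [hl'] at d2
    rw [TT, d2 hS, d0, d1, hk]
    apply Complex.ext
    · simp only [add_re, pr_re, chart_X_apply, mul_re, I_re, I_im]
      ring
    · simp only [add_im, pr_im, chart_X_apply, mul_im, I_re, I_im]
      ring
  obtain ⟨ρ, hρ, hb⟩ := Metric.eventually_nhds_iff_ball.1 hall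
  have h1 : 0 < min ρ c.r := lt_min hρ c.r_pos
  refine ⟨c.shrink (min ρ c.r) h1 (min_le_right _ _), k, hc0, hf.shrink _ h1 _, ho.shrink _ h1 _,
    fun w hw => (hb w (ball_subset_ball (min_le_left _ _) hw)).1,
    fun hx2 w hw => (hb w (ball_subset_ball (min_le_left _ _) hw)).2 hx2⟩

end MW.S6
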