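import Pool.Agent.P.MP_064970_gt.S6.Bas

/-!
# Meeks–Wolf, section 6: the conjugate of the height, existence
-/

open MeasureTheory Set Filter Topology Metric Complex InnerProductSpace
open scoped RealInnerProductSpace ENNReal ComplexConjugate Real

noncomputable section

namespace MW.S6

/-- `S_GLUE` with `V = ℂ`, `G = ℝ`, `K = univ`,
`Good s q = ∃ f, Cj M 2 f (κ q) ∧ ∀ᶠ q' in 𝓝 q, s q' = f (κ q')` (`Cj.eventually`,
`Cj.add_const`, parts 1 and 3 of `S_CJ`). Continuity from `Cj.continuousWithinAt`. For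
`q.im ≤ 0` the point `κ q` has `x 0 * x 1 = 0` (`bd`); part 4 of `S_CJ` with `j = 0` and/or `j = 1`
(`Sym.symS0`, `Sym.symN0`, `rf_of_zero`) shows that `s` is locally constant on the convex set
`{im ≤ 0}` (if `κ q 1 > 0` the nearby boundary points have `x 0 = 0`; at a corner both relations
hold). Subtract the constant. -/
theorem y1_of (hG : S_GLUE) (hC : S_CJ) : S_Y1 := by
  intro M σ₀ κ hS hl
  obtain ⟨h1, -, h3, h4⟩ := hC M
  have hmem : ∀ q, κ q ∈ M.S := fun q => (hl.mem q).1
  have hκ : ∀ q, Tendsto κ (𝓝 q) (𝓝[M.S] (κ q)) := fun q =>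
    tendsto_nhdsWithin_iff.2 ⟨hl.cont.tendsto q, Eventually.of_forall hmem⟩
  obtain ⟨s, hs⟩ := hG ℂ ℝ univ
    (fun s q => ∃ f, Cj M 2 f (κ q) ∧ ∀ᶠ q' in 𝓝 q, s q' = f (κ q')) convex_univ isOpen_univ
    (by
      rintro s s' x ⟨f, hf, he⟩ hss
      refine ⟨f, hf, ?_⟩
      filter_upwards [he, hss] with y h h'
      rw [← h', h])
    (by
      intro x _
      obtain ⟨f, hf⟩ := h1 (κ x) (hmem x) 2
      refine ⟨fun q => f (κ q), ?_⟩
      filter_upwards [(hκ x).eventually hf.eventually] with y hy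
      exact ⟨f, hy, Eventually.of_forall fun _ => rfl⟩)
    (by
      intro s s' x _ h
      obtain ⟨⟨f, hf, he⟩, ⟨f', hf', he'⟩⟩ := h.self_of_nhds
      refine ⟨f (κ x) - f' (κ x), ?_⟩
      filter_upwards [he, he', (hκ x).eventually (h3 (κ x) (hmem x) 2 f f' hf hf')] with y a b c
      rw [a, b]
      linarith)
    (by
      rintro s x g ⟨f, hf, he⟩
      refine ⟨fun y => f y + g, hf.add_const g, ?_⟩
      filter_upwards [he] with y h
      rw [h])
  have hcont : Continuous s := by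
    refine continuous_iff_continuousAt.2 fun q => ?_
    obtain ⟨f, hf, he⟩ := hs q (mem_univ q)
    have h : ContinuousAt (fun q' => f (κ q')) q :=
      Tendsto.comp (hf.continuousWithinAt (hmem q)) (hκ q)
    exact h.congr (EventuallyEq.symm he)
  have hA : ∀ j : Fin 3, (∀ x ∈ M.S, rf j x ∈ M.S) → (∀ x ∈ M.S, M.N (rf j x) = rf j (M.N x)) →
      (2 : Fin 3) ≠ j → ∀ q, ∀ᶠ q' in 𝓝 q, κ q' j = 0 → s q' = s q := by
    intro j hj hj' hne q
    by_cases hq : κ q j = 0
    · obtain ⟨f, hf, he⟩ := hs q (mem_univ q)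
      filter_upwards [he, (hκ q).eventually (h4 j hj hj' (κ q) (hmem q) hq 2 f hne hf)]
        with y a b c
      rw [rf_of_zero c] at b
      rw [a, he.self_of_nhds]
      linarith
    · have hc : ContinuousAt (fun q' => κ q' j) q :=
        ((continuous_coord j).comp hl.cont).continuousAt
      filter_upwards [hc.eventually_ne hq] with y a b
      exact absurd b a
  have hbd : ∀ q : ℂ, q.im ≤ 0 → κ q 0 = 0 ∨ κ q 1 = 0 := by
    intro q hq
    refine mul_eq_zero.1 ((hl.bd (κ q) (hl.mem q)).2 ?_)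
    rw [hl.sum q, hl.two q, max_eq_right hq, add_zero]
  have hconst : ∀ q : ℂ, q.im ≤ 0 → s q = s 0 := by
    intro q hq
    refine (convex_halfSpace_im_le 0).isPreconnected.induction₂' (fun a b => s a = s b) ?_
      (fun _ _ _ _ _ _ a b => a.trans b) hq (show (0 : ℂ).im ≤ 0 from le_rfl)
    intro x _
    filter_upwards [self_mem_nhdsWithin,
      mem_nhdsWithin_of_mem_nhds (hA 0 hS.symS0 hS.symN0 (by decide) x),
      mem_nhdsWithin_of_mem_nhds (hA 1 hS.b1.symS hS.b1.symN (by decide) x)] with y a b c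
    have h : s y = s x := (hbd y a).elim b c
    exact ⟨h.symm, h⟩
  refine ⟨fun q => s q - s 0, hcont.sub continuous_const, fun q hq => sub_eq_zero.2 (hconst q hq),
    fun q => ?_⟩
  obtain ⟨f, hf, he⟩ := hs q (mem_univ q)
  refine ⟨fun y => f y - s 0, hf.sub_const _, ?_⟩
  filter_upwards [he] with y h
  rw [h]

end MW.S6
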