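import Pool.Agent.P.MP_064970_gt.S6.Bas

/-!
# Meeks–Wolf, section 6: the conjugate of the height increases
-/

open MeasureTheory Set Filter Topology Metric Complex InnerProductSpace
open scoped RealInnerProductSpace ENNReal ComplexConjugate Real

noncomputable section

namespace MW.S6

namespace Y2

theorem vec_apply (a b c : ℝ) : (WithLp.toLp 2 ![a, b, c] : E) 0 = a ∧
    (WithLp.toLp 2 ![a, b, c] : E) 1 = b ∧ (WithLp.toLp 2 ![a, b, c] : E) 2 = c :=
  ⟨rfl, rfl, rfl⟩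

theorem σ_nonneg {M : Surf} {σ₀ : ℝ → ℝ} {κ : ℂ → E} (h : Sl M σ₀ κ) (t : ℝ) : 0 ≤ σ₀ t := by
  have h1 := h.sum t
  have h2 := h.mem t
  simp only [ofReal_re, ofReal_im, max_self, add_zero] at h1
  rw [← h1]
  exact add_nonneg h2.2.1 h2.2.2

theorem sum_eq {M : Surf} {σ₀ : ℝ → ℝ} {κ : ℂ → E} (h : Sl M σ₀ κ) (t : ℝ) {s : ℝ} (hs : 0 ≤ s) :
    κ (t + s * I) 0 + κ (t + s * I) 1 = σ₀ t + s := by
  have h1 := h.sum (t + s * I)
  simpa [hs] using h1

theorem two_eq {M : Surf} {σ₀ : ℝ → ℝ} {κ : ℂ → E} (h : Sl M σ₀ κ) (t s : ℝ) :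
    κ (t + s * I) 2 = t := by
  simpa using h.two (t + s * I)

/-- The derivative of the slice. -/
theorem slice_deriv (hT : S_TANG) {M : Surf} {σ₀ : ℝ → ℝ} {κ : ℂ → E} (hM : Sym M)
    (h : Sl M σ₀ κ) (t : ℝ) {s₁ : ℝ} (hs : 0 < s₁) {n : E} (hn : n = M.N (κ (t + s₁ * I))) :
    HasDerivAt (fun s : ℝ => κ (t + s * I))
      (WithLp.toLp 2 ![n 1 / (n 1 - n 0), -n 0 / (n 1 - n 0), 0] : E) s₁ := by
  have hd : 0 < n 1 - n 0 := by
    rw [hn]
    refine hM.sub_pos (h.mem _) ?_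
    rw [sum_eq h t hs.le]
    linarith [σ_nonneg h t]
  have hq : κ (t + ((((σ₀ t + s₁ : ℝ) : ℂ) + t * I).re - σ₀ t : ℝ) * I) = κ (t + s₁ * I) := by
    simp
  have key := hT M ((innerSL ℝ (ee 0) + innerSL ℝ (ee 1)).smulRight (1 : ℂ) +
      (innerSL ℝ (ee 2)).smulRight I)
    (reCLM.smulRight (WithLp.toLp 2 ![n 1 / (n 1 - n 0), -n 0 / (n 1 - n 0), 0] : E) +
      imCLM.smulRight (WithLp.toLp 2 ![n 2 / (n 1 - n 0), -n 2 / (n 1 - n 0), 1] : E))
    (fun p => κ (t + (p.re - σ₀ t : ℝ) * I)) {p | p.im = t ∧ σ₀ t ≤ p.re}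
    (((σ₀ t + s₁ : ℝ) : ℂ) + t * I) ⟨by simp, by simp [hs.le]⟩
    (fun v hv => by
      rw [hq, ← hn, inner_eq] at hv
      ext j
      fin_cases j
      · simp
        field_simp
        linarith
      · simp
        field_simp
        linarith
      · simp)
    (Continuous.continuousWithinAt (h.cont.comp (by fun_prop)))
    (fun p hp => ⟨(h.mem _).1, by
      have h1 := sum_eq h t (sub_nonneg.2 hp.2)
      have h2 := two_eq h t (p.re - σ₀ t)
      apply Complex.ext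
      · simp only [ContinuousLinearMap.add_apply, ContinuousLinearMap.smulRight_apply,
          innerSL_apply_apply, ee_inner, h1, h2]
        simp
      · simp only [ContinuousLinearMap.add_apply, ContinuousLinearMap.smulRight_apply,
          innerSL_apply_apply, ee_inner, h1, h2]
        simp [hp.1]⟩)
  have hp : HasDerivWithinAt (fun s : ℝ => ((σ₀ t + s : ℝ) : ℂ) + t * I) 1 (Ioi 0) s₁ := by
    have := (((hasDerivAt_id s₁).const_add (σ₀ t)).ofReal_comp.add_const ((t : ℂ) * I))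
    simpa using this.hasDerivWithinAt
  have hm : MapsTo (fun s : ℝ => ((σ₀ t + s : ℝ) : ℂ) + t * I) (Ioi 0)
      {p | p.im = t ∧ σ₀ t ≤ p.re} := fun s hs' =>
    ⟨by simp, by simp [le_of_lt (mem_Ioi.1 hs')]⟩
  have h3 := (key.comp_hasDerivWithinAt s₁ hp hm).hasDerivAt (Ioi_mem_nhds hs)
  refine (h3.congr_deriv (by simp)).congr_of_eventuallyEq (Eventually.of_forall fun s => ?_)
  simp

/-- The derivative of the conjugate along the slice. -/
theorem conj_deriv (hT : S_TANG) {M : Surf} {σ₀ : ℝ → ℝ} {κ : ℂ → E} {Y : ℂ → ℝ} (hM : Sym M)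
    (h : Sl M σ₀ κ) (hY : Yc M κ Y) (t : ℝ) {s₁ : ℝ} (hs : 0 < s₁) :
    ∃ d, 0 < d ∧ ‖pr (M.N (κ (t + s₁ * I)))‖ / 2 ≤ d ∧
      HasDerivAt (fun s : ℝ => Y (t + s * I)) d s₁ := by
  obtain ⟨n, hn⟩ : ∃ n, n = M.N (κ (t + s₁ * I)) := ⟨_, rfl⟩
  have hd : 0 < n 1 - n 0 := by
    rw [hn]
    refine hM.sub_pos (h.mem _) ?_
    rw [sum_eq h t hs.le]
    linarith [σ_nonneg h t]
  obtain ⟨f, hf, hYf⟩ := hY.rep (t + s₁ * I)
  have h1 := ((hf.hasFDerivWithinAt (h.mem _).1).comp_hasDerivWithinAt s₁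
    (slice_deriv hT hM h t hs hn).hasDerivWithinAt (s := univ)
    fun s _ => (h.mem _).1).hasDerivAt univ_mem
  rw [← hn] at h1 ⊢
  have hP := norm_pr_sq n
  have hP0 := norm_nonneg (pr n)
  have hle : n 1 - n 0 ≤ 2 * ‖pr n‖ :=
    le_of_sq_le_sq (by nlinarith [sq_nonneg (n 0 + n 1)]) (by positivity)
  refine ⟨(n 0 ^ 2 + n 1 ^ 2) / (n 1 - n 0), div_pos (by nlinarith [sq_nonneg (n 0 + n 1)]) hd,
    ?_, ?_⟩
  · rw [div_le_div_iff₀ two_pos hd]
    nlinarith
  · have hc : Continuous fun s : ℝ => (t : ℂ) + s * I := by fun_prop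
    have h2 : (fun s : ℝ => Y (t + s * I)) =ᶠ[𝓝 s₁] fun s : ℝ => f (κ (t + s * I)) :=
      (hc.tendsto s₁).eventually hYf
    refine (h1.congr_deriv ?_).congr_of_eventuallyEq h2
    rw [innerSL_apply_apply, inner_cross_ee2, (vec_apply _ _ _).1, (vec_apply _ _ _).2.1]
    field_simp
    ring

end Y2

/-- Fix `t`, `s₁ > 0`, `x = κ (t + s₁ I)`, `n = N x`, `0 < n 1 - n 0` (`Sym.sub_pos`). `S_TANG` with
`L x = (x 0 + x 1) + x 2 * I`, `γ p = κ (p.im + (p.re - σ₀ p.im) I)`,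
`P = {p | σ₀ p.im ≤ p.re}`,
`A p = ((n 1 p.re + n 2 p.im)/(n 1 - n 0), (-n 0 p.re - n 2 p.im)/(n 1 - n 0), p.im)`. So
`s ↦ Y (t + s I)` has derivative `⟪cross n (ee 2), A 1⟫ = (n 0² + n 1²)/(n 1 - n 0) ≥ ‖pr n‖ / 2`
at `s₁` (`Cj.hasFDerivWithinAt`, `inner_cross_ee2`). `strictMonoOn_of_deriv_pos`; by `Sym.far` the
derivative is at least `c / 2` for large `s`. -/
theorem y2_of (hT : S_TANG) : S_Y2 := by
  intro M σ₀ κ Y hM h hY t
  have hc : Continuous fun s : ℝ => Y (t + s * I) := hY.cont.comp (by fun_prop)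
  refine ⟨strictMonoOn_of_deriv_pos (convex_Ici 0) hc.continuousOn fun s hs => ?_, ?_⟩
  · rw [interior_Ici] at hs
    obtain ⟨d, hd, -, h1⟩ := Y2.conj_deriv hT hM h hY t hs
    rwa [h1.deriv]
  · obtain ⟨c, R, hc0, hR⟩ := hM.far t
    have key := (convex_Ici (2 * |R|)).mul_sub_le_image_sub_of_le_deriv (C := c / 2)
      hc.continuousOn (fun s hs => by
        rw [interior_Ici] at hs
        obtain ⟨d, -, -, h1⟩ := Y2.conj_deriv hT hM h hY t
          (lt_of_le_of_lt (by positivity) (mem_Ioi.1 hs))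
        exact h1.differentiableAt.differentiableWithinAt) fun s hs => by
        rw [interior_Ici] at hs
        have hs0 : 0 < s := lt_of_le_of_lt (by positivity) (mem_Ioi.1 hs)
        obtain ⟨d, -, hd, h1⟩ := Y2.conj_deriv hT hM h hY t hs0
        rw [h1.deriv]
        refine le_trans (div_le_div_of_nonneg_right (hR _ (h.mem _).1 (Y2.two_eq h t s) ?_)
          two_pos.le) hd
        have h2 := Y2.sum_eq h t hs0.le
        have h3 := Y2.σ_nonneg h t
        have h4 := (le_abs_self _).trans (PiLp.norm_apply_le (κ (t + s * I)) 0)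
        have h5 := (le_abs_self _).trans (PiLp.norm_apply_le (κ (t + s * I)) 1)
        have h6 := mem_Ioi.1 hs
        linarith [le_abs_self R]
    have h7 : Tendsto (fun s : ℝ => c / 2 * (s - 2 * |R|) + Y (t + (2 * |R| : ℝ) * I))
        atTop atTop :=
      tendsto_atTop_add_const_right _ _
        ((tendsto_atTop_add_const_right _ _ tendsto_id).const_mul_atTop (half_pos hc0))
    refine tendsto_atTop_mono' _ ?_ h7
    filter_upwards [eventually_ge_atTop (2 * |R|)] with s hs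
    linarith [key _ self_mem_Ici s hs hs]

end MW.S6
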