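import Pool.Agent.P.MP_064970_gt.S6.BG
import Pool.Agent.P.MP_064970_gt.S6.OR
import Pool.Agent.P.MP_064970_gt.S6.CJ
import Pool.Agent.P.MP_064970_gt.S6.RL
import Pool.Agent.P.MP_064970_gt.S6.OSC
import Pool.Agent.P.MP_064970_gt.S6.SL1
import Pool.Agent.P.MP_064970_gt.S6.SL2
import Pool.Agent.P.MP_064970_gt.S6.Y1
import Pool.Agent.P.MP_064970_gt.S6.Y2
import Pool.Agent.P.MP_064970_gt.S6.DATA
import Pool.Agent.P.MP_064970_gt.S6.FIN
import Pool.Agent.P.MP_064970_gt.S6.NORM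
import Pool.Agent.P.MP_064970_gt.S6.GR
import Pool.Agent.P.MP_064970_gt.S6.V
import Pool.Agent.P.MP_064970_gt.S6.MON
import Pool.Agent.P.MP_064970_gt.S6.HOL
import Pool.Agent.P.MP_064970_gt.S6.NULL
import Pool.Agent.P.MP_064970_gt.S6.PUSH
import Pool.Agent.P.MP_064970_gt.S6.SYMU
import Pool.Agent.P.MP_064970_gt.S6.GO
import Pool.Agent.P.MP_064970_gt.S6.CELL
import Pool.Agent.P.MP_064970_gt.S6.G1
import Pool.Agent.P.MP_064970_gt.S6.REST
import Pool.Agent.P.MP_064970_gt.S6.CAT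
import Pool.Agent.P.MP_064970_gt.AN.Main
import Pool.Agent.P.MP_064970_gt.PL.Main

/-!
# Meeks–Wolf, section 6: assembly
-/

open scoped RealInnerProductSpace

namespace MW

open S6

theorem S6.sym0_of (hG : S_GLUE) : S_SYM0 := fun M hM => by
  have hC := cj_of ori
  obtain ⟨σ₀, h0⟩ := sl1 M hM
  obtain ⟨κ, hκ⟩ := sl2 M σ₀ hM h0
  obtain ⟨Y, hY⟩ := y1_of hG hC M σ₀ κ hM hκ
  obtain ⟨G, hP⟩ := par M σ₀ κ Y hM hκ hY (y2_of tang M σ₀ κ Y hM hκ hY)
  exact fin M σ₀ G hM h0 hP (AN.half_plane (data_of ori hC M G hM hP))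

theorem S6.ii0_of (hG : S_GLUE) (hA : S_AREA0) : S_II0 := fun M hM => by
  have hC := cj_of ori
  have hL := loc_of ori hC
  have hH := hol_of hL
  have hN := null_of hL
  have hP := push_of hL
  have hT := trans_of hN
  have hGo := go_of osc hH hhf hP hT (den_of vit)
  obtain ⟨u, hu⟩ := gr M hM.mem hM.bg
  obtain ⟨V, hV⟩ := v_of hG hC M u hM.mem hM.bg hu
  have hm := mon_of tang mono1 M u V hM.mem hM.bg hu hV
  have hst : ∀ y y' : ℂ, ‖y - y'‖ ^ 2 ≤ ⟪(y + V y) - (y' + V y'), y - y'⟫ := fun y y' => by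
    have h1 : (y + V y) - (y' + V y') = (y - y') + (V y - V y') := by ring
    rw [h1, inner_add_left, real_inner_self_eq_norm_sq]
    linarith [hm y y']
  have hs := surj (fun y => y + V y) (continuous_id.add hV.cont) hst
  choose η hη using hs
  replace hη : ∀ z, η z + V (η z) = z := hη
  have hinj : ∀ y y' : ℂ, y + V y = y' + V y' → y = y' := fun y y' h => by
    have h1 := hst y y'
    rw [h, sub_self, inner_zero_left] at h1
    exact sub_eq_zero.1 (norm_eq_zero.1 (pow_eq_zero_iff two_ne_zero |>.1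
      (le_antisymm h1 (sq_nonneg _))))
  have hB : NB M u V η := ⟨hM.mem, hM.bg, hu, hV, fun y => hinj _ _ (hη _), hη, fun z z' => by
    have h1 := hst (η z) (η z')
    rwa [hη z, hη z'] at h1⟩
  exact cat_of hH hhf M u V η hB (PL.planar _ _ (rest_of hH hhf hN mono1 M u V η hM hB
    (g1_of vit (cell_of hGo hP (symu_of hA) hN hhf) hT hGo hhf M u V η hM hB)))

/-- Two orthogonal mirror planes give a Scherk surface. -/
theorem sym2_of (hG : S_GLUE) : S_SYM2 := S6.sym2_of bg (S6.sym0_of hG)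

/-- One mirror plane gives a catenoid. -/
theorem ii3_of (hG : S_GLUE) (hA : S_AREA0) : S_II3 := S6.ii3_of bg (S6.ii0_of hG hA)

end MW
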