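import Pool.Agent.P.MP_064970_gt.Base

/-!
# Meeks–Wolf, section 6: symmetric bigraphs (the interface)
-/

open MeasureTheory Set Filter Topology Metric
open scoped RealInnerProductSpace ENNReal ComplexConjugate Real

noncomputable section

namespace MW

/-- Reflection in the plane `⟪x, e⟫ = a` (for a unit vector `e`). -/
def mir (e : E) (a : ℝ) (x : E) : E := x - (2 * (⟪x, e⟫ - a)) • e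

/-- A symmetric bigraph in the direction `e`, with mirror plane `⟪x, e⟫ = a`. -/
structure Big (M : Surf) (e : E) (a : ℝ) : Prop where
  symS : ∀ x ∈ M.S, mir e a x ∈ M.S
  symW : ∀ x ∈ M.W, mir e a x ∈ M.W
  pos : ∀ x ∈ M.S, a < ⟪x, e⟫ → 0 < ⟪M.N x, e⟫
  cone : ∃ L R₀ : ℝ, ∀ x : E, R₀ ≤ ‖x‖ → L * ‖x - ⟪x, e⟫ • e‖ < |⟪x, e⟫| → x ∈ M.W'

/-- Two orthogonal mirror planes give a Scherk surface. -/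
def S_SYM2 : Prop := ∀ (M : Surf) (e e' : E) (a a' : ℝ), M.Mem → ‖e‖ = 1 → ‖e'‖ = 1 →
  ⟪e, e'⟫ = 0 → Big M e a → Big M.swap e' a' →
  (∀ T : ℝ, ∃ c R : ℝ, 0 < c ∧ ∀ x ∈ M.S, ‖x - ⟪x, e⟫ • e - ⟪x, e'⟫ • e'‖ ≤ T → R ≤ ‖x‖ →
    c ≤ ⟪M.N x, e⟫ ^ 2 + ⟪M.N x, e'⟫ ^ 2) →
  IsScherk M.S

/-- One horizontal mirror plane, with a double plane as blow-down. -/
structure II3 (M : Surf) (a : ℝ) : Prop where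
  mem : M.Mem
  big : Big M e3 a
  ne : ∃ x ∈ M.S, x 2 = a
  d1 : ∀ ε : ℝ, 0 < ε → ∃ R : ℝ, ∀ x ∈ M.S, R ≤ ‖x‖ → |x 2| ≤ ε * ‖x‖
  d2 : ∀ ε : ℝ, 0 < ε → ∃ R : ℝ, ∀ r : ℝ, R ≤ r →
    ∫ x in ball (0 : E) r, ‖pr (M.N x)‖ ^ 2 ∂M.μ ≤ ε * r ^ 2
  d3 : ∃ c : ℝ, 0 < c ∧ ∀ ε : ℝ, 0 < ε → ∃ R : ℝ, ∀ y : ℂ, R ≤ ‖y‖ → y ∉ pr '' M.S →
    ∃ t b : ℝ, 0 < b ∧ b ≤ ε * ‖y‖ ∧ ∀ θ : ℂ, ‖θ‖ = 1 →
      c * b ^ 2 ≤ ∫ x in ball (pt y t) b, ⟪pr (M.N x), θ⟫ ^ 2 ∂M.μ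

/-- One mirror plane gives a catenoid. -/
def S_II3 : Prop := ∀ (M : Surf) (a : ℝ), II3 M a → IsCatenoid M.S

end MW
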