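import Pool.Agent.P.MP_064970_gt.S6.Bas

/-!
# Meeks–Wolf, section 6: symmetric bigraphs in a coordinate frame
-/

open MeasureTheory Set Filter Topology Metric Complex InnerProductSpace
open scoped RealInnerProductSpace ENNReal ComplexConjugate Real

noncomputable section

namespace MW.S6

namespace BG

variable {M : Surf} {i : Fin 3}

theorem symN (hS : ∀ x ∈ M.S, rf i x ∈ M.S) (hW : ∀ x ∈ M.W, rf i x ∈ M.W) {x : E}
    (hx : x ∈ M.S) : M.N (rf i x) = rf i (M.N x) := by
  by_contra hne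
  set n := rf i (M.N (rf i x)) with hn
  have hn1 : ‖n‖ = 1 := by rw [hn, norm_rf]; exact M.N_unit _ (hS x hx)
  have hN1 := M.N_unit x hx
  have hne' : n ≠ M.N x := fun h => hne (by rw [← h, hn, rf_rf])
  have hlt : ⟪n, M.N x⟫ < 1 := inner_lt_one_iff_real_of_norm_eq_one hn1 hN1 |>.2 hne'
  have h1 : 0 < ⟪rf i (n - M.N x), M.N (rf i x)⟫ := by
    rw [← inner_rf_rf i, rf_rf, ← hn, inner_sub_left, real_inner_self_eq_norm_sq, hn1,
      real_inner_comm]
    linarith
  have h2 : 0 < ⟪-(n - M.N x), M.N x⟫ := by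
    rw [inner_neg_left, inner_sub_left, real_inner_self_eq_norm_sq, hN1]; linarith
  obtain ⟨t, ht1, ht2⟩ := ((M.side _ (hS x hx) _ h1).and (M.side x hx _ h2)).exists
  have h3 := hW _ ht1.2
  rw [← rf_smul, ← rf_sub, rf_rf] at h3
  have h4 := ht2.1
  rw [smul_neg, ← sub_eq_add_neg] at h4
  exact disjoint_left.1 M.disj h3 h4

theorem clo (hM : M.Mem) {x : E} (hx : x ∈ M.S) (h0 : x i = 0) (hN : M.N x i = 0) :
    x ∈ closure {y | y ∈ M.S ∧ 0 < y i} := by
  rw [Metric.mem_closure_iff]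
  intro ε hε
  obtain ⟨ρ, hρ, hb⟩ := Metric.continuousWithinAt_iff.1 (M.N_cont x hx) (1 / 2) (by norm_num)
  have hs : 0 < min (ρ / 4) (ε / 4) := lt_min (by linarith) (by linarith)
  set s := min (ρ / 4) (ε / 4) with hsd
  have hw : ‖s • ee i‖ = s := by rw [norm_smul, norm_ee, mul_one, Real.norm_of_nonneg hs.le]
  obtain ⟨t, ht, hm⟩ := M.cover_disc (ρ := ρ) (ε := 1 / 2) hx (M.N_unit x hx) (by norm_num) le_rfl
    (hM.sub _) (fun z hz => by
      have := hb hz.1 (mem_ball.1 hz.2)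
      rw [dist_eq_norm] at this; exact this.le) (w := s • ee i)
    (by rw [real_inner_smul_left, ee_inner, hN, mul_zero])
    (by rw [hw]; exact (min_le_left _ _).trans_lt (by linarith))
  refine ⟨_, ⟨hm, ?_⟩, ?_⟩
  · simp [h0, hN, hs]
  · rw [dist_eq_norm]
    have h1 : x - (x + s • ee i + t • M.N x) = -(s • ee i + t • M.N x) := by abel
    rw [h1, norm_neg]
    refine (norm_add_le _ _).trans_lt ?_
    rw [hw] at ht
    rw [hw, norm_smul, M.N_unit x hx, mul_one, Real.norm_eq_abs]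
    have := min_le_right (ρ / 4) (ε / 4)
    linarith

theorem inj_pos (hM : M.Mem) (hp : ∀ x ∈ M.S, 0 < x i → 0 < M.N x i) {x : E} (hx : x ∈ M.S)
    (h0 : 0 < x i) {t : ℝ} (ht : 0 < t) : x + t • ee i ∉ M.S := fun hy => by
  refine M.one_cross hx hy (hM.sub _) fun z hz hzS => ?_
  rw [add_sub_cancel_left, real_inner_smul_left, ee_inner]
  refine mul_pos ht (hp z hzS ?_)
  obtain ⟨a, b, ha, hb, hab, rfl⟩ := hz
  simp only [PiLp.add_apply, PiLp.smul_apply, smul_eq_mul, ee_self, mul_one]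
  have h1 : a * x i + b * (x i + t) = x i + b * t := by
    rw [show a = 1 - b by linarith]; ring
  rw [h1]
  have := mul_nonneg hb ht.le
  linarith

end BG

theorem bg : S_BG := fun M i hM hB => by
  have hS : ∀ x ∈ M.S, rf i x ∈ M.S := fun x hx => by simpa [mir_ee] using hB.symS x hx
  have hW : ∀ x ∈ M.W, rf i x ∈ M.W := fun x hx => by simpa [mir_ee] using hB.symW x hx
  have hp : ∀ x ∈ M.S, 0 < x i → 0 < M.N x i := fun x hx h0 => by
    simpa using hB.pos x hx (by simpa using h0)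
  have hz : ∀ x ∈ M.S, x i = 0 → M.N x i = 0 := fun x hx h0 => by
    have h1 := congrArg (fun v : E => v i) (BG.symN hS hW hx)
    simp only [rf_of_zero h0, rf_self] at h1
    linarith
  refine ⟨hS, fun x hx => BG.symN hS hW hx, hp, hz, fun x hx h0 t ht hy => ?_,
    fun x hx h0 => BG.clo hM hx h0 (hz x hx h0), ?_⟩
  · rcases h0.eq_or_lt with h0 | h0
    · have hy0 : 0 < (x + t • ee i) i := by simp [← h0, ht]
      have h1 := M.side _ hy (ee i) (by rw [ee_inner]; exact hp _ hy hy0)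
      obtain ⟨δ, ⟨hδ1, hδ2⟩, hδ0, hδt⟩ := (h1.and (Ioo_mem_nhdsGT ht)).exists
      have c1 : Continuous fun x' : E => x' + t • ee i + δ • ee i := by fun_prop
      have c2 : Continuous fun x' : E => x' + t • ee i - δ • ee i := by fun_prop
      have e1 := ((c1.tendsto x).eventually (M.isOpen_W'.mem_nhds hδ1)).and
        ((c2.tendsto x).eventually (M.isOpen_W.mem_nhds hδ2))
      obtain ⟨x', ⟨hx1, hx2⟩, hx3, hx4⟩ := mem_closure_iff_nhds.1
        (BG.clo hM hx h0.symm (hz x hx h0.symm)) _ e1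
      obtain ⟨z, ⟨a, b, ha, hb, hab, rfl⟩, hzS⟩ := M.exists_cross (hM.sub _) hx2 hx1
      refine BG.inj_pos hM hp hx3 hx4 (t := t + (b - a) * δ) (by nlinarith) ?_
      convert hzS using 1
      rw [show a = 1 - b by linarith]
      module
    · exact BG.inj_pos hM hp hx h0 ht hy
  · obtain ⟨L, R₀, h⟩ := hB.cone
    refine ⟨max L 1, R₀, lt_max_of_lt_right one_pos, fun x hx hc => h x hx ?_⟩
    rw [inner_ee]
    exact (mul_le_mul_of_nonneg_right (le_max_left _ _) (norm_nonneg _)).trans_lt hc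

end MW.S6
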