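import Pool.Agent.P.MP_064970_gt.S6.Stmts

/-!
# Meeks–Wolf, section 6: small lemmas
-/

open MeasureTheory Set Filter Topology Metric Complex InnerProductSpace
open scoped RealInnerProductSpace ENNReal ComplexConjugate Real

noncomputable section

namespace MW.S6

theorem ee_apply (i j : Fin 3) : ee i j = if j = i then 1 else 0 := by
  simp [ee, PiLp.single_apply]

@[simp] theorem ee_self (i : Fin 3) : ee i i = 1 := by simp [ee_apply]

theorem ee_ne {i j : Fin 3} (h : j ≠ i) : ee i j = 0 := by simp [ee_apply, h]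

@[simp] theorem inner_ee (x : E) (i : Fin 3) : ⟪x, ee i⟫ = x i := by
  rw [inner_eq]; fin_cases i <;> simp [ee_apply]

@[simp] theorem ee_inner (x : E) (i : Fin 3) : ⟪ee i, x⟫ = x i := by
  rw [real_inner_comm, inner_ee]

@[simp] theorem norm_ee (i : Fin 3) : ‖ee i‖ = 1 := by simp [ee]

theorem ee_two : ee 2 = e3 := by
  ext j; fin_cases j <;> simp [ee_apply, e3]

theorem rf_apply (i j : Fin 3) (x : E) : rf i x j = if j = i then -x j else x j := by
  by_cases h : j = i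
  · subst h; simp [rf]; ring
  · simp [rf, ee_ne h, h]

@[simp] theorem rf_self (i : Fin 3) (x : E) : rf i x i = -x i := by simp [rf_apply]

theorem rf_ne {i j : Fin 3} (h : j ≠ i) (x : E) : rf i x j = x j := by simp [rf_apply, h]

@[simp] theorem rf_rf (i : Fin 3) (x : E) : rf i (rf i x) = x := by
  ext j; by_cases h : j = i <;> simp [rf_apply, h]

theorem rf_of_zero {i : Fin 3} {x : E} (h : x i = 0) : rf i x = x := by simp [rf, h]

theorem rf_add (i : Fin 3) (x y : E) : rf i (x + y) = rf i x + rf i y := by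
  ext j; by_cases h : j = i <;> simp [rf_apply, h]; ring

theorem rf_smul (i : Fin 3) (c : ℝ) (x : E) : rf i (c • x) = c • rf i x := by
  ext j; by_cases h : j = i <;> simp [rf_apply, h]

theorem rf_neg (i : Fin 3) (x : E) : rf i (-x) = -rf i x := by
  ext j; by_cases h : j = i <;> simp [rf_apply, h]

theorem rf_sub (i : Fin 3) (x y : E) : rf i (x - y) = rf i x - rf i y := by
  ext j; by_cases h : j = i <;> simp [rf_apply, h]; ring

/-- The reflection as a continuous linear map. -/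
def rfL (i : Fin 3) : E →L[ℝ] E := LinearMap.toContinuousLinearMap
  { toFun := rf i, map_add' := rf_add i, map_smul' := rf_smul i }

@[simp] theorem rfL_apply (i : Fin 3) (x : E) : rfL i x = rf i x := rfl

@[fun_prop] theorem continuous_rf (i : Fin 3) : Continuous (rf i) := (rfL i).continuous

theorem inner_rf_rf (i : Fin 3) (x y : E) : ⟪rf i x, rf i y⟫ = ⟪x, y⟫ := by
  rw [inner_eq, inner_eq]; fin_cases i <;> simp [rf_apply]

@[simp] theorem norm_rf (i : Fin 3) (x : E) : ‖rf i x‖ = ‖x‖ := by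
  rw [norm_eq_sqrt_real_inner, inner_rf_rf, ← norm_eq_sqrt_real_inner]

theorem rf_mem_ball (i : Fin 3) (x p : E) (r : ℝ) : rf i x ∈ ball (rf i p) r ↔ x ∈ ball p r := by
  rw [mem_ball_iff_norm, mem_ball_iff_norm, ← rf_sub, norm_rf]

@[simp] theorem pr_rf_two (x : E) : pr (rf 2 x) = pr x := by
  apply Complex.ext <;> simp [rf_apply]

theorem rf_pt (y : ℂ) (t : ℝ) : rf 2 (pt y t) = pt y (-t) := by
  ext j; fin_cases j <;> simp [rf_apply]

theorem mir_ee (i : Fin 3) (x : E) : mir (ee i) 0 x = rf i x := by simp [mir, rf]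

@[simp] theorem cross_zero (a b : E) : cross a b 0 = a 1 * b 2 - a 2 * b 1 := rfl
@[simp] theorem cross_one (a b : E) : cross a b 1 = a 2 * b 0 - a 0 * b 2 := rfl
@[simp] theorem cross_two (a b : E) : cross a b 2 = a 0 * b 1 - a 1 * b 0 := rfl

theorem inner_cross_ee0 (n v : E) : ⟪cross n (ee 0), v⟫ = n 2 * v 1 - n 1 * v 2 := by
  rw [inner_eq]; simp [ee_apply]; ring

theorem inner_cross_ee1 (n v : E) : ⟪cross n (ee 1), v⟫ = n 0 * v 2 - n 2 * v 0 := by
  rw [inner_eq]; simp [ee_apply]; ring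

theorem inner_cross_ee2 (n v : E) : ⟪cross n (ee 2), v⟫ = n 1 * v 0 - n 0 * v 1 := by
  rw [inner_eq]; simp [ee_apply]; ring

theorem inner_complex (z w : ℂ) : ⟪z, w⟫ = z.re * w.re + z.im * w.im := by
  rw [Complex.inner]; simp; ring

theorem unit_sq {n : E} (hn : ‖n‖ = 1) : n 0 ^ 2 + n 1 ^ 2 + n 2 ^ 2 = 1 := by
  have h := real_inner_self_eq_norm_sq n
  rw [inner_eq, hn] at h; nlinarith [h]

theorem norm_pr_sq (x : E) : ‖pr x‖ ^ 2 = x 0 ^ 2 + x 1 ^ 2 := by
  rw [Complex.sq_norm, Complex.normSq_apply]; simp; ring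

/-! ### Oriented charts -/

theorem Ori.shrink {c : Chart} {N : E → E} (h : Ori c N) (ρ : ℝ) (h0 : 0 < ρ) (hρ : ρ ≤ c.r) :
    Ori (c.shrink ρ h0 hρ) N := fun z hz => h z (ball_subset_ball hρ hz)

section ori

variable {M : Surf} {c : Chart} {z : ℂ}

/-- The coordinates of `N × X_u = X_v` and `⟪N, X_u⟫ = 0`. -/
theorem Ori.coords (hf : c.Fits M.S M.N M.μ) (ho : Ori c M.N) (hz : z ∈ ball (0 : ℂ) c.r) :
    -(deriv (c.Φ 0) z).im = M.N (c.X z) 1 * (deriv (c.Φ 2) z).re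
      - M.N (c.X z) 2 * (deriv (c.Φ 1) z).re ∧
    -(deriv (c.Φ 1) z).im = M.N (c.X z) 2 * (deriv (c.Φ 0) z).re
      - M.N (c.X z) 0 * (deriv (c.Φ 2) z).re ∧
    -(deriv (c.Φ 2) z).im = M.N (c.X z) 0 * (deriv (c.Φ 1) z).re
      - M.N (c.X z) 1 * (deriv (c.Φ 0) z).re ∧
    M.N (c.X z) 0 * (deriv (c.Φ 0) z).re + M.N (c.X z) 1 * (deriv (c.Φ 1) z).re
      + M.N (c.X z) 2 * (deriv (c.Φ 2) z).re = 0 ∧
    M.N (c.X z) 0 ^ 2 + M.N (c.X z) 1 ^ 2 + M.N (c.X z) 2 ^ 2 = 1 ∧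
    (deriv (c.Φ 0) z).re ^ 2 + (deriv (c.Φ 1) z).re ^ 2 + (deriv (c.Φ 2) z).re ^ 2 = c.jac z := by
  have h := ho z hz
  have h0 := congrArg (fun v : E => v 0) h
  have h1 := congrArg (fun v : E => v 1) h
  have h2 := congrArg (fun v : E => v 2) h
  have h3 := hf.inner_Xu hz
  have h4 := unit_sq (M.N_unit _ (hf.emb.mem hz))
  have h5 := c.norm_Xu_sq hz
  rw [← real_inner_self_eq_norm_sq, inner_eq] at h5
  rw [inner_eq] at h3
  simp only [cross_zero, cross_one, cross_two, Chart.Xu, Chart.Xv] at h0 h1 h2 h3 h5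
  refine ⟨h0.symm, h1.symm, h2.symm, h3, h4, ?_⟩
  rw [← h5]; ring

theorem Ori.gauss (hf : c.Fits M.S M.N M.μ) (ho : Ori c M.N) (hz : z ∈ ball (0 : ℂ) c.r) :
    ((1 + M.N (c.X z) 2 : ℝ) : ℂ) * deriv (c.Φ 2) z
      = -conj (pr (M.N (c.X z))) * (deriv (c.Φ 0) z + I * deriv (c.Φ 1) z) := by
  obtain ⟨h0, h1, h2, h3, h4, -⟩ := ho.coords hf hz
  have e0 : (deriv (c.Φ 0) z).im = _ := neg_eq_iff_eq_neg.1 h0
  have e1 : (deriv (c.Φ 1) z).im = _ := neg_eq_iff_eq_neg.1 h1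
  have e2 : (deriv (c.Φ 2) z).im = _ := neg_eq_iff_eq_neg.1 h2
  apply Complex.ext
  · simp [e0, e1, e2]
    linear_combination (1 + M.N (c.X z) 2) * h3 - (deriv (c.Φ 2) z).re * h4
  · simp [e0, e1, e2]
    ring

theorem Ori.norm_sq_add (hf : c.Fits M.S M.N M.μ) (ho : Ori c M.N) (hz : z ∈ ball (0 : ℂ) c.r) :
    ‖deriv (c.Φ 0) z + I * deriv (c.Φ 1) z‖ ^ 2 = (1 + M.N (c.X z) 2) ^ 2 * c.jac z := by
  obtain ⟨h0, h1, h2, h3, h4, h5⟩ := ho.coords hf hz
  have e0 : (deriv (c.Φ 0) z).im = _ := neg_eq_iff_eq_neg.1 h0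
  have e1 : (deriv (c.Φ 1) z).im = _ := neg_eq_iff_eq_neg.1 h1
  rw [Complex.sq_norm, Complex.normSq_apply, ← h5]
  simp [e0, e1]
  linear_combination (-2 * (1 + M.N (c.X z) 2) * (deriv (c.Φ 2) z).re) * h3
    + (deriv (c.Φ 2) z).re ^ 2 * h4

theorem Ori.norm_sq_two (hf : c.Fits M.S M.N M.μ) (ho : Ori c M.N) (hz : z ∈ ball (0 : ℂ) c.r) :
    ‖deriv (c.Φ 2) z‖ ^ 2 = ‖pr (M.N (c.X z))‖ ^ 2 * c.jac z := by
  obtain ⟨h0, h1, h2, h3, h4, h5⟩ := ho.coords hf hz
  have e2 : (deriv (c.Φ 2) z).im = _ := neg_eq_iff_eq_neg.1 h2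
  rw [Complex.sq_norm, Complex.normSq_apply, ← h5, norm_pr_sq, e2]
  linear_combination (-(M.N (c.X z) 0 * (deriv (c.Φ 0) z).re
    + M.N (c.X z) 1 * (deriv (c.Φ 1) z).re - M.N (c.X z) 2 * (deriv (c.Φ 2) z).re)) * h3
    - (deriv (c.Φ 2) z).re ^ 2 * h4

theorem Ori.add_ne_zero (hf : c.Fits M.S M.N M.μ) (ho : Ori c M.N) (hz : z ∈ ball (0 : ℂ) c.r)
    (h : 0 ≤ M.N (c.X z) 2) : deriv (c.Φ 0) z + I * deriv (c.Φ 1) z ≠ 0 := by
  intro h0
  have h1 := ho.norm_sq_add hf hz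
  rw [h0, norm_zero] at h1
  have h2 := c.jac_pos hz
  have : 0 < (1 + M.N (c.X z) 2) ^ 2 * c.jac z := by positivity
  linarith

theorem Ori.two_ne_zero (hf : c.Fits M.S M.N M.μ) (ho : Ori c M.N) (hz : z ∈ ball (0 : ℂ) c.r)
    (h : pr (M.N (c.X z)) ≠ 0) : deriv (c.Φ 2) z ≠ 0 := by
  intro h0
  have h1 := ho.norm_sq_two hf hz
  rw [h0, norm_zero] at h1
  have h2 := c.jac_pos hz
  have h3 := norm_pos_iff.2 h
  have : 0 < ‖pr (M.N (c.X z))‖ ^ 2 * c.jac z := by positivity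
  linarith

end ori

theorem chart_analyticAt (c : Chart) (i : Fin 3) {z : ℂ} (hz : z ∈ ball (0 : ℂ) c.r) :
    AnalyticAt ℂ (c.Φ i) z := (c.hol i).analyticAt (isOpen_ball.mem_nhds hz)

theorem chart_X_apply (c : Chart) (z : ℂ) (i : Fin 3) : c.X z i = (c.Φ i z).re := rfl

theorem chart_null (c : Chart) {z : ℂ} (hz : z ∈ ball (0 : ℂ) c.r) :
    deriv (c.Φ 0) z ^ 2 + deriv (c.Φ 1) z ^ 2 + deriv (c.Φ 2) z ^ 2 = 0 := by
  have := c.null z hz
  rwa [Fin.sum_univ_three] at this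

/-- Holomorphic local inverse. -/
theorem exists_localInv {F : ℂ → ℂ} {w₀ : ℂ} (hF : AnalyticAt ℂ F w₀) (h : deriv F w₀ ≠ 0) :
    ∃ ψ : ℂ → ℂ, AnalyticAt ℂ ψ (F w₀) ∧ ψ (F w₀) = w₀ ∧ (∀ᶠ z in 𝓝 (F w₀), F (ψ z) = z) ∧
      (∀ᶠ w in 𝓝 w₀, ψ (F w) = w) ∧ HasDerivAt ψ (deriv F w₀)⁻¹ (F w₀) := by
  have hs := hF.hasStrictDerivAt
  refine ⟨hs.localInverse F _ w₀ h, hF.analyticAt_localInverse h, ?_, ?_, ?_, ?_⟩
  · exact (hs.hasStrictFDerivAt_equiv h).localInverse_apply_image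
  · exact (hs.hasStrictFDerivAt_equiv h).eventually_right_inverse
  · exact (hs.hasStrictFDerivAt_equiv h).eventually_left_inverse
  · exact (hs.to_localInverse h).hasDerivAt

/-- The zero of a continuous family of strictly increasing functions is continuous. -/
theorem continuous_of_strictMono {X : Type*} [TopologicalSpace X] {g : X → ℝ → ℝ} {s : X → ℝ}
    (hc : ∀ b, Continuous fun x => g x b) (hm : ∀ x, StrictMono (g x))
    (h0 : ∀ x, g x (s x) = 0) : Continuous s := by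
  refine continuous_iff_continuousAt.2 fun x => tendsto_order.2 ⟨fun a ha => ?_, fun a ha => ?_⟩
  · have h1 : g x a < 0 := by rw [← h0 x]; exact hm x ha
    filter_upwards [((hc a).tendsto x).eventually (gt_mem_nhds h1)] with y hy
    exact (hm y).lt_iff_lt.1 (by rw [h0 y]; exact hy)
  · have h1 : 0 < g x a := by rw [← h0 x]; exact hm x ha
    filter_upwards [((hc a).tendsto x).eventually (lt_mem_nhds h1)] with y hy
    exact (hm y).lt_iff_lt.1 (by rw [h0 y]; exact hy)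

/-! ### Conjugate functions -/

section cj

variable {M : Surf} {i : Fin 3} {f : E → ℝ} {x : E}

theorem Cj.eventually (h : Cj M i f x) : ∀ᶠ y in 𝓝[M.S] x, Cj M i f y :=
  eventually_eventually_nhdsWithin.2 h

theorem Cj.hasFDerivWithinAt (h : Cj M i f x) (hx : x ∈ M.S) :
    HasFDerivWithinAt f (innerSL ℝ (cross (M.N x) (ee i))) M.S x :=
  Eventually.self_of_nhdsWithin
    (p := fun y => HasFDerivWithinAt f (innerSL ℝ (cross (M.N y) (ee i))) M.S y) h hx

theorem Cj.continuousWithinAt (h : Cj M i f x) (hx : x ∈ M.S) : ContinuousWithinAt f M.S x :=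
  (h.hasFDerivWithinAt hx).continuousWithinAt

theorem Cj.add_const (h : Cj M i f x) (k : ℝ) : Cj M i (fun y => f y + k) x :=
  Eventually.mono h fun _ hy => hy.add_const k

theorem Cj.sub_const (h : Cj M i f x) (k : ℝ) : Cj M i (fun y => f y - k) x :=
  Eventually.mono h fun _ hy => hy.sub_const k

end cj

/-! ### Symmetric bigraphs -/

section bg

variable {M : Surf} {i : Fin 3}

theorem Bg.nonneg (h : Bg M i) {x : E} (hx : x ∈ M.S) (h0 : 0 ≤ x i) : 0 ≤ M.N x i := by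
  rcases h0.eq_or_lt with h1 | h1
  · exact (h.zero x hx h1.symm).ge
  · exact (h.pos x hx h1).le

theorem Bg.neg (h : Bg M i) {x : E} (hx : x ∈ M.S) (h0 : x i < 0) : M.N x i < 0 := by
  have h1 := h.pos _ (h.symS x hx) (by simpa using h0)
  rw [h.symN x hx] at h1
  simpa using h1

theorem Bg.rf_mem (h : Bg M i) (x : E) : rf i x ∈ M.S ↔ x ∈ M.S :=
  ⟨fun hx => by simpa using h.symS _ hx, h.symS x⟩

theorem Sym.symS0 (h : Sym M) : ∀ x ∈ M.S, rf 0 x ∈ M.S := h.b0.symS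

theorem Sym.symN0 (h : Sym M) : ∀ x ∈ M.S, M.N (rf 0 x) = rf 0 (M.N x) := fun x hx => by
  have := h.b0.symN x hx
  rw [Surf.swap_N, Surf.swap_N, rf_neg] at this
  exact neg_injective this

theorem Sym.neg0 (h : Sym M) {x : E} (hx : x ∈ M.S) (h0 : 0 < x 0) : M.N x 0 < 0 := by
  have := h.b0.pos x hx h0
  simpa using this

theorem Sym.zero0 (h : Sym M) {x : E} (hx : x ∈ M.S) (h0 : x 0 = 0) : M.N x 0 = 0 := by
  have := h.b0.zero x hx h0
  simpa using this

theorem Sym.nonpos0 (h : Sym M) {x : E} (hx : x ∈ Q M) : M.N x 0 ≤ 0 := by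
  have := h.b0.nonneg (x := x) hx.1 hx.2.1
  simpa using this

theorem Sym.nonneg1 (h : Sym M) {x : E} (hx : x ∈ Q M) : 0 ≤ M.N x 1 :=
  h.b1.nonneg hx.1 hx.2.2

theorem Sym.sub_pos (h : Sym M) {x : E} (hx : x ∈ Q M) (h0 : 0 < x 0 + x 1) :
    0 < M.N x 1 - M.N x 0 := by
  have h1 := h.nonpos0 hx
  have h2 := h.nonneg1 hx
  rcases hx.2.1.eq_or_lt with h3 | h3
  · have := h.b1.pos x hx.1 (by linarith); linarith
  · have := h.neg0 hx.1 h3; linarith

theorem continuous_coord (i : Fin 3) : Continuous fun x : E => x i := by fun_prop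

theorem Sym.isClosed_Q (h : Sym M) : IsClosed (Q M) :=
  h.mem.isClosed.inter ((isClosed_le continuous_const (continuous_coord 0)).inter
    (isClosed_le continuous_const (continuous_coord 1)))

end bg

/-! ### The graph and the Nitsche map -/

@[simp] theorem pr_lift (u : ℂ → ℝ) (y : ℂ) : pr (lift u y) = y := pr_pt _ _

@[simp] theorem lift_two (u : ℂ → ℝ) (y : ℂ) : lift u y 2 = u y := pt_two _ _

section gr

variable {M : Surf} {u : ℂ → ℝ} {V η : ℂ → ℂ}

theorem Gr.continuous_lift (h : Gr M u) : Continuous (lift u) :=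
  Continuous.pt' continuous_id h.cont

theorem Gr.lift_pr (h : Gr M u) {x : E} (hx : x ∈ M.S) (h0 : 0 ≤ x 2) : lift u (pr x) = x := by
  rw [lift, h.eq x hx h0, pt_pr]

theorem Gr.eq_zero (h : Gr M u) {y : ℂ} (hy : lift u y ∉ M.S) : u y = 0 :=
  (h.nonneg y).eq_of_not_lt' fun h0 => hy (h.mem y h0)

theorem Gr.mem_pr_iff (h : Gr M u) (hb : Bg M 2) (y : ℂ) : y ∈ pr '' M.S ↔ lift u y ∈ M.S := by
  constructor
  · rintro ⟨x, hx, rfl⟩
    rcases le_total 0 (x 2) with h0 | h0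
    · rwa [h.lift_pr hx h0]
    · have h1 := hb.symS x hx
      have h2 := h.lift_pr h1 (by simpa using h0)
      rw [pr_rf_two] at h2
      rwa [h2]
  · exact fun hy => ⟨_, hy, pr_lift u y⟩

theorem NB.norm_sub_le (h : NB M u V η) (z z' : ℂ) : ‖η z - η z'‖ ≤ ‖z - z'‖ := by
  have h1 := (h.firm z z').trans (real_inner_le_norm _ _)
  rcases (norm_nonneg (η z - η z')).eq_or_lt with h0 | h0
  · rw [← h0]; exact norm_nonneg _
  · rw [sq] at h1; exact le_of_mul_le_mul_right h1 h0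

theorem NB.lipschitz_η (h : NB M u V η) : LipschitzWith 1 η :=
  LipschitzWith.of_dist_le_mul fun z z' => by
    simpa [dist_eq_norm] using h.norm_sub_le z z'

theorem NB.continuous_η (h : NB M u V η) : Continuous η := h.lipschitz_η.continuous

theorem NB.continuous_ξ (h : NB M u V η) : Continuous fun y => y + V y :=
  continuous_id.add h.ni.cont

/-- The inverse of the Nitsche map as a homeomorphism. -/
def NB.homeo (h : NB M u V η) : ℂ ≃ₜ ℂ where
  toFun := η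
  invFun := fun y => y + V y
  left_inv := h.right
  right_inv := h.left
  continuous_toFun := h.continuous_η
  continuous_invFun := h.continuous_ξ

theorem NB.lipschitz_gg (h : NB M u V η) : LipschitzWith 1 (gg η) :=
  LipschitzWith.of_dist_le_mul fun z z' => by
    have h1 := h.firm z z'
    have h2 : gg η z - gg η z' = conj ((2 : ℝ) • (η z - η z') - (z - z')) := by
      simp only [gg, ← map_sub]; congr 1; simp; ring
    rw [dist_eq_norm, dist_eq_norm, h2, Complex.norm_conj, NNReal.coe_one, one_mul]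
    refine le_of_sq_le_sq ?_ (norm_nonneg _)
    rw [norm_sub_sq_real, norm_smul, real_inner_smul_left, real_inner_comm]
    simp only [Real.norm_ofNat]
    nlinarith [h1]

theorem NB.continuous_UU (h : NB M u V η) : Continuous (UU u η) :=
  h.gr.cont.comp h.continuous_η

theorem NB.continuous_TT (h : NB M u V η) : Continuous (TT V) :=
  h.continuous_ξ.comp continuous_pr

theorem NB.η_TT (h : NB M u V η) (x : E) : η (TT V x) = pr x := h.left _

theorem NB.TT_lift (h : NB M u V η) (z : ℂ) : TT V (lift u (η z)) = z := by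
  rw [TT, pr_lift, h.right]

theorem NB.lift_TT (h : NB M u V η) {x : E} (hx : x ∈ M.S) (h0 : 0 ≤ x 2) :
    lift u (η (TT V x)) = x := by rw [h.η_TT, h.gr.lift_pr hx h0]

theorem NB.UU_TT (h : NB M u V η) {x : E} (hx : x ∈ M.S) (h0 : 0 ≤ x 2) :
    UU u η (TT V x) = x 2 := by rw [UU, h.η_TT, h.gr.eq x hx h0]

theorem NB.TT_mem (h : NB M u V η) {x : E} (hx : x ∈ M.S) (h0 : 0 ≤ x 2) :
    TT V x ∈ Cl M u η := by
  change lift u (η (TT V x)) ∈ M.S
  rwa [h.lift_TT hx h0]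

theorem hh_of_mem {z : ℂ} (hz : z ∈ Cl M u η) : hh M u η z = gm (M.N (lift u (η z))) := if_pos hz

theorem hh_of_notMem {z : ℂ} (hz : z ∉ Cl M u η) : hh M u η z = 0 := if_neg hz

theorem NB.hh_TT (h : NB M u V η) {x : E} (hx : x ∈ M.S) (h0 : 0 ≤ x 2) :
    hh M u η (TT V x) = gm (M.N x) := by rw [hh_of_mem (h.TT_mem hx h0), h.lift_TT hx h0]

theorem NB.mem_Cl (h : NB M u V η) {z : ℂ} (hz : 0 < UU u η z) : z ∈ Cl M u η := h.gr.mem _ hz

theorem NB.UU_nonneg (h : NB M u V η) (z : ℂ) : 0 ≤ UU u η z := h.gr.nonneg _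

theorem NB.isClosed_Cl (h : NB M u V η) : IsClosed (Cl M u η) :=
  h.mem.isClosed.preimage (h.gr.continuous_lift.comp h.continuous_η)

theorem NB.isOpen_Om (h : NB M u V η) : IsOpen (PL.Om (UU u η)) :=
  isOpen_lt continuous_const h.continuous_UU

theorem NB.isClosed_Fz (h : NB M u V η) : IsClosed (PL.Fz (UU u η)) :=
  isClosed_eq h.continuous_UU continuous_const

end gr

theorem gm_mul {n : E} (hn : 0 ≤ n 2) : gm n * ((1 + n 2 : ℝ) : ℂ) = -conj (pr n) :=
  div_mul_cancel₀ _ (Complex.ofReal_ne_zero.2 (by linarith))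

theorem norm_gm_sq {n : E} (hn : 0 ≤ n 2) : ‖gm n‖ ^ 2 * (1 + n 2) ^ 2 = ‖pr n‖ ^ 2 := by
  have h := congrArg norm (gm_mul hn)
  rw [norm_mul, norm_neg, Complex.norm_conj, Complex.norm_real, Real.norm_eq_abs,
    abs_of_nonneg (by linarith)] at h
  rw [← h]; ring

theorem re_gm_mul {n : E} (hn : 0 ≤ n 2) (z : ℂ) : (gm n * z).re * (1 + n 2) = -⟪pr n, z⟫ := by
  have h : gm n * z * ((1 + n 2 : ℝ) : ℂ) = -conj (pr n) * z := by rw [← gm_mul hn]; ring
  have h1 := congrArg Complex.re h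
  rw [Complex.re_mul_ofReal] at h1
  rw [h1, inner_complex]; simp

end MW.S6
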