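import Pool.Agent.P.MP_064970_gt.S6.Bas

/-!
# Meeks–Wolf, section 6: identification of the catenoid
-/

open MeasureTheory Set Filter Topology Metric Complex InnerProductSpace
open scoped RealInnerProductSpace ENNReal ComplexConjugate Real

noncomputable section

namespace MW.S6

namespace CAT

theorem preconn (z₀ : ℂ) {R : ℝ} (hR : 0 < R) : IsPreconnected {z : ℂ | R < ‖z - z₀‖} := by
  have h : {z : ℂ | R < ‖z - z₀‖}
      = (fun p : ℝ × ℝ => z₀ + (p.1 : ℂ) * exp (p.2 * I)) '' (Ioi R ×ˢ univ) := by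
    ext z
    constructor
    · intro hz
      refine ⟨(‖z - z₀‖, arg (z - z₀)), ⟨hz, trivial⟩, ?_⟩
      simp only
      rw [norm_mul_exp_arg_mul_I]
      ring
    · rintro ⟨⟨s, θ⟩, ⟨hs, -⟩, rfl⟩
      have hs' : R < s := hs
      change R < ‖z₀ + (s : ℂ) * exp (θ * I) - z₀‖
      rw [add_sub_cancel_left, norm_mul, norm_exp_ofReal_mul_I, mul_one, norm_real,
        Real.norm_of_nonneg (hR.trans hs').le]
      exact hs'
  rw [h]
  exact (isPreconnected_Ioi.prod isPreconnected_univ).image _ (by fun_prop)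

theorem clos (z₀ : ℂ) {R : ℝ} (hR : 0 < R) :
    closure {z : ℂ | R < ‖z - z₀‖} = {z : ℂ | R ≤ ‖z - z₀‖} := by
  have h : {z : ℂ | R < ‖z - z₀‖} = (closedBall z₀ R)ᶜ := by
    ext z; simp [dist_eq_norm]
  rw [h, closure_compl, interior_closedBall _ hR.ne']
  ext z; simp [dist_eq_norm]

theorem eta_eq {η : ℂ → ℂ} {z₀ : ℂ} {R : ℝ} (hR : 0 < R) (hc : Continuous (gg η))
    (hd : ∀ z, R < ‖z - z₀‖ → HasDerivAt (gg η) (-((R : ℂ) / (z - z₀)) ^ 2) z) :
    ∃ y₀ : ℂ, ∀ z, R ≤ ‖z - z₀‖ →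
      η z - y₀ = ((1 + R ^ 2 / ‖z - z₀‖ ^ 2) / 2 : ℝ) • (z - z₀) := by
  have hne : ∀ z : ℂ, R ≤ ‖z - z₀‖ → z - z₀ ≠ 0 := fun z hz =>
    norm_pos_iff.1 (hR.trans_le hz)
  have hF : ∀ z, R < ‖z - z₀‖ →
      HasDerivAt (fun z => gg η z - (R : ℂ) ^ 2 * (z - z₀)⁻¹) 0 z := by
    intro z hz
    have h1 := (((hasDerivAt_id z).sub_const z₀).inv (hne z hz.le)).const_mul ((R : ℂ) ^ 2)
    have h2 := (hd z hz).sub h1
    have h3 : -((R : ℂ) / (z - z₀)) ^ 2 - (R : ℂ) ^ 2 * (-1 / (id z - z₀) ^ 2) = 0 := by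
      have := hne z hz.le
      simp only [id]
      field_simp
      ring
    rw [h3] at h2
    exact h2
  have ho : IsOpen {z : ℂ | R < ‖z - z₀‖} := isOpen_lt continuous_const (by fun_prop)
  obtain ⟨g₀, hg⟩ := ho.exists_is_const_of_deriv_eq_zero (preconn z₀ hR)
    (fun z hz => (hF z hz).differentiableAt.differentiableWithinAt) fun z hz => (hF z hz).deriv
  have hcl : EqOn (fun z => gg η z - (R : ℂ) ^ 2 * (z - z₀)⁻¹) (fun _ => g₀)
      {z : ℂ | R ≤ ‖z - z₀‖} := by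
    refine EqOn.of_subset_closure (s := {z : ℂ | R < ‖z - z₀‖}) hg ?_ continuousOn_const
      (fun z (hz : R < _) => hz.le) (clos z₀ hR).ge
    exact hc.continuousOn.sub (continuousOn_const.mul
      ((continuous_id.sub continuous_const).continuousOn.inv₀ hne))
  refine ⟨(z₀ + conj g₀) / 2, fun z hz => ?_⟩
  have h1 : gg η z - (R : ℂ) ^ 2 * (z - z₀)⁻¹ = g₀ := hcl hz
  have h2 : 2 * η z - z = conj g₀ + (R : ℂ) ^ 2 * (conj (z - z₀))⁻¹ := by
    rw [← h1, gg, map_sub, conj_conj, map_mul, map_pow, conj_ofReal, map_inv₀]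
    ring
  have h3 : (conj (z - z₀))⁻¹ = (z - z₀) / ((‖z - z₀‖ : ℝ) : ℂ) ^ 2 := by
    have h4 := hne z hz
    have h5 : conj (z - z₀) ≠ 0 := (map_ne_zero _).2 h4
    rw [← conj_mul']
    field_simp
  rw [h3] at h2
  rw [real_smul]
  push_cast
  linear_combination h2 / 2

end CAT

/-- `Om = {R < ‖z - z₀‖}` is preconnected (image of a half-plane under `z₀ + exp`), and
`gg z - R² / (z - z₀)` has zero derivative there, so it is a constant `g₀` on `Om` and on
`Cl = closure Om = {R ≤ ‖z - z₀‖}`. So `η z - y₀ = (z - z₀) (1 + R² / ‖z - z₀‖²) / 2` with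
`y₀ = (z₀ + conj g₀) / 2`, and `‖η z - y₀‖ = R cosh (UU z / R)`. The upper half of `S` is
`{lift u (η z) | z ∈ Cl}` (`NB.lift_TT`); conversely for `t ≥ 0`, `‖y - y₀‖ = R cosh (t / R)` take
`z = z₀ + R exp (t / R) (y - y₀) / ‖y - y₀‖`. `Bg.rf_mem` for the lower half. `A = refl`, `c = R`,
`b = pt y₀ 0`. -/
theorem cat_of (hH : S_HOL) (hh' : S_HH) : S_CAT := by
  rintro M u V η h ⟨z₀, R, hR, h0, h1⟩
  have hpos : ∀ z, R < ‖z - z₀‖ → 0 < UU u η z := fun z hz => by
    rw [(h1 z hz.le).1]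
    exact mul_pos hR (Real.log_pos ((one_lt_div hR).2 hz))
  have hOm : PL.Om (UU u η) = {z : ℂ | R < ‖z - z₀‖} := by
    ext z
    refine ⟨fun hz => show R < ‖z - z₀‖ from not_le.1 fun hle => ?_, hpos z⟩
    exact (ne_of_gt (show 0 < UU u η z from hz)) (h0 z hle)
  have hCl : Cl M u η = {z : ℂ | R ≤ ‖z - z₀‖} := by
    rw [← (hh' M u V η h).2.2.2.2.1, hOm, CAT.clos z₀ hR]
  obtain ⟨y₀, hy⟩ := CAT.eta_eq (z₀ := z₀) hR h.lipschitz_gg.continuous fun z hz => by
    have := (hH M u V η h z (hpos z hz)).2.2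
    rwa [(h1 z hz.le).2] at this
  have key : ∀ x : E, 0 ≤ x 2 → (x ∈ M.S ↔ ‖pr x - y₀‖ = R * Real.cosh (x 2 / R)) := by
    intro x hx
    constructor
    · intro hS
      have hz : R ≤ ‖TT V x - z₀‖ := by
        have := h.TT_mem hS hx
        rwa [hCl] at this
      have hρ : 0 < ‖TT V x - z₀‖ := hR.trans_le hz
      have h2 := hy _ hz
      have h3 := (h1 _ hz).1
      rw [h.η_TT] at h2
      rw [h.UU_TT hS hx] at h3
      rw [h2, h3, mul_div_cancel_left₀ _ hR.ne', Real.cosh_log (div_pos hρ hR), norm_smul,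
        Real.norm_of_nonneg (by positivity)]
      field_simp
    · intro hx'
      have hd : 0 < ‖pr x - y₀‖ := by
        rw [hx']
        exact mul_pos hR (Real.cosh_pos _)
      have he : 0 < Real.exp (x 2 / R) := Real.exp_pos _
      let z : ℂ := z₀ + (R * Real.exp (x 2 / R) / ‖pr x - y₀‖) • (pr x - y₀)
      have hz0 : z - z₀ = (R * Real.exp (x 2 / R) / ‖pr x - y₀‖) • (pr x - y₀) :=
        add_sub_cancel_left _ _
      have hn : ‖z - z₀‖ = R * Real.exp (x 2 / R) := by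
        rw [hz0, norm_smul, Real.norm_of_nonneg (by positivity)]
        field_simp
      have hz : R ≤ ‖z - z₀‖ := by
        rw [hn]
        exact le_mul_of_one_le_right hR.le (Real.one_le_exp (div_nonneg hx hR.le))
      have h2 := hy z hz
      have h3 := (h1 z hz).1
      rw [hn, mul_div_cancel_left₀ _ hR.ne', Real.log_exp, mul_div_cancel₀ _ hR.ne'] at h3
      have h4 : (1 + R ^ 2 / (R * Real.exp (x 2 / R)) ^ 2) / 2
          * (R * Real.exp (x 2 / R) / ‖pr x - y₀‖) = 1 := by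
        rw [hx', Real.cosh_eq, Real.exp_neg]
        field_simp
      rw [hn, hz0, smul_smul, h4, one_smul, sub_left_inj] at h2
      have h5 : z ∈ Cl M u η := by rw [hCl]; exact hz
      have h6 : lift u (η z) = x := by
        rw [lift, show u (η z) = x 2 from h3, h2, pt_pr]
      rw [← h6]
      exact h5
  have key' : ∀ x : E, x ∈ M.S ↔ ‖pr x - y₀‖ = R * Real.cosh (x 2 / R) := by
    intro x
    rcases le_total 0 (x 2) with hx | hx
    · exact key x hx
    · rw [← h.bg.rf_mem, key _ (by simpa using hx), pr_rf_two, rf_self, neg_div, Real.cosh_neg]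
  have hsim : ∀ x : E, simMap (LinearIsometryEquiv.refl ℝ E) R (pt y₀ 0) x ∈ M.S ↔
      x 0 ^ 2 + x 1 ^ 2 = Real.cosh (x 2) ^ 2 := by
    intro x
    have h2 : pr (simMap (LinearIsometryEquiv.refl ℝ E) R (pt y₀ 0) x) - y₀ = R • pr x := by
      simp [simMap, pr_add, pr_smul]
    have h3 : simMap (LinearIsometryEquiv.refl ℝ E) R (pt y₀ 0) x 2 / R = x 2 := by
      simp [simMap, mul_div_cancel_left₀ _ hR.ne']
    rw [key', h2, h3, norm_smul, Real.norm_of_nonneg hR.le, mul_right_inj' hR.ne', ← norm_pr_sq,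
      sq_eq_sq₀ (norm_nonneg _) (Real.cosh_pos _).le]
  refine ⟨LinearIsometryEquiv.refl ℝ E, R, pt y₀ 0, hR, ?_⟩
  ext x
  constructor
  · intro hx
    obtain ⟨x', rfl⟩ := simMap_surjective (LinearIsometryEquiv.refl ℝ E) hR (pt y₀ 0) x
    exact ⟨x', (hsim x').1 hx, rfl⟩
  · rintro ⟨x', hx', rfl⟩
    exact (hsim x').2 hx'

end MW.S6
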