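import Pool.Agent.P.MP_064970_gt.S6.Bas

/-!
# Meeks–Wolf, section 6: reduction to the coordinate frame
-/

open MeasureTheory Set Filter Topology Metric Complex InnerProductSpace
open scoped RealInnerProductSpace ENNReal ComplexConjugate Real

noncomputable section

namespace MW.S6

namespace NORM

theorem simMap_one (A : E ≃ₗᵢ[ℝ] E) (b x : E) : simMap A 1 b x = A x + b := by
  simp [simMap]

theorem inner_sim (A : E ≃ₗᵢ[ℝ] E) (b x e : E) :
    ⟪simMap A 1 b x, A e⟫ = ⟪x, e⟫ + ⟪b, A e⟫ := by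
  rw [simMap_one, inner_add_left, A.inner_map_map]

theorem mir_sim (A : E ≃ₗᵢ[ℝ] E) (b x e : E) (a : ℝ) :
    mir (A e) (a + ⟪b, A e⟫) (simMap A 1 b x) = simMap A 1 b (mir e a x) := by
  rw [mir, inner_sim, simMap_one, simMap_one, mir, map_sub, map_smul]
  have : ⟪x, e⟫ + ⟪b, A e⟫ - (a + ⟪b, A e⟫) = ⟪x, e⟫ - a := by ring
  rw [this]
  abel

theorem norm_le_sim (A : E ≃ₗᵢ[ℝ] E) (b x : E) : ‖simMap A 1 b x‖ ≤ ‖x‖ + ‖b‖ := by
  rw [simMap_one, ← A.norm_map x]
  exact norm_add_le _ _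

/-- Symmetric bigraphs are carried along by rigid motions. -/
theorem big_sim {M M' : Surf} {A : E ≃ₗᵢ[ℝ] E} {b e : E} {a : ℝ} (h : IsSim M M' A 1 b)
    (he : ‖e‖ = 1) (hb : Big M e a) : Big M' (A e) (a + ⟪b, A e⟫) := by
  refine ⟨fun x hx => ?_, fun x hx => ?_, fun x hx h0 => ?_, ?_⟩
  · obtain ⟨x, rfl⟩ := simMap_surjective A one_pos b x
    rw [mir_sim, h.S]
    exact hb.symS x ((h.S x).1 hx)
  · obtain ⟨x, rfl⟩ := simMap_surjective A one_pos b x
    rw [mir_sim, h.W]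
    exact hb.symW x ((h.W x).1 hx)
  · obtain ⟨x, rfl⟩ := simMap_surjective A one_pos b x
    rw [inner_sim] at h0
    rw [h.N, A.inner_map_map]
    exact hb.pos x ((h.S x).1 hx) (by linarith)
  · obtain ⟨L, R₀, hc⟩ := hb.cone
    refine ⟨2 * max L 0 + 1, max (4 * (2 * max L 0 + 1) * ‖b‖ + 1) (R₀ + ‖b‖),
      fun x hx hL => ?_⟩
    obtain ⟨x, rfl⟩ := simMap_surjective A one_pos b x
    rw [h.W']
    have hAe : ‖A e‖ = 1 := by rw [A.norm_map, he]
    have hbe : |⟪b, A e⟫| ≤ ‖b‖ := by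
      have := abs_real_inner_le_norm b (A e)
      rwa [hAe, mul_one] at this
    have h1 := (le_max_left _ _).trans hx
    have h2 := (le_max_right _ _).trans hx
    have h3 := norm_le_sim A b x
    set K := max L 0 with hK
    have hK0 : 0 ≤ K := le_max_right _ _
    have hLK : L ≤ K := le_max_left _ _
    set y := simMap A 1 b x with hy
    have h4 : ‖x - ⟪x, e⟫ • e‖ ≤ ‖y - ⟪y, A e⟫ • A e‖ + 2 * ‖b‖ := by
      have e1 : A (x - ⟪x, e⟫ • e) = (y - ⟪y, A e⟫ • A e) - b + ⟪b, A e⟫ • A e := by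
        rw [hy, inner_sim, simMap_one, map_sub, map_smul, add_smul]
        abel
      rw [← A.norm_map, e1]
      have e2 := norm_add_le ((y - ⟪y, A e⟫ • A e) - b) (⟪b, A e⟫ • A e)
      have e3 := norm_sub_le (y - ⟪y, A e⟫ • A e) b
      rw [norm_smul, hAe, mul_one, Real.norm_eq_abs] at e2
      linarith
    have h5 : |⟪y, A e⟫| ≤ |⟪x, e⟫| + ‖b‖ := by
      rw [hy, inner_sim]
      exact (abs_add_le _ _).trans (by linarith)
    have h6 : ‖y‖ ≤ ‖y - ⟪y, A e⟫ • A e‖ + |⟪y, A e⟫| := by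
      have e2 := norm_add_le (y - ⟪y, A e⟫ • A e) (⟪y, A e⟫ • A e)
      rwa [sub_add_cancel, norm_smul, hAe, mul_one, Real.norm_eq_abs] at e2
    refine hc x (by linarith) ?_
    have hp := norm_nonneg (x - ⟪x, e⟫ • e)
    have hp' := norm_nonneg (y - ⟪y, A e⟫ • A e)
    have hβ := norm_nonneg b
    have h7 : L * ‖x - ⟪x, e⟫ • e‖ ≤ K * (‖y - ⟪y, A e⟫ • A e‖ + 2 * ‖b‖) :=
      (mul_le_mul_of_nonneg_right hLK hp).trans (mul_le_mul_of_nonneg_left h4 hK0)
    have h8 := mul_nonneg hK0 hp'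
    have h9 := mul_nonneg hK0 hβ
    nlinarith

/-- An isometry with prescribed images of the first two coordinate vectors. -/
theorem exists_frame {e e' : E} (he : ‖e‖ = 1) (he' : ‖e'‖ = 1) (h : ⟪e, e'⟫ = 0) :
    ∃ A : E ≃ₗᵢ[ℝ] E, A (ee 0) = e' ∧ A (ee 1) = e := by
  obtain ⟨B, hB⟩ : ∃ B : E ≃ₗᵢ[ℝ] E, B (ee 0) = e' :=
    ⟨Submodule.reflection (ℝ ∙ (ee 0 - e'))ᗮ, Submodule.reflection_sub (by rw [norm_ee, he'])⟩
  have h1 : ‖B.symm e‖ = 1 := by rw [B.symm.norm_map, he]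
  have h2 : ⟪B.symm e, ee 0⟫ = 0 := by
    rw [← B.inner_map_map, B.apply_symm_apply, hB, h]
  have h3 : Submodule.reflection (ℝ ∙ (ee 1 - B.symm e))ᗮ (ee 1) = B.symm e :=
    Submodule.reflection_sub (by rw [norm_ee, h1])
  have h4 : Submodule.reflection (ℝ ∙ (ee 1 - B.symm e))ᗮ (ee 0) = ee 0 := by
    refine Submodule.reflection_mem_subspace_eq_self ?_
    rw [Submodule.mem_orthogonal_singleton_iff_inner_right, inner_sub_left, h2, inner_ee,
      ee_ne (by decide), sub_zero]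
  refine ⟨(Submodule.reflection (ℝ ∙ (ee 1 - B.symm e))ᗮ).trans B, ?_, ?_⟩
  · rw [LinearIsometryEquiv.trans_apply, h4, hB]
  · rw [LinearIsometryEquiv.trans_apply, h3, B.apply_symm_apply]

theorem norm_rest (y : E) : ‖y - y 1 • ee 1 - y 0 • ee 0‖ = |y 2| := by
  have : y - y 1 • ee 1 - y 0 • ee 0 = y 2 • ee 2 := by
    ext j; fin_cases j <;> simp [ee_apply]
  rw [this, norm_smul, norm_ee, mul_one, Real.norm_eq_abs]

end NORM

open NORM

/-- An isometry `A` with `A (ee 0) = e'`, `A (ee 1) = e`, `b = a • e + a' • e'`,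
`M' = M.sim A.symm 1 (-A.symm b)`. -/
theorem sym2_of (hB : S_BG) (h : S_SYM0) : S_SYM2 := by
  intro M e e' a a' hM he he' hee hb hb' hfar
  obtain ⟨A, hA0, hA1⟩ := exists_frame he he' hee
  have hs0 : A.symm e' = ee 0 := by rw [← hA0, A.symm_apply_apply]
  have hs1 : A.symm e = ee 1 := by rw [← hA1, A.symm_apply_apply]
  set b : E := -(a • ee 1 + a' • ee 0) with hbdef
  have hb0 : b 0 = -a' := by simp [hbdef, ee_apply]
  have hb1 : b 1 = -a := by simp [hbdef, ee_apply]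
  have hb2 : b 2 = 0 := by simp [hbdef, ee_apply]
  have hS := M.isSim A.symm one_pos b
  set M' := M.sim A.symm 1 b with hM'
  have hm : M'.Mem := hS.mem hM
  have g1 := big_sim hS he hb
  have g0 := big_sim hS.swap he' hb'
  rw [hs1, inner_ee, hb1, add_neg_cancel] at g1
  rw [hs0, inner_ee, hb0, add_neg_cancel] at g0
  refine hS.isScherk.1 (h M' ⟨hm, hB _ 0 hm.swap g0, hB _ 1 hm g1, fun t => ?_⟩)
  obtain ⟨c, R, hc, hcR⟩ := hfar |t|
  refine ⟨√c, R + ‖b‖, Real.sqrt_pos.2 hc, fun x hx hxt hR => ?_⟩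
  obtain ⟨x, rfl⟩ := simMap_surjective A.symm one_pos b x
  have i0 : ∀ v : E, ⟪v, e'⟫ = A.symm v 0 := fun v => by
    rw [← A.symm.inner_map_map, hs0, inner_ee]
  have i1 : ∀ v : E, ⟪v, e⟫ = A.symm v 1 := fun v => by
    rw [← A.symm.inner_map_map, hs1, inner_ee]
  have h1 := norm_le_sim A.symm b x
  have h2 : A.symm x 2 = t := by
    rw [simMap_one, PiLp.add_apply, hb2, add_zero] at hxt
    exact hxt
  have h3 : ‖x - ⟪x, e⟫ • e - ⟪x, e'⟫ • e'‖ ≤ |t| := by
    rw [← A.symm.norm_map, map_sub, map_sub, map_smul, map_smul, hs0, hs1, i0, i1, norm_rest, h2]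
  have h4 := hcR x ((hS.S x).1 hx) h3 (by linarith)
  rw [hS.N]
  refine Real.sqrt_le_iff.2 ⟨norm_nonneg _, ?_⟩
  rw [norm_pr_sq, ← i0, ← i1]
  linarith

/-- Vertical translation `M' = M.sim (refl) 1 (-(a • e3))`. -/
theorem ii3_of (hB : S_BG) (h : S_II0) : S_II3 := by
  intro M a H
  have hS := M.isSim (LinearIsometryEquiv.refl ℝ E) one_pos (-(a • e3))
  set M' := M.sim (LinearIsometryEquiv.refl ℝ E) 1 (-(a • e3)) with hM'
  set f := simMap (LinearIsometryEquiv.refl ℝ E) 1 (-(a • e3)) with hf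
  have hfx : ∀ x, f x = x - a • e3 := fun x => by
    rw [hf, simMap_one, sub_eq_add_neg]; rfl
  have hsurj : Function.Surjective f := simMap_surjective _ one_pos _
  have hN : ∀ x, M'.N (f x) = M.N x := fun x => hS.N x
  have hmem : ∀ x, f x ∈ M'.S ↔ x ∈ M.S := hS.S
  have hf2 : ∀ x, f x 2 = x 2 - a := fun x => by rw [hfx]; simp
  have hna : ‖a • e3‖ = |a| := by rw [norm_smul, norm_e3, mul_one, Real.norm_eq_abs]
  have hball : ∀ (p : E) (r : ℝ) (g : E → ℝ),
      ∫ x in ball (f p) r, g (M'.N x) ∂M'.μ = ∫ x in ball p r, g (M.N x) ∂M.μ := fun p r g => by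
    have := hS.setIntegral_ball p r fun x => g (M'.N x)
    rw [one_mul, one_pow, one_mul] at this
    rw [hf, this]
    simp only [← hf, hN]
  have hm : M'.Mem := hS.mem H.mem
  have g2 : Big M' (ee 2) 0 := by
    have := big_sim hS norm_e3 H.big
    have e1 : (LinearIsometryEquiv.refl ℝ E) e3 = e3 := rfl
    rw [e1, inner_e3] at this
    rw [ee_two]
    simpa using this
  refine hS.isCatenoid.1 (h M' ⟨hm, hB _ 2 hm g2, ?_, fun ε hε => ?_, fun ε hε => ?_, ?_⟩)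
  · obtain ⟨x, hx, hxa⟩ := H.ne
    exact ⟨f x, (hmem x).2 hx, by rw [hf2, hxa, sub_self]⟩
  · obtain ⟨R, hR⟩ := H.d1 (ε / 4) (by positivity)
    refine ⟨max (max (R + |a|) |a|) (2 * |a| / ε), fun x hx hxR => ?_⟩
    obtain ⟨x, rfl⟩ := hsurj x
    have h1 := ((le_max_left _ _).trans (le_max_left _ _)).trans hxR
    have h2 := ((le_max_right _ _).trans (le_max_left _ _)).trans hxR
    have h3 := (le_max_right _ _).trans hxR
    rw [div_le_iff₀ hε] at h3
    have h4 : ‖f x‖ ≤ ‖x‖ + |a| := by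
      rw [hfx, ← hna]; exact norm_sub_le _ _
    have h5 : ‖x‖ ≤ ‖f x‖ + |a| := by
      have := norm_add_le (f x) (a • e3)
      rwa [hna, hfx, sub_add_cancel, ← hfx] at this
    have h6 := hR x ((hmem x).1 hx) (by linarith)
    have h7 : |x 2 - a| ≤ |x 2| + |a| := abs_sub _ _
    have h8 : ε / 4 * ‖x‖ ≤ ε / 4 * (2 * ‖f x‖) :=
      mul_le_mul_of_nonneg_left (by linarith) (by positivity)
    rw [hf2]
    linarith
  · obtain ⟨R, hR⟩ := H.d2 (ε / 4) (by positivity)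
    refine ⟨max |R| |a|, fun r hr => ?_⟩
    have h1 := (le_max_left _ _).trans hr
    have h2 := (le_max_right _ _).trans hr
    have h3 := le_abs_self R
    have h4 := abs_nonneg R
    have h5 := hR (2 * r) (by linarith)
    have h0 : f (a • e3) = 0 := by rw [hfx, sub_self]
    have h6 := hball (a • e3) r fun n => ‖pr n‖ ^ 2
    rw [h0] at h6
    rw [h6]
    have hsub : ball (a • e3) r ⊆ ball (0 : E) (2 * r) := by
      refine ball_subset_ball' ?_
      rw [dist_zero_right, hna]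
      linarith
    have hint : IntegrableOn (fun x => ‖pr (M.N x)‖ ^ 2) (ball (0 : E) (2 * r)) M.μ := by
      refine H.mem.bd.integrableOn isBounded_ball
        ((measurable_pr.comp M.N_meas).norm.pow_const 2) (C := 1) (fun x hx => ?_)
        measurableSet_ball
      have e1 := norm_pr_le (M.N x)
      rw [M.N_unit x hx.2] at e1
      rw [abs_of_nonneg (sq_nonneg _)]
      exact pow_le_one₀ (norm_nonneg _) e1
    have h7 := setIntegral_mono_set hint (Eventually.of_forall fun x => sq_nonneg _)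
      hsub.eventuallyLE
    calc _ ≤ _ := h7
      _ ≤ ε / 4 * (2 * r) ^ 2 := h5
      _ = ε * r ^ 2 := by ring
  · obtain ⟨c, hc, hd⟩ := H.d3
    refine ⟨c, hc, fun ε hε => ?_⟩
    obtain ⟨R, hR⟩ := hd ε hε
    refine ⟨R, fun y hy hyS => ?_⟩
    have hy' : y ∉ pr '' M.S := by
      rintro ⟨x, hx, rfl⟩
      refine hyS ⟨f x, (hmem x).2 hx, ?_⟩
      rw [hfx, pr_sub, pr_smul, pr_e3, smul_zero, sub_zero]
    obtain ⟨t, b, hb, hbε, hθ⟩ := hR y hy hy'
    refine ⟨t - a, b, hb, hbε, fun θ hθ1 => ?_⟩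
    have h1 := hball (pt y t) b fun n => ⟪pr n, θ⟫ ^ 2
    rw [hfx, pt_sub_smul_e3] at h1
    rw [h1]
    exact hθ θ hθ1

end MW.S6
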