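import Pool.Agent.P.MP_064970_gt.S6.Defs
import Pool.Agent.P.MP_064970_gt.SI
import Pool.Agent.P.MP_064970_gt.PL.Stmts

/-!
# Meeks–Wolf, section 6: definitions and statements
-/

open MeasureTheory Set Filter Topology Metric Complex InnerProductSpace
open scoped RealInnerProductSpace ENNReal ComplexConjugate Real

noncomputable section

namespace MW.S6

/-- The coordinate vectors. -/
def ee (i : Fin 3) : E := EuclideanSpace.single i 1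

/-- Reflection in a coordinate plane. -/
def rf (i : Fin 3) (x : E) : E := x - (2 * x i) • ee i

/-- The cross product. -/
def cross (a b : E) : E :=
  WithLp.toLp 2 ![a 1 * b 2 - a 2 * b 1, a 2 * b 0 - a 0 * b 2, a 0 * b 1 - a 1 * b 0]

/-- The chart is positively oriented: `N × X_u = X_v`. -/
def Ori (c : Chart) (N : E → E) : Prop :=
  ∀ z ∈ ball (0 : ℂ) c.r, cross (N (c.X z)) (c.Xu z) = c.Xv z

/-- Near `x`, the function `f` is a conjugate of the `i`-th coordinate on the surface. -/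
def Cj (M : Surf) (i : Fin 3) (f : E → ℝ) (x : E) : Prop :=
  ∀ᶠ y in 𝓝[M.S] x, HasFDerivWithinAt f (innerSL ℝ (cross (M.N y) (ee i))) M.S y

/-- Symmetric bigraph over the `i`-th coordinate plane. -/
structure Bg (M : Surf) (i : Fin 3) : Prop where
  symS : ∀ x ∈ M.S, rf i x ∈ M.S
  symN : ∀ x ∈ M.S, M.N (rf i x) = rf i (M.N x)
  pos : ∀ x ∈ M.S, 0 < x i → 0 < M.N x i
  zero : ∀ x ∈ M.S, x i = 0 → M.N x i = 0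
  inj : ∀ x ∈ M.S, 0 ≤ x i → ∀ t : ℝ, 0 < t → x + t • ee i ∉ M.S
  clo : ∀ x ∈ M.S, x i = 0 → x ∈ closure {y | y ∈ M.S ∧ 0 < y i}
  cone : ∃ L R₀ : ℝ, 0 < L ∧ ∀ x : E, R₀ ≤ ‖x‖ → L * ‖x - x i • ee i‖ < |x i| → x ∈ M.W'

/-! ### General statements -/

def S_BG : Prop := ∀ (M : Surf) (i : Fin 3), M.Mem → Big M (ee i) 0 → Bg M i

/-- Oriented charts. -/
def S_OR : Prop := ∀ (M : Surf), ∀ x ∈ M.S,
  ∃ c : Chart, c.X 0 = x ∧ c.Fits M.S M.N M.μ ∧ Ori c M.N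

/-- Calculus of conjugate functions. -/
def S_CJ : Prop := ∀ M : Surf,
  (∀ x ∈ M.S, ∀ i, ∃ f, Cj M i f x) ∧
  (∀ c : Chart, c.Fits M.S M.N M.μ → Ori c M.N → ∀ i f, Cj M i f (c.X 0) →
    ∀ᶠ w in 𝓝 (0 : ℂ), f (c.X w) = (c.Φ i w).im + (f (c.X 0) - (c.Φ i 0).im)) ∧
  (∀ x ∈ M.S, ∀ i f f', Cj M i f x → Cj M i f' x →
    ∀ᶠ y in 𝓝[M.S] x, f y - f' y = f x - f' x) ∧
  (∀ j, (∀ x ∈ M.S, rf j x ∈ M.S) → (∀ x ∈ M.S, M.N (rf j x) = rf j (M.N x)) →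
    ∀ x ∈ M.S, x j = 0 → ∀ i f, i ≠ j → Cj M i f x →
      ∀ᶠ y in 𝓝[M.S] x, f (rf j y) + f y = 2 * f x)

/-- A continuous lift through a projection that is injective on the tangent plane is
differentiable. -/
def S_TANG : Prop := ∀ (M : Surf) (L : E →L[ℝ] ℂ) (A : ℂ →L[ℝ] E) (γ : ℂ → E) (P : Set ℂ) (q : ℂ),
  q ∈ P → (∀ v : E, ⟪v, M.N (γ q)⟫ = 0 → A (L v) = v) → ContinuousWithinAt γ P q →
  (∀ q' ∈ P, γ q' ∈ M.S ∧ L (γ q') = q') → HasFDerivWithinAt γ A P q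

/-- Monotonicity from a derivative on an open set. -/
def S_MONO1 : Prop := ∀ (φ : ℝ → ℝ) (G : Set ℝ), Continuous φ → IsOpen G →
  (∀ τ ∈ G, ∃ d : ℝ, 0 ≤ d ∧ HasDerivAt φ d τ) →
  (∀ τ₀, τ₀ ∉ G → ∀ᶠ τ in 𝓝[>] τ₀, τ ∉ G → φ τ₀ ≤ φ τ) → Monotone φ

/-- A continuous strongly monotone map of the plane is onto. -/
def S_SURJ : Prop := ∀ ξ : ℂ → ℂ, Continuous ξ →
  (∀ y y', ‖y - y'‖ ^ 2 ≤ ⟪ξ y - ξ y', y - y'⟫) → Function.Surjective ξ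

/-- A Lipschitz map whose mean slope tends to zero is sublinear. -/
def S_OSC : Prop := ∀ (g : ℂ → ℂ) (k : ℂ → ℝ), LipschitzWith 1 g → Continuous k →
  (∀ z, 0 ≤ k z) → (∀ z, ∀ ε : ℝ, 0 < ε → ∀ᶠ w in 𝓝 z, ‖g w - g z‖ ≤ (k z + ε) * ‖w - z‖) →
  (∀ ε : ℝ, 0 < ε → ∃ R : ℝ, ∀ r, R ≤ r → ∫ z in ball (0 : ℂ) r, k z ≤ ε * r ^ 2) →
  ∀ ε : ℝ, 0 < ε → ∃ R : ℝ, ∀ z, R ≤ ‖z‖ → ‖g z‖ ≤ ε * ‖z‖

/-- Vitali covering. -/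
def S_VIT : Prop := ∀ (A T : Set ℂ) (ν : Measure ℂ) (c B : ℝ), 0 < c →
  (∀ y ∈ A, ∃ b, 0 < b ∧ b ≤ B ∧ ball y b ⊆ T ∧ ENNReal.ofReal (c * b ^ 2) ≤ ν (ball y b)) →
  volume A ≤ ENNReal.ofReal (16 * π / c) * ν T

/-! ### Two mirror planes -/

/-- Two mirror planes `x 0 = 0`, `x 1 = 0`. -/
structure Sym (M : Surf) : Prop where
  mem : M.Mem
  b0 : Bg M.swap 0
  b1 : Bg M 1
  far : ∀ t : ℝ, ∃ c R : ℝ, 0 < c ∧ ∀ x ∈ M.S, x 2 = t → R ≤ ‖x‖ → c ≤ ‖pr (M.N x)‖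

/-- The closed quarter of the surface. -/
def Q (M : Surf) : Set E := {x | x ∈ M.S ∧ 0 ≤ x 0 ∧ 0 ≤ x 1}

/-- The horizontal slices of the quarter, as sets. -/
structure Sl0 (M : Surf) (σ₀ : ℝ → ℝ) : Prop where
  inj : ∀ x ∈ Q M, ∀ y ∈ Q M, x 2 = y 2 → x 0 + x 1 = y 0 + y 1 → x = y
  ex : ∀ t σ, σ₀ t ≤ σ → ∃ x ∈ Q M, x 2 = t ∧ x 0 + x 1 = σ
  low : ∀ x ∈ Q M, σ₀ (x 2) ≤ x 0 + x 1
  bd : ∀ x ∈ Q M, (x 0 * x 1 = 0 ↔ x 0 + x 1 = σ₀ (x 2))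
  bdd : ∀ T : ℝ, ∃ B : ℝ, ∀ t, |t| ≤ T → σ₀ t ≤ B

/-- The parametrisation of the quarter by height and position on the slice. -/
structure Sl (M : Surf) (σ₀ : ℝ → ℝ) (κ : ℂ → E) : Prop extends Sl0 M σ₀ where
  contσ : Continuous σ₀
  cont : Continuous κ
  mem : ∀ q, κ q ∈ Q M
  two : ∀ q, κ q 2 = q.re
  sum : ∀ q, κ q 0 + κ q 1 = σ₀ q.re + max q.im 0

/-- The conjugate of the height on the quarter. -/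
structure Yc (M : Surf) (κ : ℂ → E) (Y : ℂ → ℝ) : Prop where
  cont : Continuous Y
  zero : ∀ q : ℂ, q.im ≤ 0 → Y q = 0
  rep : ∀ q, ∃ f, Cj M 2 f (κ q) ∧ ∀ᶠ q' in 𝓝 q, Y q' = f (κ q')

/-- The conjugate increases to infinity along every slice. -/
def Ymono (Y : ℂ → ℝ) : Prop := ∀ t : ℝ, StrictMonoOn (fun s : ℝ => Y (t + s * I)) (Ici 0) ∧
  Tendsto (fun s : ℝ => Y (t + s * I)) atTop atTop

/-- The conformal parametrisation of the quarter by the closed half-plane, extended evenly. -/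
structure Par (M : Surf) (G : ℂ → E) : Prop where
  cont : Continuous G
  even : ∀ z, G (conj z) = G z
  mem : ∀ z, G z ∈ Q M
  two : ∀ z, G z 2 = z.re
  bd : ∀ z, (G z 0 * G z 1 = 0 ↔ z.im = 0)
  surj : ∀ x ∈ Q M, ∃ z, G z = x
  rep : ∀ z : ℂ, 0 ≤ z.im → ∃ f, Cj M 2 f (G z) ∧ f (G z) = z.im ∧
    ∀ᶠ x in 𝓝[Q M] (G z), 0 ≤ f x ∧ G (x 2 + f x * I) = x

def S_SL1 : Prop := ∀ M, Sym M → ∃ σ₀, Sl0 M σ₀

def S_SL2 : Prop := ∀ M σ₀, Sym M → Sl0 M σ₀ → ∃ κ, Sl M σ₀ κ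

def S_Y1 : Prop := ∀ M σ₀ κ, Sym M → Sl M σ₀ κ → ∃ Y, Yc M κ Y

def S_Y2 : Prop := ∀ M σ₀ κ Y, Sym M → Sl M σ₀ κ → Yc M κ Y → Ymono Y

def S_PAR : Prop := ∀ M σ₀ κ Y, Sym M → Sl M σ₀ κ → Yc M κ Y → Ymono Y → ∃ G, Par M G

def S_DATA : Prop := ∀ M G, Sym M → Par M G → AN.Data (fun z => G z 0) (fun z => G z 1)

def S_FIN : Prop := ∀ M σ₀ G, Sym M → Sl0 M σ₀ → Par M G →
  ((∃ c, ∀ z, G z 0 = c) ∨ (∃ c, ∀ z, G z 1 = c) ∨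
    AN.IsCat (fun z => G z 0) (fun z => G z 1) ∨ AN.IsCat (fun z => G z 1) (fun z => G z 0) ∨
    AN.IsScherk (fun z => G z 0) (fun z => G z 1)) → IsScherk M.S

def S_SYM0 : Prop := ∀ M, Sym M → IsScherk M.S

/-! ### One mirror plane -/

/-- The point at height `u y` over `y`. -/
def lift (u : ℂ → ℝ) (y : ℂ) : E := pt y (u y)

/-- The upper half of the surface is the graph of `u`. -/
structure Gr (M : Surf) (u : ℂ → ℝ) : Prop where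
  cont : Continuous u
  nonneg : ∀ y, 0 ≤ u y
  eq : ∀ x ∈ M.S, 0 ≤ x 2 → u (pr x) = x 2
  mem : ∀ y, 0 < u y → lift u y ∈ M.S
  clo : ∀ y, (y ∈ closure {y | 0 < u y} ↔ lift u y ∈ M.S)

/-- The Nitsche correction `V`. -/
structure Ni (M : Surf) (u : ℂ → ℝ) (V : ℂ → ℂ) : Prop where
  cont : Continuous V
  loc : ∀ y₀, u y₀ = 0 → ∀ᶠ y in 𝓝 y₀, u y = 0 → V y = V y₀
  rep : ∀ y₀, lift u y₀ ∈ M.S → ∃ f₀ f₁, Cj M 0 f₀ (lift u y₀) ∧ Cj M 1 f₁ (lift u y₀) ∧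
    ∀ᶠ y in 𝓝 y₀, lift u y ∈ M.S → V y = ⟨-f₁ (lift u y), f₀ (lift u y)⟩

/-- The Nitsche map `y ↦ y + V y` and its inverse `η`. -/
structure NB (M : Surf) (u : ℂ → ℝ) (V η : ℂ → ℂ) : Prop where
  mem : M.Mem
  bg : Bg M 2
  gr : Gr M u
  ni : Ni M u V
  left : ∀ y, η (y + V y) = y
  right : ∀ z, η z + V (η z) = z
  firm : ∀ z z', ‖η z - η z'‖ ^ 2 ≤ ⟪z - z', η z - η z'⟫

/-- The height in the conformal coordinate. -/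
def UU (u : ℂ → ℝ) (η : ℂ → ℂ) (z : ℂ) : ℝ := u (η z)

/-- The closed set covered by the surface, in the conformal coordinate. -/
def Cl (M : Surf) (u : ℂ → ℝ) (η : ℂ → ℂ) : Set ℂ := {z | lift u (η z) ∈ M.S}

/-- The Gauss map. -/
def gm (n : E) : ℂ := -conj (pr n) / ((1 + n 2 : ℝ) : ℂ)

open Classical in
/-- The Gauss map in the conformal coordinate. -/
def hh (M : Surf) (u : ℂ → ℝ) (η : ℂ → ℂ) (z : ℂ) : ℂ :=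
  if z ∈ Cl M u η then gm (M.N (lift u (η z))) else 0

/-- The second holomorphic function. -/
def gg (η : ℂ → ℂ) (z : ℂ) : ℂ := conj (2 * η z - z)

/-- The conformal coordinate of a point of the upper half. -/
def TT (V : ℂ → ℂ) (x : E) : ℂ := pr x + V (pr x)

/-- The hypotheses in the normalised frame. -/
structure II0 (M : Surf) : Prop where
  mem : M.Mem
  bg : Bg M 2
  ne : ∃ x ∈ M.S, x 2 = 0
  d1 : ∀ ε : ℝ, 0 < ε → ∃ R : ℝ, ∀ x ∈ M.S, R ≤ ‖x‖ → |x 2| ≤ ε * ‖x‖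
  d2 : ∀ ε : ℝ, 0 < ε → ∃ R : ℝ, ∀ r : ℝ, R ≤ r →
    ∫ x in ball (0 : E) r, ‖pr (M.N x)‖ ^ 2 ∂M.μ ≤ ε * r ^ 2
  d3 : ∃ c : ℝ, 0 < c ∧ ∀ ε : ℝ, 0 < ε → ∃ R : ℝ, ∀ y : ℂ, R ≤ ‖y‖ → y ∉ pr '' M.S →
    ∃ t b : ℝ, 0 < b ∧ b ≤ ε * ‖y‖ ∧ ∀ θ : ℂ, ‖θ‖ = 1 →
      c * b ^ 2 ≤ ∫ x in ball (pt y t) b, ⟪pr (M.N x), θ⟫ ^ 2 ∂M.μ

/-- The hypothesis `g1` of the planar theorem. -/
def G1 (U : ℂ → ℝ) (h : ℂ → ℂ) : Prop := ∃ C r₀ : ℝ, 0 < r₀ ∧ ∀ r, r₀ ≤ r →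
  volume.real (PL.Fz U ∩ {z | r ≤ ‖z‖ ∧ ‖z‖ ≤ 2 * r})
    ≤ C * ∫ z in PL.Om U ∩ {z | r / 2 ≤ ‖z‖ ∧ ‖z‖ ≤ 4 * r}, PL.Dil U h z ^ 2 / ‖z‖ ^ 2

def S_GR : Prop := ∀ M : Surf, M.Mem → Bg M 2 → ∃ u, Gr M u

def S_V : Prop := ∀ (M : Surf) u, M.Mem → Bg M 2 → Gr M u → ∃ V, Ni M u V

def S_MON : Prop := ∀ (M : Surf) u V, M.Mem → Bg M 2 → Gr M u → Ni M u V →
  ∀ y y', 0 ≤ ⟪V y - V y', y - y'⟫

/-- The Nitsche map in an oriented chart. -/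
def S_LOC : Prop := ∀ M u V η, NB M u V η → ∀ x ∈ M.S, 0 ≤ x 2 →
  ∃ (c : Chart) (k : ℂ), c.X 0 = x ∧ c.Fits M.S M.N M.μ ∧ Ori c M.N ∧
    (∀ w ∈ ball (0 : ℂ) c.r, 0 ≤ c.X w 2 → TT V (c.X w) = c.Φ 0 w + I * c.Φ 1 w + k) ∧
    (0 < x 2 → ∀ w ∈ ball (0 : ℂ) c.r, 0 < c.X w 2)

def S_HOL : Prop := ∀ M u V η, NB M u V η → ∀ z, 0 < UU u η z →
  HarmonicAt (UU u η) z ∧ hh M u η z = AN.D (UU u η) z ∧
    HasDerivAt (gg η) (-hh M u η z ^ 2) z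

def S_HH : Prop := ∀ M u V η, NB M u V η →
  Measurable (hh M u η) ∧ (∀ z, ‖hh M u η z‖ ≤ 1) ∧ ContinuousOn (hh M u η) (Cl M u η) ∧
  (∀ z ∈ Cl M u η, UU u η z = 0 → ‖hh M u η z‖ = 1) ∧
  closure (PL.Om (UU u η)) = Cl M u η ∧
  frontier (PL.Om (UU u η)) = Cl M u η ∩ PL.Fz (UU u η)

def S_NULL : Prop := ∀ M u V η, NB M u V η →
  volume (Cl M u η ∩ PL.Fz (UU u η)) = 0 ∧ M.μ {x | x 2 = 0} = 0

def S_PUSH : Prop := ∀ M u V η, NB M u V η → ∀ F : ℂ → ℝ≥0∞, Measurable F →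
  ∫⁻ z in PL.Om (UU u η), F z
    = ∫⁻ x in {x : E | 0 < x 2}, F (TT V x) * ENNReal.ofReal ((1 + M.N x 2) ^ 2) ∂M.μ

def S_SYMU : Prop := ∀ M : Surf, M.Mem → Bg M 2 → ∀ g : E → ℝ≥0∞, Measurable g →
  ∫⁻ x in {x : E | x 2 < 0}, g x ∂M.μ = ∫⁻ x in {x : E | 0 < x 2}, g (rf 2 x) ∂M.μ

/-- The zero set is not larger than the uncovered part of the plane. -/
def S_TRANS : Prop := ∀ M u V η, NB M u V η → ∀ A : Set ℂ, MeasurableSet A →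
  volume (PL.Fz (UU u η) ∩ η ⁻¹' A) ≤ volume ({y | lift u y ∉ M.S} ∩ A)

def S_DEN : Prop := ∀ M u, II0 M → Gr M u → ∀ ε : ℝ, 0 < ε → ∃ R : ℝ, ∀ r, R ≤ r →
  volume ({y | lift u y ∉ M.S} ∩ ball 0 r) ≤ ENNReal.ofReal (ε * r ^ 2)

def S_GO : Prop := ∀ M u V η, II0 M → NB M u V η → ∀ ε : ℝ, 0 < ε → ∃ R : ℝ, ∀ y : ℂ,
  R ≤ ‖y‖ → ‖V y - y‖ ≤ ε * ‖y‖

def S_CELL : Prop := ∀ M u V η, II0 M → NB M u V η → ∃ c : ℝ, 0 < c ∧ ∀ ε : ℝ, 0 < ε →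
  ∃ R : ℝ, ∀ y : ℂ, R ≤ ‖y‖ → lift u y ∉ M.S → ∃ b : ℝ, 0 < b ∧ b ≤ ε * ‖y‖ ∧
    ENNReal.ofReal (c * b ^ 2) ≤ ∫⁻ z in PL.Om (UU u η) ∩ η ⁻¹' ball y b,
      ENNReal.ofReal (PL.Dil (UU u η) (hh M u η) z ^ 2 / ‖z‖ ^ 2)

def S_G1 : Prop := ∀ M u V η, II0 M → NB M u V η → G1 (UU u η) (hh M u η)

def S_REST : Prop := ∀ M u V η, II0 M → NB M u V η → G1 (UU u η) (hh M u η) →
  PL.Data (UU u η) (hh M u η)

def S_CAT : Prop := ∀ M u V η, NB M u V η → PL.Concl (UU u η) (hh M u η) → IsCatenoid M.S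

def S_II0 : Prop := ∀ M, II0 M → IsCatenoid M.S

end MW.S6
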